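import Pool.Agent.ALG.Defs

/-!
# [ALP] automorphic growth and linear groups in positive characteristic (MP_893f58_al): definitions
-/

set_option autoImplicit false

namespace ALP

open AG ALG

section

variable {H : Type*} [Group H]

/-- `M` is a normal subgroup of finite index, `A ⧸ M` is contained in every nontrivial normal subgroup of `H ⧸ M` and it is not abelian. -/
structure Mono (M A : Subgroup H) : Prop where
  normal : M.Normal
  normalA : A.Normal
  ne : M.index ≠ 0
  le : M ≤ A
  nonab : ∃ x ∈ A, ∃ y ∈ A, x * y * x⁻¹ * y⁻¹ ∉ M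
  min : ∀ B : Subgroup H, B.Normal → M ≤ B → B ≠ M → A ≤ B

/-- `H ⧸ M` is finite and has a smallest nontrivial normal subgroup, and this subgroup is not abelian. -/
def IsMono (M : Subgroup H) : Prop := ∃ A : Subgroup H, Mono M A

/-- the number of the cosets of `D` with an element in the ball -/
noncomputable def gam (T : Finset H) (D : Subgroup H) (n : ℕ) : ℕ :=
  ((fun h : H => (h : H ⧸ D)) '' ball T n).ncard

/-- isomorphic quotients -/
def SameQ (M M' : Subgroup H) : Prop :=
  ∃ (_ : M.Normal) (_ : M'.Normal), Nonempty (H ⧸ M ≃* H ⧸ M')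

/-- the order of `GL_N` over the field with `p ^ j` elements -/
def glc (p N j : ℕ) : ℕ := ∏ i : Fin N, ((p ^ j) ^ N - (p ^ j) ^ (i : ℕ))

/-- `𝓚 j` is a finite set of subgroups `M ≥ D` with `IsMono M`, whose indices divide the order of `GL_N` over the field with `p ^ j` elements, with at most `p ^ (C j)` elements, such that the elements of the
ball of radius `n` which are not in `D` are not in some `M ∈ 𝓚 j`, if `C (n + 1) < p ^ j`. -/
structure Levels (T : Finset H) (D : Subgroup H) (p N C : ℕ) (K : ℕ → Finset (Subgroup H)) :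
    Prop where
  prime : p.Prime
  gen : Subgroup.closure (T : Set H) = ⊤
  inf : D.index = 0
  mono : ∀ j, ∀ M ∈ K j, IsMono M
  dvd : ∀ j, 1 ≤ j → ∀ M ∈ K j, M.index ∣ glc p N j
  le : ∀ j, ∀ M ∈ K j, D ≤ M
  card : ∀ j, 1 ≤ j → (K j).card ≤ p ^ (C * j)
  sep : ∀ j n, 1 ≤ j → C * (n + 1) < p ^ j → ∀ x ∈ ball T n, (∀ M ∈ K j, x ∈ M) → x ∈ D

end

/-- the leaves of a complete binary tree of depth `k`, labelled by elements of `H` -/
def Leaves (H : Type*) : ℕ → Type _
  | 0 => H
  | k + 1 => Leaves H k × Leaves H k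

/-- the iterated commutator of conjugates of `x` (complete binary tree of depth `k`) -/
def tv {H : Type*} [Group H] (x : H) : (k : ℕ) → Leaves H k → H
  | 0, g => (show H from g) * x * (show H from g)⁻¹
  | k + 1, u => tv x k u.1 * tv x k u.2 * (tv x k u.1)⁻¹ * (tv x k u.2)⁻¹

/-- all labels are in `B` -/
def LeavesIn {H : Type*} (B : Set H) : (k : ℕ) → Leaves H k → Prop
  | 0, g => (show H from g) ∈ B
  | k + 1, u => LeavesIn B k u.1 ∧ LeavesIn B k u.2

/-- rational functions in `d` variables over the field with `p` elements -/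
abbrev RF (p d : ℕ) [Fact p.Prime] : Type := FractionRing (MvPolynomial (Fin d) (ZMod p))

end ALP
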