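import Pool.Agent.ALP.Defs

/-!
# [ALP-K1] groups with a nonabelian smallest normal subgroup
-/

set_option autoImplicit false

namespace ALP

open AG ALG

variable {H : Type*} [Group H]

/-- PROOF. `B ⊔ M` is normal, contains `M`, and is not `M` (otherwise `B ≤ M`). -/
theorem Mono.le_sup {M A : Subgroup H} (h : Mono M A) (B : Subgroup H) (hB : B.Normal)
    (hBM : ¬ B ≤ M) : A ≤ B ⊔ M := by
  have h1 := h.normal
  have h2 : (B ⊔ M).Normal := Subgroup.sup_normal B M
  refine h.min (B ⊔ M) h2 le_sup_right fun h3 => hBM ?_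
  rw [← h3]
  exact le_sup_left

/-- PROOF. `⁅A, A⁆ ⊔ M` contains `A` by `le_sup` (`B = ⁅A, A⁆` is normal and not contained in `M` by `nonab`); map it to `H ⧸ M` (`Subgroup.map_commutator`, `map_sup`, the image of `M` is `⊥`). -/
theorem Mono.map_perfect {M A : Subgroup H} [M.Normal] (h : Mono M A) :
    ⁅A.map (QuotientGroup.mk' M), A.map (QuotientGroup.mk' M)⁆ = A.map (QuotientGroup.mk' M) := by
  have h1 := h.normalA
  have h2 : (⁅A, A⁆ : Subgroup H).Normal := Subgroup.commutator_normal A A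
  have h3 : ¬ (⁅A, A⁆ : Subgroup H) ≤ M := by
    intro h4
    obtain ⟨x, hx, y, hy, hxy⟩ := h.nonab
    exact hxy (h4 (Subgroup.commutator_mem_commutator hx hy))
  have h4 := h.le_sup ⁅A, A⁆ h2 h3
  have h5 : M.map (QuotientGroup.mk' M) = ⊥ := by
    rw [Subgroup.map_eq_bot_iff, QuotientGroup.ker_mk']
  rw [← Subgroup.map_commutator]
  refine le_antisymm (Subgroup.map_mono (Subgroup.commutator_le_left A A)) ?_
  have h6 := Subgroup.map_mono (f := QuotientGroup.mk' M) h4
  rw [Subgroup.map_sup, h5, sup_bot_eq] at h6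
  exact h6

/-- PROOF. `t` is the image of `a ∈ A ≤ M' ⊔ M`, so `a = m' * m` (`Subgroup.mem_sup` / `Subgroup.mul_normal`), `g = m'`. -/
theorem Mono.hit {M A M' : Subgroup H} [M.Normal] [M'.Normal] (h : Mono M A) (hM' : ¬ M' ≤ M)
    (t : H ⧸ M) (ht : t ∈ A.map (QuotientGroup.mk' M)) :
    ∃ g : H, QuotientGroup.mk' M' g = 1 ∧ QuotientGroup.mk' M g = t := by
  obtain ⟨a, ha, rfl⟩ := ht
  have h1 : a ∈ M' ⊔ M := h.le_sup M' inferInstance hM' ha
  have h2 : a ∈ ((M' ⊔ M : Subgroup H) : Set H) := h1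
  rw [Subgroup.mul_normal] at h2
  obtain ⟨m', hm', m, hm, hmm⟩ := Set.mem_mul.1 h2
  refine ⟨m', (QuotientGroup.eq_one_iff m').2 hm', ?_⟩
  rw [← hmm, map_mul]
  have h3 : QuotientGroup.mk' M m = 1 := (QuotientGroup.eq_one_iff m).2 hm
  rw [h3, mul_one]

/-- PROOF. Induction on `k`; `dser X k` is normal (induction). If `¬ dser X k ≤ M` then `A ≤ dser X k ⊔ M` by `le_sup`. Take `x, y ∈ A` as in `nonab`, `x = u m`, `y = v m'` with `u, v ∈ dser X k`, `m, m' ∈ M`;
modulo `M` the commutator of `x, y` is the one of `u, v`, which is in `dser X (k + 1)`. So `¬ dser X (k+1) ≤ M`. -/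
theorem k1_dser_normal {X : Subgroup H} (hX : X.Normal) (k : ℕ) : (dser X k).Normal := by
  induction k with
  | zero => exact hX
  | succ k ih =>
    have := ih
    exact Subgroup.commutator_normal _ _

theorem Mono.dser_not_le {M A X : Subgroup H} (h : Mono M A) (hX : X.Normal) (hXM : ¬ X ≤ M)
    (k : ℕ) : ¬ dser X k ≤ M := by
  have hMn := h.normal
  have hn := k1_dser_normal hX
  induction k with
  | zero => exact hXM
  | succ k ih =>
    intro h1
    have h2 : A ≤ dser X k ⊔ M := h.le_sup _ (hn k) ih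
    obtain ⟨x, hx, y, hy, hxy⟩ := h.nonab
    have h3 : x ∈ ((dser X k ⊔ M : Subgroup H) : Set H) := h2 hx
    have h4 : y ∈ ((dser X k ⊔ M : Subgroup H) : Set H) := h2 hy
    rw [Subgroup.mul_normal] at h3 h4
    obtain ⟨u, hu, m, hm, rfl⟩ := Set.mem_mul.1 h3
    obtain ⟨v, hv, m', hm', rfl⟩ := Set.mem_mul.1 h4
    apply hxy
    have e1 : QuotientGroup.mk' M m = 1 := (QuotientGroup.eq_one_iff m).2 hm
    have e2 : QuotientGroup.mk' M m' = 1 := (QuotientGroup.eq_one_iff m').2 hm'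
    have e3 : u * v * u⁻¹ * v⁻¹ ∈ M := h1 (Subgroup.commutator_mem_commutator hu hv)
    have e4 : QuotientGroup.mk' M (u * v * u⁻¹ * v⁻¹) = 1 := (QuotientGroup.eq_one_iff _).2 e3
    refine (QuotientGroup.eq_one_iff (N := M) _).1 ?_
    show QuotientGroup.mk' M (u * m * (v * m') * (u * m)⁻¹ * (v * m')⁻¹) = 1
    simp only [map_mul, map_inv, e1, e2, mul_one] at e4 ⊢
    exact e4

/-- PROOF. `C = {h | ∀ a ∈ A, h a h⁻¹ a⁻¹ ∈ M}` is a normal subgroup of `H` containing `M` (use the images in `H ⧸ M`: it is the preimage of the centralizer of the image of `A`). If `C ≠ M` then `A ≤ C` by `min`, against `nonab`. -/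
theorem Mono.centralizer {M A : Subgroup H} (h : Mono M A) (g : H)
    (hg : ∀ a ∈ A, g * a * g⁻¹ * a⁻¹ ∈ M) : g ∈ M := by
  have hMn := h.normal
  have hAn := h.normalA
  by_contra hgM
  set φ := QuotientGroup.mk' M with hφ
  have hφs : Function.Surjective φ := QuotientGroup.mk'_surjective M
  have hφ1 : ∀ x, φ x = 1 ↔ x ∈ M := fun x => QuotientGroup.eq_one_iff x
  have hD : (A.map φ).Normal := hAn.map φ hφs
  set C : Subgroup H := (Subgroup.centralizer ((A.map φ : Subgroup (H ⧸ M)) : Set (H ⧸ M))).comap φ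
    with hC
  have hCn : C.Normal := by
    have h1 : (Subgroup.centralizer ((A.map φ : Subgroup (H ⧸ M)) : Set (H ⧸ M))).Normal :=
      Subgroup.normal_centralizer
    exact h1.comap φ
  have hcomm : ∀ x y : H, φ x * φ y = φ y * φ x ↔ x * y * x⁻¹ * y⁻¹ ∈ M := by
    intro x y
    rw [← hφ1, map_mul, map_mul, map_mul, map_inv, map_inv, mul_inv_eq_one, mul_inv_eq_iff_eq_mul]
  have hCmem : ∀ x : H, x ∈ C ↔ ∀ a ∈ A, x * a * x⁻¹ * a⁻¹ ∈ M := by
    intro x
    rw [hC, Subgroup.mem_comap, Subgroup.mem_centralizer_iff]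
    constructor
    · intro h1 a ha
      exact (hcomm x a).1 (h1 (φ a) ⟨a, ha, rfl⟩).symm
    · rintro h1 _ ⟨a, ha, rfl⟩
      exact ((hcomm x a).2 (h1 a ha)).symm
  have hMC : M ≤ C := by
    intro x hx
    rw [hCmem]
    intro a _
    rw [← hcomm, (hφ1 x).2 hx, one_mul, mul_one]
  have hne : C ≠ M := by
    intro h1
    apply hgM
    rw [← h1, hCmem]
    exact hg
  have hAC := h.min C hCn hMC hne
  obtain ⟨x, hx, y, hy, hxy⟩ := h.nonab
  exact hxy ((hCmem x).1 (hAC hx) y hy)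

end ALP
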