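import Pool.Agent.ALP.K3

/-!
# [ALP-K8] isomorphic quotients
-/

set_option autoImplicit false

namespace ALP

open AG ALG

variable {H : Type*} [Group H]

theorem sameQ_refl (M : Subgroup H) (h : M.Normal) : SameQ M M := by
  exact ⟨h, h, ⟨MulEquiv.refl _⟩⟩

theorem SameQ.symm {M M' : Subgroup H} (h : SameQ M M') : SameQ M' M := by
  obtain ⟨h1, h2, ⟨e⟩⟩ := h
  exact ⟨h2, h1, ⟨e.symm⟩⟩

theorem SameQ.trans {M M' M'' : Subgroup H} (h : SameQ M M') (h' : SameQ M' M'') :
    SameQ M M'' := by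
  obtain ⟨h1, h2, ⟨e⟩⟩ := h
  obtain ⟨h3, h4, ⟨e'⟩⟩ := h'
  exact ⟨h1, h4, ⟨e.trans e'⟩⟩

theorem SameQ.index_eq {M M' : Subgroup H} (h : SameQ M M') : M.index = M'.index := by
  obtain ⟨h1, h2, ⟨e⟩⟩ := h
  exact Nat.card_congr e.toEquiv

/-- PROOF. Let `e : H ⧸ M ≃* H ⧸ M'` and `Mono M' A'`. `A = (A'.map (mk' M')).comap (e ∘ mk' M)`, i.e. the `h` with `e (h : H ⧸ M) ∈` image of `A'`. For `B ≥ M` normal, `B ≠ M`, let `B' = {h | ∃ b ∈ B, (h : H ⧸ M') = e b}`: it is normal, contains `M'` and is not `M'`,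
so it contains `A'`, and hence `A ≤ B` (for `a ∈ A`: `e a` is the image of some `a' ∈ A' ≤ B'`, so `e a = e b`, `b ∈ B`, `a ∈ b M ⊆ B`). The index is the order of the quotient. -/
theorem SameQ.isMono {M M' : Subgroup H} (h : SameQ M M') (h' : IsMono M') : IsMono M := by
  have hidx := h.index_eq
  obtain ⟨h1, h2, ⟨e⟩⟩ := h
  obtain ⟨A', hA'⟩ := h'
  have hmk : ∀ x : H, QuotientGroup.mk' M x = 1 ↔ x ∈ M := fun x => QuotientGroup.eq_one_iff x
  have hmk' : ∀ x : H, QuotientGroup.mk' M' x = 1 ↔ x ∈ M' := fun x => QuotientGroup.eq_one_iff x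
  set ψ : H →* H ⧸ M' := e.toMonoidHom.comp (QuotientGroup.mk' M) with hψ
  have hψs : Function.Surjective ψ := e.surjective.comp (QuotientGroup.mk'_surjective M)
  have hψe : ∀ x : H, ψ x = e (QuotientGroup.mk' M x) := fun x => rfl
  have hψ1 : ∀ x : H, ψ x = 1 ↔ x ∈ M := by
    intro x
    rw [hψe, ← hmk]
    exact map_eq_one_iff e e.injective
  have hmap : (A'.map (QuotientGroup.mk' M')).Normal :=
    Subgroup.Normal.map hA'.normalA _ (QuotientGroup.mk'_surjective M')
  refine ⟨(A'.map (QuotientGroup.mk' M')).comap ψ, h1, Subgroup.Normal.comap hmap _, ?_, ?_, ?_, ?_⟩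
  · rw [hidx]
    exact hA'.ne
  · intro x hx
    rw [Subgroup.mem_comap, (hψ1 x).mpr hx]
    exact Subgroup.one_mem _
  · obtain ⟨x', hx', y', hy', hxy⟩ := hA'.nonab
    obtain ⟨x, hx⟩ := hψs (QuotientGroup.mk' M' x')
    obtain ⟨y, hy⟩ := hψs (QuotientGroup.mk' M' y')
    refine ⟨x, ?_, y, ?_, ?_⟩
    · rw [Subgroup.mem_comap, hx]
      exact Subgroup.mem_map_of_mem _ hx'
    · rw [Subgroup.mem_comap, hy]
      exact Subgroup.mem_map_of_mem _ hy'
    · rw [← hψ1]
      intro h3
      apply hxy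
      rw [← hmk']
      rw [map_mul, map_mul, map_mul, map_inv, map_inv, hx, hy] at h3
      rw [map_mul, map_mul, map_mul, map_inv, map_inv]
      exact h3
  · intro B hB hMB hne
    have hB'n : ((B.map ψ).comap (QuotientGroup.mk' M')).Normal :=
      Subgroup.Normal.comap (Subgroup.Normal.map hB _ hψs) _
    have hB'le : M' ≤ (B.map ψ).comap (QuotientGroup.mk' M') := by
      intro x hx
      rw [Subgroup.mem_comap, (hmk' x).mpr hx]
      exact Subgroup.one_mem _
    have hB'ne : (B.map ψ).comap (QuotientGroup.mk' M') ≠ M' := by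
      intro h3
      apply hne
      apply le_antisymm _ hMB
      intro b hb
      obtain ⟨c, hc⟩ := QuotientGroup.mk'_surjective M' (ψ b)
      have h4 : c ∈ (B.map ψ).comap (QuotientGroup.mk' M') := by
        rw [Subgroup.mem_comap, hc]
        exact Subgroup.mem_map_of_mem _ hb
      rw [h3] at h4
      rw [(hmk' c).mpr h4] at hc
      exact (hψ1 b).mp hc.symm
    have hA := hA'.min _ hB'n hB'le hB'ne
    intro a ha
    rw [Subgroup.mem_comap] at ha
    obtain ⟨a', ha', haa⟩ := ha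
    have h5 := hA ha'
    rw [Subgroup.mem_comap, haa] at h5
    obtain ⟨b, hb, hba⟩ := h5
    have h6 : ψ (b⁻¹ * a) = 1 := by
      rw [map_mul, map_inv, hba, inv_mul_cancel]
    have h7 := hMB ((hψ1 _).mp h6)
    have h8 : a = b * (b⁻¹ * a) := by group
    rw [h8]
    exact B.mul_mem hb h7

/-- PROOF. `QuotientGroup.congr`. -/
theorem sameQ_map (φ : MulAut H) (M : Subgroup H) (h : M.Normal) :
    SameQ (M.map φ.toMonoidHom) M := by
  have h1 : (M.map φ.toMonoidHom).Normal := Subgroup.Normal.map h _ φ.surjective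
  exact ⟨h1, h, ⟨(QuotientGroup.congr M (M.map φ.toMonoidHom) φ rfl).symm⟩⟩

/-- PROOF. If `SameQ M M₀` by `e`, then `M` is the kernel of the homomorphism `e ∘ mk' M : H →* H ⧸ M₀`. A homomorphism is determined by its values on `T`, so there are at most `(Nat.card (H ⧸ M₀)) ^ T.card` homomorphisms `H →* H ⧸ M₀`. -/
theorem sameQ_ncard (T : Finset H) (hT : Subgroup.closure (T : Set H) = ⊤) (M₀ : Subgroup H)
    (h0 : M₀.index ≠ 0) :
    {M : Subgroup H | SameQ M M₀}.Finite ∧
      {M : Subgroup H | SameQ M M₀}.ncard ≤ M₀.index ^ T.card := by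
  classical
  by_cases hn : M₀.Normal
  · have hcQ : Nat.card (H ⧸ M₀) = M₀.index := rfl
    have hfin : Finite (H ⧸ M₀) := Nat.finite_of_card_ne_zero (by rw [hcQ]; exact h0)
    set r : (H →* H ⧸ M₀) → (T → H ⧸ M₀) := fun f t => f t with hr
    have hinj : Function.Injective r := by
      intro f g hfg
      apply MonoidHom.eq_of_eqOn_dense hT
      intro t ht
      exact congrFun hfg ⟨t, Finset.mem_coe.mp ht⟩
    have hfh : Finite (H →* H ⧸ M₀) := Finite.of_injective r hinj
    have hle := Nat.card_le_card_of_injective r hinj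
    rw [Nat.card_fun, hcQ] at hle
    have h7 : Nat.card T = T.card := by
      rw [Nat.card_eq_fintype_card, Fintype.card_coe]
    rw [h7] at hle
    have hsub : {M : Subgroup H | SameQ M M₀} ⊆
        (fun f : H →* H ⧸ M₀ => f.ker) '' Set.univ := by
      intro M hM
      obtain ⟨h1, h2, ⟨e⟩⟩ := hM
      refine ⟨e.toMonoidHom.comp (QuotientGroup.mk' M), Set.mem_univ _, ?_⟩
      ext x
      rw [MonoidHom.mem_ker]
      have h3 : (e.toMonoidHom.comp (QuotientGroup.mk' M)) x = e (QuotientGroup.mk' M x) := rfl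
      rw [h3, map_eq_one_iff e e.injective]
      exact QuotientGroup.eq_one_iff x
    have hf : ((fun f : H →* H ⧸ M₀ => f.ker) '' Set.univ).Finite :=
      Set.Finite.image _ Set.finite_univ
    refine ⟨hf.subset hsub, ?_⟩
    calc {M : Subgroup H | SameQ M M₀}.ncard
        ≤ ((fun f : H →* H ⧸ M₀ => f.ker) '' Set.univ).ncard := Set.ncard_le_ncard hsub hf
      _ ≤ (Set.univ : Set (H →* H ⧸ M₀)).ncard := Set.ncard_image_le Set.finite_univ
      _ = Nat.card (H →* H ⧸ M₀) := Set.ncard_univ _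
      _ ≤ M₀.index ^ T.card := hle
  · have hemp : {M : Subgroup H | SameQ M M₀} = ∅ := by
      ext M
      simp only [Set.mem_ofPred_eq, Set.mem_empty_iff_false, iff_false]
      rintro ⟨_, h2, _⟩
      exact hn h2
    rw [hemp]
    exact ⟨Set.finite_empty, by simp⟩

end ALP
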