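import Pool.Agent.ALG.A2
import Pool.Agent.ALP.K8

/-!
# [ALP-K10] automorphic growth from antichains of finite quotients
-/

set_option autoImplicit false

namespace ALP

open AG ALG

theorem k10_aux {H : Type*} [Group H] (T : Finset H) (hT : Subgroup.closure (T : Set H) = ⊤)
    (𝓕 : Finset (Subgroup H)) (hmono : ∀ M ∈ 𝓕, IsMono M)
    (hanti : ∀ M ∈ 𝓕, ∀ M' ∈ 𝓕, M' ≤ M → M' = M) (Q m : ℕ) (hQ : ∀ M ∈ 𝓕, M.index ≤ Q)
    (hm : 𝓕.card ≤ m) {M : Subgroup H} (hM : M ∈ 𝓕) :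
    ∃ g ∈ ball T (4 * m ^ 2 * Q ^ 3), (∀ M' ∈ 𝓕, M' ≠ M → g ∈ M') ∧ g ∉ M := by
  classical
  obtain ⟨A, hA⟩ := hmono M hM
  obtain ⟨x, hx, y, hy, hxy⟩ := hA.nonab
  have hm1 : 1 ≤ m := le_trans (Finset.card_pos.2 ⟨M, hM⟩) hm
  have ha : x * y * x⁻¹ * y⁻¹ ∈ A := A.mul_mem (A.mul_mem (A.mul_mem hx hy) (A.inv_mem hx))
    (A.inv_mem hy)
  obtain ⟨g, hg, hg1, hg2⟩ := kill T hT hA Q m (hQ M hM) (𝓕.erase M)
    (fun M' hM' => by
      obtain ⟨A', hA'⟩ := hmono M' (Finset.mem_of_mem_erase hM')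
      exact hA'.normal)
    (fun M' hM' => by
      obtain ⟨A', hA'⟩ := hmono M' (Finset.mem_of_mem_erase hM')
      exact hA'.ne)
    (fun M' hM' => hQ M' (Finset.mem_of_mem_erase hM'))
    (fun M' hM' hle => (Finset.mem_erase.1 hM').1
      (hanti M hM M' (Finset.mem_of_mem_erase hM') hle))
    ((Finset.card_le_card (Finset.erase_subset _ _)).trans hm) hm1 _ ha
  refine ⟨g, hg, fun M' hM' hne => hg1 M' (Finset.mem_erase.2 ⟨hne, hM'⟩), fun hgM => hxy ?_⟩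
  have h1 := (M.mul_mem_cancel_right hgM).1 hg2
  exact M.inv_mem_iff.1 h1

/-- PROOF. If `m = 0` then `𝓕 = ∅`, `B = ∅`; take `x = 1`. Let `1 ≤ m`. For `M ∈ B` let `Mono M A`, `a ∈ A`, `a ∉ M` (`nonab`). `kill` with `S' = 𝓕.erase M` (`¬ M' ≤ M` by `hanti`) gives `y_M` in all `M' ∈ 𝓕`, `M' ≠ M`, `y_M ∉ M`. Let `x` be the product of the
`y_M`, `M ∈ B` (in some order, for example induction over `B`). For `M ∈ B` all factors except `y_M` are in `M`, so `x ∉ M`; for `M ∈ 𝓕`, `M ∉ B` all factors are in `M`. Length at most `m * (4 m² Q³)`. -/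
theorem cost {H : Type*} [Group H] (T : Finset H) (hT : Subgroup.closure (T : Set H) = ⊤)
    (𝓕 : Finset (Subgroup H)) (hmono : ∀ M ∈ 𝓕, IsMono M)
    (hanti : ∀ M ∈ 𝓕, ∀ M' ∈ 𝓕, M' ≤ M → M' = M) (Q m : ℕ) (hQ : ∀ M ∈ 𝓕, M.index ≤ Q)
    (hm : 𝓕.card ≤ m) (B : Finset (Subgroup H)) (hB : B ⊆ 𝓕) :
    ∃ x ∈ ball T (4 * m ^ 3 * Q ^ 3), ∀ M ∈ 𝓕, x ∉ M ↔ M ∈ B := by
  classical
  have key : ∀ B : Finset (Subgroup H), B ⊆ 𝓕 →
      ∃ x ∈ ball T (B.card * (4 * m ^ 2 * Q ^ 3)), ∀ M ∈ 𝓕, x ∉ M ↔ M ∈ B := by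
    intro B
    induction B using Finset.induction_on with
    | empty =>
      intro _
      refine ⟨1, one_mem_ball _ _, fun M _ => ?_⟩
      constructor
      · intro h
        exact absurd M.one_mem h
      · intro h
        exact absurd h (Finset.notMem_empty _)
    | insert M B hMB ih =>
      intro hsub
      obtain ⟨x, hx, hx1⟩ := ih fun M' hM' => hsub (Finset.mem_insert_of_mem hM')
      have hM : M ∈ 𝓕 := hsub (Finset.mem_insert_self _ _)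
      obtain ⟨g, hg, hg1, hg2⟩ := k10_aux T hT 𝓕 hmono hanti Q m hQ hm hM
      refine ⟨x * g, ?_, fun M' hM' => ?_⟩
      · rw [Finset.card_insert_of_notMem hMB, Nat.succ_mul]
        exact mul_mem_ball hx hg
      · by_cases hne : M' = M
        · subst hne
          have h1 : x ∈ M' := by
            by_contra h2
            exact hMB ((hx1 M' hM').1 h2)
          rw [M'.mul_mem_cancel_left h1]
          exact ⟨fun _ => Finset.mem_insert_self _ _, fun _ => hg2⟩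
        · rw [M'.mul_mem_cancel_right (hg1 M' hM' hne), hx1 M' hM', Finset.mem_insert]
          exact ⟨Or.inr, fun h => h.resolve_left hne⟩
  obtain ⟨x, hx, hx1⟩ := key B hB
  refine ⟨x, ball_mono T ?_ hx, hx1⟩
  have h1 : B.card ≤ m := (Finset.card_le_card hB).trans hm
  calc B.card * (4 * m ^ 2 * Q ^ 3) ≤ m * (4 * m ^ 2 * Q ^ 3) := Nat.mul_le_mul_right _ h1
    _ = 4 * m ^ 3 * Q ^ 3 := by ring

end ALP
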