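import Pool.Agent.ALP.K10

/-!
# [ALP-K10b] automorphic growth from antichains of finite quotients (counting)
-/

set_option autoImplicit false

namespace ALP

open AG ALG

/-- PROOF. For `i ∈ I` let `𝓕_i = 𝓕.filter (cls = i)`. For `s : ∀ i : I, Fin (𝓕_i.card + 1)` choose `B_i ⊆ 𝓕_i` with `s i` elements (`Finset.exists_subset_card_eq`), `B_s = ⋃ B_i` and `x_s` from `cost` for `B_s`. If `φ x_s = x_{s'}` for `φ : MulAut H`: for `M ∈ 𝓕`,
`x_s ∉ M ↔ x_{s'} ∉ M.map φ`. So `M ↦ M.map φ` maps `B_s ∩ 𝓕_i` injectively into `B_{s'} ∩ 𝓕_i` (`hinv`), and with `φ⁻¹` the other way round, so `s i = s' i` (`B_s ∩ 𝓕_i = B_i` because the `𝓕_i` are disjoint). So by `le_autGrowth`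
`Nat.card (∀ i : I, Fin (𝓕_i.card + 1)) = ∏ i ∈ I, (𝓕_i.card + 1) ≤ autGrowth T _`. -/
theorem inv_growth {H : Type*} [Group H] (T : Finset H) (hT : Subgroup.closure (T : Set H) = ⊤)
    (𝓕 : Finset (Subgroup H)) (hmono : ∀ M ∈ 𝓕, IsMono M)
    (hanti : ∀ M ∈ 𝓕, ∀ M' ∈ 𝓕, M' ≤ M → M' = M) (Q m : ℕ) (hQ : ∀ M ∈ 𝓕, M.index ≤ Q)
    (hm : 𝓕.card ≤ m) {ι : Type*} [DecidableEq ι] (I : Finset ι) (cls : Subgroup H → ι)
    (hinv : ∀ φ : MulAut H, ∀ M ∈ 𝓕, M.map φ.toMonoidHom ∈ 𝓕 ∧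
      cls (M.map φ.toMonoidHom) = cls M) :
    ∏ i ∈ I, ((𝓕.filter fun M => cls M = i).card + 1) ≤ autGrowth T (4 * m ^ 3 * Q ^ 3) := by
  classical
  have hex : ∀ (s : ∀ i : I, Fin ((𝓕.filter fun M => cls M = (i : ι)).card + 1)) (i : I),
      ∃ t ⊆ 𝓕.filter (fun M => cls M = (i : ι)), t.card = (s i : ℕ) := fun s i =>
    Finset.exists_subset_card_eq (Nat.lt_succ_iff.1 (s i).2)
  choose Bs hBs hBc using hex
  have hcost : ∀ s : ∀ i : I, Fin ((𝓕.filter fun M => cls M = (i : ι)).card + 1),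
      ∃ x ∈ ball T (4 * m ^ 3 * Q ^ 3), ∀ M ∈ 𝓕, x ∉ M ↔
        M ∈ (Finset.univ : Finset I).biUnion (Bs s) := fun s =>
    cost T hT 𝓕 hmono hanti Q m hQ hm _ (by
      intro M hM
      obtain ⟨i, _, hi⟩ := Finset.mem_biUnion.1 hM
      exact (Finset.mem_filter.1 (hBs s i hi)).1)
  choose x hx hx1 using hcost
  have hle : ∀ (s s' : ∀ i : I, Fin ((𝓕.filter fun M => cls M = (i : ι)).card + 1))
      (φ : MulAut H), φ (x s) = x s' → ∀ i, (s i : ℕ) ≤ (s' i : ℕ) := by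
    intro s s' φ hφ i
    rw [← hBc s i, ← hBc s' i]
    refine Finset.card_le_card_of_injOn (fun M => M.map φ.toMonoidHom) ?_ ?_
    · intro M hM
      have hM' : M ∈ Bs s i := Finset.mem_coe.1 hM
      have h1 := Finset.mem_filter.1 (hBs s i hM')
      obtain ⟨h2, h3⟩ := hinv φ M h1.1
      have h4 : x s ∉ M := (hx1 s M h1.1).2 (Finset.mem_biUnion.2 ⟨i, Finset.mem_univ _, hM'⟩)
      have h5 : x s' ∉ M.map φ.toMonoidHom := by
        rintro ⟨y, hy, hyx⟩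
        rw [← hφ] at hyx
        have h6 : y = x s := φ.injective hyx
        exact h4 (h6 ▸ hy)
      obtain ⟨i', _, hi'⟩ := Finset.mem_biUnion.1 ((hx1 s' _ h2).1 h5)
      have h7 := (Finset.mem_filter.1 (hBs s' i' hi')).2
      have h8 : i' = i := Subtype.ext (by rw [← h7, h3, h1.2])
      rw [h8] at hi'
      exact Finset.mem_coe.2 hi'
    · intro M _ M' _ hMM
      exact Subgroup.map_injective φ.injective hMM
  have hmain := le_autGrowth T (4 * m ^ 3 * Q ^ 3) x hx (fun s s' h => by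
    obtain ⟨φ, hφ⟩ := h
    funext i
    apply Fin.ext
    refine le_antisymm (hle s s' φ hφ i) (hle s' s φ⁻¹ ?_ i)
    rw [← hφ, MulAut.inv_apply_self])
  refine le_trans (le_of_eq ?_) hmain
  rw [Nat.card_eq_fintype_card, Fintype.card_pi]
  simp only [Fintype.card_fin]
  rw [Finset.prod_coe_sort I (fun i => (𝓕.filter fun M => cls M = i).card + 1)]

end ALP
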