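import Pool.Agent.ALP.Defs

/-!
# [ALP-K11] the number of cosets in balls
-/

set_option autoImplicit false

namespace ALP

open AG ALG

variable {H : Type*} [Group H]

theorem gam_mono (T : Finset H) (D : Subgroup H) {m n : ℕ} (h : m ≤ n) :
    gam T D m ≤ gam T D n :=
  Set.ncard_le_ncard (Set.image_mono (ball_mono T h)) ((ball_finite T n).image _)

/-- PROOF. Let `Y n` be the image of `ball T n` in `H ⧸ D` (left cosets). `Y n ⊆ Y (n+1)`, `Y 0 ≠ ∅`. If `Y n = Y (n+1)` then `Y n` is closed under the left multiplication by `t^{±1}`, `t ∈ T`, so under all of `H = closure T`, so `Y n = H ⧸ D` (transitive action), which is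
infinite (`D.index = 0`), but `Y n` is finite. So `(Y n).ncard < (Y (n+1)).ncard`. -/
theorem gam_lower (T : Finset H) (hT : Subgroup.closure (T : Set H) = ⊤) (D : Subgroup H)
    (h : D.index = 0) (n : ℕ) : n + 1 ≤ gam T D n := by
  induction n with
  | zero =>
    have h1 : ((fun h : H => (h : H ⧸ D)) '' ball T 0).Nonempty :=
      ⟨_, 1, one_mem_ball T 0, rfl⟩
    have h2 : 0 < gam T D 0 := (Set.ncard_pos ((ball_finite T 0).image _)).2 h1
    omega
  | succ n ih =>
    have hsub : (fun h : H => (h : H ⧸ D)) '' ball T n ⊆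
        (fun h : H => (h : H ⧸ D)) '' ball T (n + 1) :=
      Set.image_mono (ball_mono T (Nat.le_succ n))
    have hlt : gam T D n < gam T D (n + 1) := by
      refine Set.ncard_lt_ncard ⟨hsub, fun hcon => ?_⟩ ((ball_finite T (n + 1)).image _)
      have hstep : ∀ l : List H, (∀ x ∈ l, x ∈ T ∨ x⁻¹ ∈ T) →
          ((l.prod : H) : H ⧸ D) ∈ (fun h : H => (h : H ⧸ D)) '' ball T n := by
        intro l
        induction l with
        | nil =>
          intro _
          exact ⟨1, one_mem_ball T n, by simp⟩
        | cons a l ihl =>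
          intro hl
          obtain ⟨z, hz, hzl⟩ := ihl fun x hx => hl x (List.mem_cons_of_mem _ hx)
          have ha : a ∈ ball T 1 := by
            rcases hl a List.mem_cons_self with ha | ha
            · exact mem_ball_one ha
            · simpa using inv_mem_ball (mem_ball_one ha)
          apply hcon
          refine ⟨a * z, by rw [Nat.add_comm]; exact mul_mem_ball ha hz, ?_⟩
          have hzl' : (z : H ⧸ D) = ((l.prod : H) : H ⧸ D) := hzl
          show ((a * z : H) : H ⧸ D) = (((a :: l).prod : H) : H ⧸ D)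
          rw [List.prod_cons, QuotientGroup.eq]
          rw [QuotientGroup.eq] at hzl'
          simpa [mul_assoc] using hzl'
      have huniv : (fun h : H => (h : H ⧸ D)) '' ball T n = Set.univ := by
        rw [Set.eq_univ_iff_forall]
        intro y
        induction y using QuotientGroup.induction_on with
        | H g =>
          obtain ⟨m, l, -, hS, hp⟩ := exists_mem_ball (S := T) (g := g) (by rw [hT]; trivial)
          rw [← hp]
          exact hstep l hS
      have hfin : Finite (H ⧸ D) := by
        rw [← Set.finite_univ_iff, ← huniv]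
        exact (ball_finite T n).image _
      have := (Subgroup.finiteIndex_of_finite_quotient (H := D)).index_ne_zero
      exact this h
    omega

/-- PROOF. Map the coset `x D`, `x ∈ ball T n` (chosen representative in the ball), to `x D'`. If `x D' = y D'` then `x⁻¹ y ∈ D'` is in `ball T (2 n)`, so in `D`. `H ⧸ D'` is finite with `D'.index` elements. -/
theorem gam_le_index (T : Finset H) (D D' : Subgroup H) (h0 : D'.index ≠ 0) (n : ℕ)
    (h : ∀ x ∈ ball T (2 * n), x ∈ D' → x ∈ D) : gam T D n ≤ D'.index := by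
  classical
  have hfi : D'.FiniteIndex := ⟨h0⟩
  have hfin : Finite (H ⧸ D') := Subgroup.finite_quotient_of_finiteIndex
  choose! r hr using fun (y : H ⧸ D) (hy : y ∈ (fun h : H => (h : H ⧸ D)) '' ball T n) => hy
  have h1 : gam T D n ≤ (Set.univ : Set (H ⧸ D')).ncard := by
    refine Set.ncard_le_ncard_of_injOn (fun y => ((r y : H) : H ⧸ D')) (fun _ _ => Set.mem_univ _)
      ?_ Set.finite_univ
    intro y₁ h₁ y₂ h₂ h12
    have e1 := hr y₁ h₁
    have e2 := hr y₂ h₂
    have h12' : ((r y₁ : H) : H ⧸ D') = ((r y₂ : H) : H ⧸ D') := h12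
    rw [QuotientGroup.eq] at h12'
    have hb : (r y₁)⁻¹ * r y₂ ∈ ball T (2 * n) := by
      rw [two_mul]
      exact mul_mem_ball (inv_mem_ball e1.1) e2.1
    have hD := h _ hb h12'
    rw [← QuotientGroup.eq] at hD
    have e1' : ((r y₁ : H) : H ⧸ D) = y₁ := e1.2
    have e2' : ((r y₂ : H) : H ⧸ D) = y₂ := e2.2
    rw [← e1', ← e2']
    exact hD
  rw [Set.ncard_univ] at h1
  exact h1

/-- PROOF. Induction over `𝓕` (`Subgroup.index_inf_le`), also `Subgroup.index_inf_ne_zero`. -/
theorem index_iInf_le (𝓕 : Finset (Subgroup H)) (h0 : ∀ M ∈ 𝓕, M.index ≠ 0) :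
    (⨅ M ∈ 𝓕, M).index ≠ 0 ∧ (⨅ M ∈ 𝓕, M).index ≤ ∏ M ∈ 𝓕, M.index := by
  classical
  induction 𝓕 using Finset.induction_on with
  | empty => simp
  | insert a s ha ih =>
    obtain ⟨h1, h2⟩ := ih fun M hM => h0 M (Finset.mem_insert_of_mem hM)
    rw [Finset.iInf_insert, Finset.prod_insert ha]
    refine ⟨Subgroup.index_inf_ne_zero (h0 a (Finset.mem_insert_self a s)) h1, ?_⟩
    exact Subgroup.index_inf_le.trans (Nat.mul_le_mul_left _ h2)

end ALP
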