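import Pool.Agent.ALG.D2
import Pool.Agent.ALP.K11

/-!
# [ALP-K12a] upper bound for the number of cosets
-/

set_option autoImplicit false

namespace ALP

open AG ALG

/-- PROOF. `H` is finitely generated, so `E = (lowCore c H).index ≠ 0` (`lowCore_finiteIndex`). Let `D' = lowCore c H ⊓ ⨅ M ∈ filter, M`; its index is not `0` and at most `E * ∏` (`index_iInf_le`, `Subgroup.index_inf_le`). If `x ∈ ball T (2 n)` is in `D'` then it is in all
`M ∈ K j` (`M.index ≠ 0`; if `M.index ≤ c` then `lowCore c H ≤ M`), so in `D` by `sep` (with `2 n`). Apply `gam_le_index`. -/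
theorem Levels.gam_le {H : Type*} [Group H] {T : Finset H} {D : Subgroup H} {p N C : ℕ}
    {K : ℕ → Finset (Subgroup H)} (h : Levels T D p N C K) (c : ℕ) :
    ∃ E : ℕ, 1 ≤ E ∧ ∀ j n, 1 ≤ j → C * (2 * n + 1) < p ^ j →
      gam T D n ≤ E * ∏ M ∈ (K j).filter (fun M => c < M.index), M.index := by
  classical
  have hfg : Group.FG H := ⟨⟨T, h.gen⟩⟩
  have hE := (lowCore_finiteIndex H c).index_ne_zero
  refine ⟨(lowCore c H).index, Nat.one_le_iff_ne_zero.2 hE, ?_⟩
  intro j n hj hn
  obtain ⟨h1, h2⟩ := index_iInf_le ((K j).filter (fun M => c < M.index))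
    (fun M hM => by
      obtain ⟨A, hA⟩ := h.mono j M (Finset.mem_filter.1 hM).1
      exact hA.ne)
  have h3 : (lowCore c H ⊓ ⨅ M ∈ (K j).filter (fun M => c < M.index), M).index ≠ 0 :=
    Subgroup.index_inf_ne_zero hE h1
  refine (gam_le_index T D _ h3 n ?_).trans (Subgroup.index_inf_le.trans (Nat.mul_le_mul_left _ h2))
  intro x hx hxD
  refine h.sep j (2 * n) hj hn x hx fun M hM => ?_
  by_cases hc : c < M.index
  · have h4 : (⨅ M ∈ (K j).filter (fun M => c < M.index), M) ≤ M :=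
      iInf₂_le M (Finset.mem_filter.2 ⟨hM, hc⟩)
    exact h4 hxD.2
  · have h4 : lowCore c H ≤ M := by
      unfold lowCore
      obtain ⟨A, hA⟩ := h.mono j M hM
      exact iInf₂_le M ⟨hA.ne, not_lt.1 hc⟩
    exact h4 hxD.1

end ALP
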