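import Pool.Agent.ALP.Defs

/-!
# [ALP-K6] common divisors of orders of general linear groups
-/

set_option autoImplicit false

namespace ALP

open AG ALG

/-- PROOF. `x = p ^ e * y`... `(p^j)^N - (p^j)^i = p ^ (j i) * (p ^ (j (N - i)) - 1)` for `i < N`. -/
theorem glc_eq (p N j : ℕ) : ∃ e : ℕ, glc p N j = p ^ e * ∏ k ∈ Finset.range N, (p ^ (j * (k + 1)) - 1) := by
  refine ⟨∑ i ∈ Finset.range N, j * i, ?_⟩
  unfold glc
  rw [Fin.prod_univ_eq_prod_range (fun i => (p ^ j) ^ N - (p ^ j) ^ i) N,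
    ← Finset.prod_pow_eq_pow_sum,
    ← Finset.prod_range_reflect (fun k => p ^ (j * (k + 1)) - 1) N, ← Finset.prod_mul_distrib]
  refine Finset.prod_congr rfl fun i hi => ?_
  have hi' := Finset.mem_range.1 hi
  have e : N - 1 - i + 1 = N - i := by omega
  rw [e, Nat.mul_sub, mul_one, ← pow_add, ← pow_mul, ← pow_mul, ← Nat.mul_add,
    Nat.add_sub_cancel' hi'.le]

/-- PROOF. Induction over `s`, `t`: `Nat.gcd (x * y) z ∣ gcd x z * gcd y z`. -/
theorem dvd_prod_gcd {ι κ : Type*} (s : Finset ι) (t : Finset κ) (f : ι → ℕ) (g : κ → ℕ) (b : ℕ)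
    (h1 : b ∣ ∏ i ∈ s, f i) (h2 : b ∣ ∏ k ∈ t, g k) :
    b ∣ ∏ i ∈ s, ∏ k ∈ t, Nat.gcd (f i) (g k) := by
  classical
  have key : ∀ {ι : Type _} (s : Finset ι) (f : ι → ℕ) (z : ℕ),
      Nat.gcd z (∏ i ∈ s, f i) ∣ ∏ i ∈ s, Nat.gcd z (f i) := by
    intro ι s f z
    induction s using Finset.induction_on with
    | empty => simp
    | insert a s ha ih =>
      rw [Finset.prod_insert ha, Finset.prod_insert ha]
      exact (Nat.gcd_mul_right_dvd_mul_gcd z (f a) _).trans (mul_dvd_mul_left _ ih)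
  have key2 : ∀ {κ : Type _} (s : Finset κ) (f : κ → ℕ) (z : ℕ),
      Nat.gcd z (∏ i ∈ s, f i) ∣ ∏ i ∈ s, Nat.gcd z (f i) := by
    intro κ s f z
    induction s using Finset.induction_on with
    | empty => simp
    | insert a s ha ih =>
      rw [Finset.prod_insert ha, Finset.prod_insert ha]
      exact (Nat.gcd_mul_right_dvd_mul_gcd z (f a) _).trans (mul_dvd_mul_left _ ih)
  have h3 : b ∣ Nat.gcd (∏ k ∈ t, g k) (∏ i ∈ s, f i) := Nat.dvd_gcd h2 h1
  refine (h3.trans (key s f _)).trans ?_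
  refine Finset.prod_dvd_prod_of_dvd _ _ fun i _ => ?_
  rw [Nat.gcd_comm]
  exact key2 t g (f i)

/-- PROOF. `m ≠ 0` (it divides `glc p N i ≠ 0`; use `p ≥ 2`, `i ≥ 1`). `m = p ^ β * b`, `¬ p ∣ b` (`Nat.exists_eq_pow_mul_and_not_dvd`). By `glc_eq` and coprimality `b` divides `∏_{k < N} (p ^ (i (k+1)) - 1)` and `∏_{l < N} (p ^ (j (l+1)) - 1)`, so
by `dvd_prod_gcd` it divides the product over `k, l < N` of `gcd (p ^ (i (k+1)) - 1) (p ^ (j (l+1)) - 1) = p ^ (gcd (i (k+1)) (j (l+1))) - 1` (`Nat.pow_sub_one_gcd_pow_sub_one`), and `gcd (i (k+1)) (j (l+1)) = gcd (k+1) (l+1) ≤ N` because the primes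
`i ≠ j` are larger than `N`. Each factor is positive and at most `p ^ N`; there are `N * N` factors. -/
theorem common_divisor (p N i j m : ℕ) (hp : p.Prime) (hi : i.Prime) (hj : j.Prime) (hij : i ≠ j)
    (hNi : N < i) (hNj : N < j) (h1 : m ∣ glc p N i) (h2 : m ∣ glc p N j) :
    ∃ β b : ℕ, m = p ^ β * b ∧ b ≤ p ^ (N ^ 3) := by
  have hp2 := hp.two_le
  have hi1 := hi.one_lt
  have hj1 := hj.one_lt
  have hfac : ∀ a : ℕ, 1 ≤ a → 1 ≤ p ^ a - 1 := by
    intro a ha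
    have : p ^ 1 ≤ p ^ a := Nat.pow_le_pow_right hp.pos ha
    rw [pow_one] at this
    omega
  obtain ⟨e1, he1⟩ := glc_eq p N i
  obtain ⟨e2, he2⟩ := glc_eq p N j
  have hm0 : m ≠ 0 := by
    rintro rfl
    have h3 : glc p N i = 0 := Nat.eq_zero_of_zero_dvd h1
    rw [he1] at h3
    rcases Nat.mul_eq_zero.1 h3 with h4 | h4
    · exact absurd h4 (pow_ne_zero _ hp.ne_zero)
    · obtain ⟨k, -, hk⟩ := Finset.prod_eq_zero_iff.1 h4
      have h5 : 1 ≤ i * (k + 1) := Nat.mul_pos hi.pos (Nat.succ_pos k)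
      have := hfac _ h5
      omega
  obtain ⟨β, b, hb, hmb⟩ := Nat.exists_eq_pow_mul_and_not_dvd hm0 p hp.ne_one
  refine ⟨β, b, hmb, ?_⟩
  have hcop : Nat.Coprime b p := ((Nat.Prime.coprime_iff_not_dvd hp).2 hb).symm
  have hbm : b ∣ m := ⟨p ^ β, by rw [hmb, mul_comm]⟩
  have h3 : b ∣ ∏ k ∈ Finset.range N, (p ^ (i * (k + 1)) - 1) := by
    have h4 := hbm.trans h1
    rw [he1] at h4
    exact (Nat.Coprime.pow_right e1 hcop).dvd_of_dvd_mul_left h4
  have h4 : b ∣ ∏ k ∈ Finset.range N, (p ^ (j * (k + 1)) - 1) := by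
    have h4 := hbm.trans h2
    rw [he2] at h4
    exact (Nat.Coprime.pow_right e2 hcop).dvd_of_dvd_mul_left h4
  have h5 := dvd_prod_gcd _ _ _ _ b h3 h4
  have hpow : ∀ k ∈ Finset.range N, ∀ l ∈ Finset.range N,
      Nat.gcd (p ^ (i * (k + 1)) - 1) (p ^ (j * (l + 1)) - 1) ≤ p ^ N ∧
      0 < Nat.gcd (p ^ (i * (k + 1)) - 1) (p ^ (j * (l + 1)) - 1) := by
    intro k hk l hl
    have hk' := Finset.mem_range.1 hk
    have hl' := Finset.mem_range.1 hl
    rw [Nat.pow_sub_one_gcd_pow_sub_one]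
    have hc1 : Nat.Coprime i (l + 1) := by
      refine (Nat.Prime.coprime_iff_not_dvd hi).2 fun hd => ?_
      have := Nat.le_of_dvd (Nat.succ_pos l) hd
      omega
    have hc2 : Nat.Coprime j (k + 1) := by
      refine (Nat.Prime.coprime_iff_not_dvd hj).2 fun hd => ?_
      have := Nat.le_of_dvd (Nat.succ_pos k) hd
      omega
    have hc3 : Nat.Coprime i j := (Nat.coprime_primes hi hj).2 hij
    have hc4 : Nat.Coprime i (j * (l + 1)) := Nat.Coprime.mul_right hc3 hc1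
    have e3 : Nat.gcd (i * (k + 1)) (j * (l + 1)) = Nat.gcd (k + 1) (l + 1) := by
      rw [Nat.Coprime.gcd_mul_left_cancel (k + 1) hc4]
      rw [Nat.Coprime.gcd_mul_left_cancel_right (l + 1) hc2]
    rw [e3]
    have h6 : Nat.gcd (k + 1) (l + 1) ≤ N :=
      (Nat.le_of_dvd (Nat.succ_pos k) (Nat.gcd_dvd_left _ _)).trans hk'
    have h7 : 1 ≤ Nat.gcd (k + 1) (l + 1) := Nat.gcd_pos_of_pos_left _ (Nat.succ_pos k)
    refine ⟨(Nat.sub_le _ _).trans (Nat.pow_le_pow_right hp.pos h6), ?_⟩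
    exact hfac _ h7
  have h6 : b ≤ ∏ k ∈ Finset.range N, ∏ l ∈ Finset.range N,
      Nat.gcd (p ^ (i * (k + 1)) - 1) (p ^ (j * (l + 1)) - 1) := by
    refine Nat.le_of_dvd ?_ h5
    exact Finset.prod_pos fun k hk => Finset.prod_pos fun l hl => (hpow k hk l hl).2
  refine h6.trans ?_
  calc ∏ k ∈ Finset.range N, ∏ l ∈ Finset.range N,
      Nat.gcd (p ^ (i * (k + 1)) - 1) (p ^ (j * (l + 1)) - 1)
      ≤ ∏ _k ∈ Finset.range N, ∏ _l ∈ Finset.range N, p ^ N :=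
        Finset.prod_le_prod' fun k hk => Finset.prod_le_prod' fun l hl => (hpow k hk l hl).1
    _ = p ^ (N ^ 3) := by
        rw [Finset.prod_const, Finset.prod_const, Finset.card_range, ← pow_mul, ← pow_mul]
        congr 1
        ring

end ALP
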