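import Pool.Agent.ALP.K5
import Pool.Agent.ALP.K6

/-!
# [ALP-K7] quotients at different levels
-/

set_option autoImplicit false

namespace ALP

open AG ALG

/-- PROOF. `common_divisor` and `Mono.index_le_factorial`; the factorial is monotone. -/
theorem IsMono.index_le_of_common {H : Type*} [Group H] {M : Subgroup H} (h : IsMono M)
    (p N i j : ℕ) (hp : p.Prime) (hi : i.Prime) (hj : j.Prime) (hij : i ≠ j) (hNi : N < i)
    (hNj : N < j) (h1 : M.index ∣ glc p N i) (h2 : M.index ∣ glc p N j) :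
    M.index ≤ (p ^ (N ^ 3)).factorial := by
  obtain ⟨A, hA⟩ := h
  obtain ⟨β, b, hb, hle⟩ := common_divisor p N i j M.index hp hi hj hij hNi hNj h1 h2
  exact (hA.index_le_factorial p hp β b hb).trans (Nat.factorial_le hle)

/-- PROOF. Each of the `N` factors is at most `(p ^ j) ^ N`. -/
theorem glc_le (p N j : ℕ) : glc p N j ≤ p ^ (j * N ^ 2) := by
  unfold glc
  calc ∏ i : Fin N, ((p ^ j) ^ N - (p ^ j) ^ (i : ℕ)) ≤ ∏ _i : Fin N, (p ^ j) ^ N :=
        Finset.prod_le_prod (fun _ _ => Nat.zero_le _) fun i _ => Nat.sub_le _ _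
    _ = p ^ (j * N ^ 2) := by
        rw [Finset.prod_const, Finset.card_univ, Fintype.card_fin, ← pow_mul, ← pow_mul]
        congr 1
        ring

/-- PROOF. The factors are positive: `(p ^ j) ^ i < (p ^ j) ^ N` for `i < N`. -/
theorem glc_pos (p N j : ℕ) (hp : p.Prime) (hj : 1 ≤ j) : 0 < glc p N j := by
  unfold glc
  refine Finset.prod_pos fun i _ => Nat.sub_pos_of_lt ?_
  have h1 : 1 < p ^ j := Nat.one_lt_pow (by omega) hp.one_lt
  exact Nat.pow_lt_pow_right h1 i.2

end ALP
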