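import Pool.Agent.ALP.K3b
import Pool.Agent.ALP.K7

/-!
# [ALP-K12b] lower bound for the number of cosets
-/

set_option autoImplicit false

namespace ALP

open AG ALG

private theorem k12b_gam_mono {H : Type*} [Group H] (T : Finset H) (D : Subgroup H) {m n : ℕ}
    (h : m ≤ n) : gam T D m ≤ gam T D n := by
  unfold gam
  exact Set.ncard_le_ncard (Set.image_mono (ball_mono T h)) ((ball_finite T _).image _)

/-- PROOF. `c₀ = (p ^ (N ^ 3))!`. The sets `(K j).filter (c₀ < index)` for the primes `N < j ≤ J` are disjoint (`IsMono.index_le_of_common` with `dvd`), so the double product is the product over their union `𝓕` (`Finset.prod_biUnion`). `𝓕.card ≤ J * p ^ (C J) ≤ m := p ^ ((C + 1) J)`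
(`J ≤ p ^ J`; at most `J` primes `j ≤ J`), all indices are at most `glc p N j ≤ p ^ (j N ^ 2) ≤ Q := p ^ (J N ^ 2)` (`dvd`, `glc_pos`, `glc_le`). `prod_le_gam` gives the bound `gam T D (4 m³ Q³)`, and `4 ≤ p ^ 2`, `4 m³ Q³ ≤ p ^ ((3 C + 3 N² + 5) J)`; `gam` is monotone (the image of
the larger ball is larger and finite, `ball_mono`, `ball_finite`). -/
theorem Levels.prod_le {H : Type*} [Group H] {T : Finset H} {D : Subgroup H} {p N C : ℕ}
    {K : ℕ → Finset (Subgroup H)} (h : Levels T D p N C K) (A : Subgroup H → Subgroup H)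
    (hA : ∀ M, IsMono M → Mono M (A M)) (J : ℕ) (hJ : 1 ≤ J) :
    ∏ j ∈ (Finset.range (J + 1)).filter (fun j => j.Prime ∧ N < j),
      ∏ M ∈ (K j).filter (fun M => (p ^ (N ^ 3)).factorial < M.index), M.relIndex (A M) ≤
      gam T D (p ^ ((3 * C + 3 * N ^ 2 + 5) * J)) := by
  classical
  have hp1 : 1 < p := h.prime.one_lt
  have hp0 : 0 < p := h.prime.pos
  set P : Finset ℕ := (Finset.range (J + 1)).filter (fun j => j.Prime ∧ N < j) with hP
  set F : ℕ → Finset (Subgroup H) := fun j =>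
    (K j).filter (fun M => (p ^ (N ^ 3)).factorial < M.index) with hF
  have hPj : ∀ j ∈ P, 1 ≤ j ∧ j ≤ J ∧ j.Prime ∧ N < j := by
    intro j hj
    rw [hP, Finset.mem_filter, Finset.mem_range] at hj
    exact ⟨hj.2.1.one_lt.le, by omega, hj.2.1, hj.2.2⟩
  have hFm : ∀ j, ∀ M ∈ F j, M ∈ K j ∧ (p ^ (N ^ 3)).factorial < M.index := by
    intro j M hM
    rw [hF] at hM
    exact Finset.mem_filter.1 hM
  have hdisj : (P : Set ℕ).PairwiseDisjoint F := by
    intro i hi j hj hij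
    rw [Function.onFun, Finset.disjoint_left]
    intro M hM1 hM2
    obtain ⟨hi1, -, hi3, hi4⟩ := hPj i hi
    obtain ⟨hj1, -, hj3, hj4⟩ := hPj j hj
    have h1 := hFm i M hM1
    have h2 := hFm j M hM2
    have h3 := (h.mono i M h1.1).index_le_of_common p N i j h.prime hi3 hj3 hij hi4 hj4
      (h.dvd i hi1 M h1.1) (h.dvd j hj1 M h2.1)
    omega
  have h1 : ∏ j ∈ P, ∏ M ∈ F j, M.relIndex (A M) = ∏ M ∈ P.biUnion F, M.relIndex (A M) :=
    (Finset.prod_biUnion hdisj).symm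
  change ∏ j ∈ P, ∏ M ∈ F j, M.relIndex (A M) ≤ _
  rw [h1]
  have hmem : ∀ M ∈ P.biUnion F, ∃ j, 1 ≤ j ∧ j ≤ J ∧ M ∈ K j := by
    intro M hM
    obtain ⟨j, hj, hM⟩ := Finset.mem_biUnion.1 hM
    exact ⟨j, (hPj j hj).1, (hPj j hj).2.1, (hFm j M hM).1⟩
  have hcard : (P.biUnion F).card ≤ p ^ ((C + 1) * J) := by
    have h2 : P.card ≤ J := by
      have h3 : P ⊆ Finset.Icc 1 J := by
        intro j hj
        exact Finset.mem_Icc.2 ⟨(hPj j hj).1, (hPj j hj).2.1⟩
      have h4 := Finset.card_le_card h3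
      rwa [Nat.card_Icc, Nat.add_sub_cancel] at h4
    calc (P.biUnion F).card ≤ ∑ j ∈ P, (F j).card := Finset.card_biUnion_le
      _ ≤ ∑ j ∈ P, p ^ (C * J) := by
          refine Finset.sum_le_sum fun j hj => ?_
          refine (Finset.card_filter_le _ _).trans ((h.card j (hPj j hj).1).trans ?_)
          exact Nat.pow_le_pow_right hp0 (Nat.mul_le_mul_left _ (hPj j hj).2.1)
      _ = P.card * p ^ (C * J) := by rw [Finset.sum_const, smul_eq_mul]
      _ ≤ p ^ J * p ^ (C * J) :=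
          Nat.mul_le_mul_right _ (h2.trans (Nat.lt_pow_self hp1).le)
      _ = p ^ ((C + 1) * J) := by rw [← pow_add]; ring_nf
  have h5 := prod_le_gam T h.gen (P.biUnion F) A
    (fun M hM => by
      obtain ⟨j, -, -, hM'⟩ := hmem M hM
      exact hA M (h.mono j M hM'))
    (p ^ (J * N ^ 2)) (p ^ ((C + 1) * J))
    (fun M hM => by
      obtain ⟨j, hj1, hj2, hM'⟩ := hmem M hM
      refine (Nat.le_of_dvd (glc_pos p N j h.prime hj1) (h.dvd j hj1 M hM')).trans
        ((glc_le p N j).trans ?_)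
      exact Nat.pow_le_pow_right hp0 (Nat.mul_le_mul_right _ hj2))
    hcard (Nat.one_le_pow _ _ hp0) D
    (fun M hM => by
      obtain ⟨j, -, -, hM'⟩ := hmem M hM
      exact h.le j M hM')
  refine h5.trans (k12b_gam_mono T D ?_)
  have h6 : 4 ≤ p ^ (2 * J) := by
    calc 4 = 2 ^ 2 := by norm_num
      _ ≤ p ^ 2 := Nat.pow_le_pow_left hp1 2
      _ ≤ p ^ (2 * J) := Nat.pow_le_pow_right hp0 (by omega)
  calc 4 * (p ^ ((C + 1) * J)) ^ 3 * (p ^ (J * N ^ 2)) ^ 3
      ≤ p ^ (2 * J) * (p ^ ((C + 1) * J)) ^ 3 * (p ^ (J * N ^ 2)) ^ 3 :=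
        Nat.mul_le_mul_right _ (Nat.mul_le_mul_right _ h6)
    _ = p ^ ((3 * C + 3 * N ^ 2 + 5) * J) := by
        rw [← pow_mul, ← pow_mul, ← pow_add, ← pow_add]
        congr 1
        ring

end ALP
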