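import Pool.Agent.ALP.K4
import Pool.Agent.ALP.K12a
import Pool.Agent.ALP.K12b

/-!
# [ALP-K12c] the main inequality
-/

set_option autoImplicit false

namespace ALP

open AG ALG

theorem k12c_lt {p N C j : ℕ} (hp : 1 < p) (hj : N + 3 * C < j) :
    C * (2 * p ^ (j - (N + 3 * C)) + 1) < p ^ j := by
  have hx : 1 ≤ p ^ (j - (N + 3 * C)) := Nat.one_le_pow _ _ (by omega)
  have h1 : 3 * C < p ^ (N + 3 * C) :=
    lt_of_lt_of_le (Nat.lt_pow_self hp) (Nat.pow_le_pow_right (by omega) (by omega))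
  calc C * (2 * p ^ (j - (N + 3 * C)) + 1) ≤ 3 * C * p ^ (j - (N + 3 * C)) := by nlinarith
    _ < p ^ (N + 3 * C) * p ^ (j - (N + 3 * C)) := Nat.mul_lt_mul_of_pos_right h1 (by omega)
    _ = p ^ j := by rw [← pow_add, Nat.add_sub_cancel' hj.le]

theorem k12c_log {p N J x : ℕ} (hx : x ≠ 0) (h : x ≤ p ^ (J * N ^ 2)) :
    Real.log x ≤ ((N ^ 2 * p * J : ℕ) : ℝ) * Real.log 2 := by
  have hx0 : (0 : ℝ) < x := Nat.cast_pos.2 (Nat.pos_of_ne_zero hx)
  have h2 : p ^ (J * N ^ 2) ≤ 2 ^ (N ^ 2 * p * J) := by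
    calc p ^ (J * N ^ 2) ≤ (2 ^ p) ^ (J * N ^ 2) :=
          Nat.pow_le_pow_left Nat.lt_two_pow_self.le _
      _ = 2 ^ (N ^ 2 * p * J) := by
          rw [← pow_mul]
          congr 1
          ring
  have h3 : (x : ℝ) ≤ (2 : ℝ) ^ (N ^ 2 * p * J) := by
    have h4 : (x : ℝ) ≤ ((2 ^ (N ^ 2 * p * J) : ℕ) : ℝ) := Nat.cast_le.2 (h.trans h2)
    rw [Nat.cast_pow] at h4
    exact h4
  calc Real.log x ≤ Real.log ((2 : ℝ) ^ (N ^ 2 * p * J)) := Real.log_le_log hx0 h3
    _ = _ := by rw [Real.log_pow]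

/-- PROOF. `a = N + 3 C`, `b = N² p`, `c = 3 C + 3 N² + 5`, `E = log E₀` with `E₀` from `gam_le` for `c₀ = (p ^ (N ^ 3))!`. Choose `A` with `Mono M (A M)` for all `M` with `IsMono M`. For a prime `j > a`: `C (2 p^(j-a) + 1) ≤ 3 C p^(j-a) < p^a p^(j-a) = p^j` (`3 C < p ^ (3 C) ≤ p ^ a`; if `C = 0` clear), so
`log gam (p^(j-a)) - E ≤ ∑_{M ∈ filter} log M.index`. Each `M.index ≤ p ^ (j N²) ≤ p ^ (J N²)` (`dvd`, `glc_pos`, `glc_le`), so `log M.index ≤ J N² log p ≤ (J N² p) log 2` (`p ≤ 2 ^ p`), and by `Mono.log_index_le` (`J N² p ≤ s²`) it is at most `s * log (M.relIndex (A M))`. Sum over `M` and `j` (the primes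
`j > a` are among the primes `j > N`, and all terms `log (relIndex) ≥ 0` since `relIndex ≥ 2`) and use `prod_le`: `∑ ∑ log relIndex = log ∏ ∏ ≤ log gam (p^(c J))`. -/
theorem Levels.main_ineq {H : Type*} [Group H] {T : Finset H} {D : Subgroup H} {p N C : ℕ}
    {K : ℕ → Finset (Subgroup H)} (h : Levels T D p N C K) :
    ∃ (a b c : ℕ) (E : ℝ), 1 ≤ c ∧ 0 ≤ E ∧ ∀ J s : ℕ, 1 ≤ J → b * J ≤ s ^ 2 →
      ∑ j ∈ (Finset.range (J + 1)).filter (fun j => j.Prime ∧ a < j),
        (Real.log (gam T D (p ^ (j - a))) - E) ≤ s * Real.log (gam T D (p ^ (c * J))) := by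
  classical
  have hp1 : 1 < p := h.prime.one_lt
  have hp0 : 0 < p := h.prime.pos
  obtain ⟨E₀, hE₀, hgam⟩ := h.gam_le (p ^ (N ^ 3)).factorial
  have hex : ∀ M : Subgroup H, ∃ A' : Subgroup H, IsMono M → Mono M A' := by
    intro M
    by_cases hM : IsMono M
    · obtain ⟨A', hA'⟩ := hM
      exact ⟨A', fun _ => hA'⟩
    · exact ⟨⊥, fun h => absurd h hM⟩
  choose A hA using hex
  refine ⟨N + 3 * C, N ^ 2 * p, 3 * C + 3 * N ^ 2 + 5, Real.log E₀, by omega,
    Real.log_natCast_nonneg E₀, fun J s hJ hs => ?_⟩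
  have hrel : ∀ j, ∀ M ∈ (K j).filter (fun M => (p ^ (N ^ 3)).factorial < M.index),
      2 ≤ M.relIndex (A M) := fun j M hM => (hA M (h.mono j M (Finset.mem_filter.1 hM).1)).two_le
  have hterm : ∀ j ∈ (Finset.range (J + 1)).filter (fun j => j.Prime ∧ N + 3 * C < j),
      Real.log (gam T D (p ^ (j - (N + 3 * C)))) - Real.log E₀ ≤
        ∑ M ∈ (K j).filter (fun M => (p ^ (N ^ 3)).factorial < M.index),
          (s : ℝ) * Real.log (M.relIndex (A M)) := by
    intro j hj
    obtain ⟨hjJ, hjp, haj⟩ := Finset.mem_filter.1 hj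
    have hjJ' : j ≤ J := Nat.lt_succ_iff.1 (Finset.mem_range.1 hjJ)
    have hj1 : 1 ≤ j := hjp.one_lt.le
    have h1 := hgam j (p ^ (j - (N + 3 * C))) hj1 (k12c_lt hp1 haj)
    have hidx : ∀ M ∈ (K j).filter (fun M => (p ^ (N ^ 3)).factorial < M.index),
        (M.index : ℝ) ≠ 0 := by
      intro M hM
      have h2 := (Finset.mem_filter.1 hM).2
      have h3 : M.index ≠ 0 := by omega
      exact Nat.cast_ne_zero.2 h3
    have hg1 : 0 < gam T D (p ^ (j - (N + 3 * C))) :=
      lt_of_lt_of_le (Nat.succ_pos _) (gam_lower T h.gen D h.inf _)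
    have h2 : Real.log (gam T D (p ^ (j - (N + 3 * C)))) ≤ Real.log E₀ +
        ∑ M ∈ (K j).filter (fun M => (p ^ (N ^ 3)).factorial < M.index), Real.log M.index := by
      rw [← Real.log_prod hidx, ← Real.log_mul (Nat.cast_ne_zero.2 (by omega))
        (Finset.prod_ne_zero_iff.2 hidx)]
      refine Real.log_le_log (Nat.cast_pos.2 hg1) ?_
      have h3 : ((gam T D (p ^ (j - (N + 3 * C))) : ℕ) : ℝ) ≤ ((E₀ *
        ∏ M ∈ (K j).filter (fun M => (p ^ (N ^ 3)).factorial < M.index), M.index : ℕ) : ℝ) :=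
        Nat.cast_le.2 h1
      push_cast at h3
      exact h3
    have h3 : ∑ M ∈ (K j).filter (fun M => (p ^ (N ^ 3)).factorial < M.index), Real.log M.index ≤
        ∑ M ∈ (K j).filter (fun M => (p ^ (N ^ 3)).factorial < M.index),
          (s : ℝ) * Real.log (M.relIndex (A M)) := by
      refine Finset.sum_le_sum fun M hM => ?_
      have hMK := (Finset.mem_filter.1 hM).1
      have hM0 : M.index ≠ 0 := fun h0 => hidx M hM (by rw [h0]; exact Nat.cast_zero)
      refine (hA M (h.mono j M hMK)).log_index_le ((N ^ 2 * p * J : ℕ) : ℝ) ?_ s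
        (Nat.cast_nonneg s) ?_
      · have h4 : M.index ≤ p ^ (J * N ^ 2) :=
          (Nat.le_of_dvd (glc_pos p N j h.prime hj1) (h.dvd j hj1 M hMK)).trans
            ((glc_le p N j).trans (Nat.pow_le_pow_right hp0 (Nat.mul_le_mul_right _ hjJ')))
        exact k12c_log hM0 h4
      · have h5 : ((N ^ 2 * p * J : ℕ) : ℝ) ≤ ((s ^ 2 : ℕ) : ℝ) := Nat.cast_le.2 hs
        rw [Nat.cast_pow] at h5
        exact h5
    linarith
  have hsub : (Finset.range (J + 1)).filter (fun j => j.Prime ∧ N + 3 * C < j) ⊆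
      (Finset.range (J + 1)).filter (fun j => j.Prime ∧ N < j) := by
    intro j hj
    obtain ⟨h1, h2, h3⟩ := Finset.mem_filter.1 hj
    exact Finset.mem_filter.2 ⟨h1, h2, by omega⟩
  have hprod := h.prod_le A hA J hJ
  have hpos : ∀ j, (∏ M ∈ (K j).filter (fun M => (p ^ (N ^ 3)).factorial < M.index),
      ((M.relIndex (A M) : ℕ) : ℝ)) ≠ 0 := by
    intro j
    refine Finset.prod_ne_zero_iff.2 fun M hM => ?_
    have h1 := hrel j M hM
    exact Nat.cast_ne_zero.2 (by omega)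
  calc ∑ j ∈ (Finset.range (J + 1)).filter (fun j => j.Prime ∧ N + 3 * C < j),
        (Real.log (gam T D (p ^ (j - (N + 3 * C)))) - Real.log E₀)
      ≤ ∑ j ∈ (Finset.range (J + 1)).filter (fun j => j.Prime ∧ N + 3 * C < j),
        ∑ M ∈ (K j).filter (fun M => (p ^ (N ^ 3)).factorial < M.index),
          (s : ℝ) * Real.log (M.relIndex (A M)) := Finset.sum_le_sum hterm
    _ ≤ ∑ j ∈ (Finset.range (J + 1)).filter (fun j => j.Prime ∧ N < j),
        ∑ M ∈ (K j).filter (fun M => (p ^ (N ^ 3)).factorial < M.index),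
          (s : ℝ) * Real.log (M.relIndex (A M)) := by
        refine Finset.sum_le_sum_of_subset_of_nonneg hsub fun j _ _ => ?_
        exact Finset.sum_nonneg fun M _ => mul_nonneg (Nat.cast_nonneg s)
          (Real.log_natCast_nonneg _)
    _ = s * ∑ j ∈ (Finset.range (J + 1)).filter (fun j => j.Prime ∧ N < j),
        ∑ M ∈ (K j).filter (fun M => (p ^ (N ^ 3)).factorial < M.index),
          Real.log (M.relIndex (A M)) := by
        rw [Finset.mul_sum]
        refine Finset.sum_congr rfl fun j _ => ?_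
        rw [Finset.mul_sum]
    _ = s * Real.log (∏ j ∈ (Finset.range (J + 1)).filter (fun j => j.Prime ∧ N < j),
        ∏ M ∈ (K j).filter (fun M => (p ^ (N ^ 3)).factorial < M.index),
          ((M.relIndex (A M) : ℕ) : ℝ)) := by
        rw [Real.log_prod fun j _ => hpos j]
        congr 1
        refine Finset.sum_congr rfl fun j _ => ?_
        rw [Real.log_prod]
        intro M hM
        have h1 := hrel j M hM
        exact Nat.cast_ne_zero.2 (by omega)
    _ ≤ s * Real.log (gam T D (p ^ ((3 * C + 3 * N ^ 2 + 5) * J))) := by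
        refine mul_le_mul_of_nonneg_left (Real.log_le_log ?_ ?_) (Nat.cast_nonneg s)
        · refine lt_of_le_of_ne (Finset.prod_nonneg fun j _ => Finset.prod_nonneg fun M _ =>
            Nat.cast_nonneg _) (Ne.symm ?_)
          exact Finset.prod_ne_zero_iff.2 fun j _ => hpos j
        · have h6 := Nat.cast_le (α := ℝ).2 hprod
          push_cast at h6
          exact h6

end ALP
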