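import Mathlib

/-!
# [ALP-K13a] primes
-/

set_option autoImplicit false

namespace ALP



theorem k13a_u {J : ℕ} (hJ : 200 ^ 16 ≤ J) : ∃ u : ℝ, 200 ≤ u ∧ (J : ℝ) = u ^ 16 ∧
    (J : ℝ) ^ (7 / 8 : ℝ) = u ^ 14 ∧ √(J : ℝ) = u ^ 8 ∧ Real.log J ≤ 16 * u ∧
    Real.log ((J : ℝ) + 1) ≤ 17 * u := by
  have hJ0 : (0 : ℝ) ≤ J := Nat.cast_nonneg J
  have hJr : (200 : ℝ) ^ 16 ≤ J := by exact_mod_cast hJ
  have hpow : ∀ n : ℕ, ((J : ℝ) ^ (1 / 16 : ℝ)) ^ n = (J : ℝ) ^ ((n : ℝ) / 16) := by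
    intro n
    rw [← Real.rpow_natCast, ← Real.rpow_mul hJ0]
    congr 1
    ring
  have h16 : (J : ℝ) = ((J : ℝ) ^ (1 / 16 : ℝ)) ^ 16 := by
    rw [hpow 16]
    norm_num
  have hu : 200 ≤ (J : ℝ) ^ (1 / 16 : ℝ) := by
    by_contra hcon
    have h1 : (J : ℝ) ^ (1 / 16 : ℝ) < 200 := not_le.1 hcon
    have h2 : ((J : ℝ) ^ (1 / 16 : ℝ)) ^ 16 < 200 ^ 16 :=
      pow_lt_pow_left₀ h1 (Real.rpow_nonneg hJ0 _) (by norm_num)
    rw [← h16] at h2
    linarith
  refine ⟨(J : ℝ) ^ (1 / 16 : ℝ), hu, h16, ?_, ?_, ?_, ?_⟩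
  · rw [hpow 14]
    norm_num
  · rw [hpow 8, Real.sqrt_eq_rpow]
    norm_num
  · generalize (J : ℝ) ^ (1 / 16 : ℝ) = u at hu h16
    rw [h16, Real.log_pow]
    have h1 := Real.log_le_sub_one_of_pos (show 0 < u by linarith)
    push_cast
    linarith
  · generalize (J : ℝ) ^ (1 / 16 : ℝ) = u at hu h16
    have hu0 : 0 < u := by linarith
    have h2 : (J : ℝ) + 1 ≤ u ^ 17 := by
      rw [h16]
      have h3 : (1 : ℝ) ≤ u ^ 16 := one_le_pow₀ (by linarith)
      calc u ^ 16 + 1 ≤ 200 * u ^ 16 := by linarith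
        _ ≤ u * u ^ 16 := mul_le_mul_of_nonneg_right hu (by positivity)
        _ = u ^ 17 := by ring
    have h3 : Real.log ((J : ℝ) + 1) ≤ Real.log (u ^ 17) := Real.log_le_log (by positivity) h2
    rw [Real.log_pow] at h3
    have h1 := Real.log_le_sub_one_of_pos hu0
    push_cast at h3
    linarith

theorem k13a_split' (j₀ J : ℕ) : Chebyshev.theta J ≤ Chebyshev.theta j₀ +
    ∑ j ∈ (Finset.range (J + 1)).filter (fun j => j.Prime ∧ j₀ < j), Real.log j := by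
  classical
  unfold Chebyshev.theta
  rw [Nat.floor_natCast, Nat.floor_natCast]
  have h1 : (Finset.Ioc 0 J).filter Nat.Prime ⊆ ((Finset.Ioc 0 j₀).filter Nat.Prime) ∪
      ((Finset.range (J + 1)).filter (fun j => j.Prime ∧ j₀ < j)) := by
    intro p hp
    rw [Finset.mem_filter, Finset.mem_Ioc] at hp
    rw [Finset.mem_union, Finset.mem_filter, Finset.mem_filter, Finset.mem_Ioc, Finset.mem_range]
    by_cases h : j₀ < p
    · exact Or.inr ⟨by omega, hp.2, h⟩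
    · exact Or.inl ⟨⟨hp.1.1, by omega⟩, hp.2⟩
  refine (Finset.sum_le_sum_of_subset_of_nonneg h1 fun p _ _ => Real.log_natCast_nonneg p).trans ?_
  have h2 := Finset.sum_union_inter (s₁ := (Finset.Ioc 0 j₀).filter Nat.Prime)
    (s₂ := (Finset.range (J + 1)).filter (fun j => j.Prime ∧ j₀ < j)) (f := fun p : ℕ => Real.log p)
  have h3 : 0 ≤ ∑ p ∈ ((Finset.Ioc 0 j₀).filter Nat.Prime) ∩
      ((Finset.range (J + 1)).filter (fun j => j.Prime ∧ j₀ < j)), Real.log p :=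
    Finset.sum_nonneg fun p _ => Real.log_natCast_nonneg p
  linarith

theorem k13a_split (J : ℕ) : Chebyshev.theta J ≤ Chebyshev.theta ((J : ℝ) / 4) +
    (((Finset.range (J + 1)).filter fun j => j.Prime ∧ J < 4 * j).card : ℝ) * Real.log J := by
  have h1 := k13a_split' (J / 4) J
  have h2 : Chebyshev.theta ((J / 4 : ℕ) : ℝ) = Chebyshev.theta ((J : ℝ) / 4) := by
    rw [Chebyshev.theta_eq_theta_coe_floor ((J : ℝ) / 4)]
    congr 2
    exact (Nat.floor_div_ofNat (J : ℝ) 4).trans (by rw [Nat.floor_natCast]) |>.symm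
  rw [h2] at h1
  refine h1.trans (add_le_add_right ?_ _)
  have h3 : (Finset.range (J + 1)).filter (fun j => j.Prime ∧ J / 4 < j) =
      (Finset.range (J + 1)).filter (fun j => j.Prime ∧ J < 4 * j) := by
    refine Finset.filter_congr fun j _ => ?_
    constructor
    · rintro ⟨h4, h5⟩
      exact ⟨h4, by omega⟩
    · rintro ⟨h4, h5⟩
      exact ⟨h4, by omega⟩
  rw [h3, ← nsmul_eq_mul]
  refine Finset.sum_le_card_nsmul _ _ _ fun p hp => ?_
  rw [Finset.mem_filter, Finset.mem_range] at hp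
  refine Real.log_le_log (Nat.cast_pos.2 hp.2.1.pos) ?_
  exact_mod_cast (by omega : p ≤ J)

/-- PROOF. `θ(J) - θ(J/4) = ∑ log j` over the primes `J/4 < j ≤ J`, so it is at most `card * log J`. `Chebyshev.theta_ge`: `θ(J) ≥ J log 2 - log (J+1) - 2 √J log J`; `Chebyshev.theta_le_log4_mul_x`: `θ(J/4) ≤ log 4 * J / 4 = J log 2 / 2`. So `card * log J ≥ J log 2 / 2 - log (J+1) - 2 √J log J`, which is at
least `J^(7/8) log J` for large `J`. -/
theorem primes_quarter : ∃ J₀ : ℕ, ∀ J : ℕ, J₀ ≤ J →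
    (J : ℝ) ^ (7 / 8 : ℝ) ≤
      (((Finset.range (J + 1)).filter fun j => j.Prime ∧ J < 4 * j).card : ℝ) := by
  refine ⟨200 ^ 16, fun J hJ => ?_⟩
  obtain ⟨u, hu, h16, h14, h8, hlog, hlog1⟩ := k13a_u hJ
  have hJ1 : 1 < J := lt_of_lt_of_le (by norm_num) hJ
  have hlogpos : 0 < Real.log J := Real.log_pos (by exact_mod_cast hJ1)
  have hge := Chebyshev.theta_ge J
  have hsplit := k13a_split J
  have hquart : Chebyshev.theta ((J : ℝ) / 4) ≤ Real.log 4 * ((J : ℝ) / 4) :=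
    Chebyshev.theta_le_log4_mul_x (by positivity)
  have hl4 : Real.log 4 = 2 * Real.log 2 := by
    rw [show (4 : ℝ) = 2 ^ 2 by norm_num, Real.log_pow]
    push_cast
    ring
  have hl2 : (0.69 : ℝ) < Real.log 2 := by
    have := Real.log_two_gt_d9
    linarith
  have hmain : u ^ 14 * Real.log J ≤ J * Real.log 2 / 2 - Real.log (J + 1) -
      2 * √J * Real.log J := by
    rw [h8]
    have hu0 : 0 < u := by linarith
    have e1 : u ^ 14 * Real.log J ≤ u ^ 14 * (16 * u) :=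
      mul_le_mul_of_nonneg_left hlog (by positivity)
    have e2 : 2 * u ^ 8 * Real.log J ≤ 2 * u ^ 8 * (16 * u) :=
      mul_le_mul_of_nonneg_left hlog (by positivity)
    have e3 : (J : ℝ) * 0.69 ≤ J * Real.log 2 :=
      mul_le_mul_of_nonneg_left hl2.le (Nat.cast_nonneg J)
    rw [h16] at e3
    rw [h16] at hlog1 ⊢
    have e4 : 200 * u ^ 15 ≤ u ^ 16 := by
      calc 200 * u ^ 15 ≤ u * u ^ 15 := mul_le_mul_of_nonneg_right hu (by positivity)
        _ = u ^ 16 := by ring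
    have e5 : u ^ 9 ≤ u ^ 15 := pow_le_pow_right₀ (by linarith) (by norm_num)
    have e6 : u ≤ u ^ 15 := by
      calc u = u ^ 1 := (pow_one u).symm
        _ ≤ u ^ 15 := pow_le_pow_right₀ (by linarith) (by norm_num)
    have e7 : u ^ 14 * (16 * u) = 16 * u ^ 15 := by ring
    have e8 : 2 * u ^ 8 * (16 * u) = 32 * u ^ 9 := by ring
    rw [h16] at e1 e2
    linarith
  have hS : u ^ 14 * Real.log J ≤
      (((Finset.range (J + 1)).filter fun j => j.Prime ∧ J < 4 * j).card : ℝ) * Real.log J := by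
    rw [hl4] at hquart
    linarith
  rw [h14]
  exact le_of_mul_le_mul_right hS hlogpos

/-- PROOF. `θ(J) = ∑_{j ≤ J prime} log j ≥ J log 2 - log (J+1) - 2 √J log J` (`Chebyshev.theta_ge`), the primes `j ≤ j₀` contribute a constant, and `log 2 > 1/2`. -/
theorem sum_log_primes (j₀ : ℕ) : ∃ J₀ : ℕ, ∀ J : ℕ, J₀ ≤ J →
    (J : ℝ) / 2 ≤ ∑ j ∈ (Finset.range (J + 1)).filter (fun j => j.Prime ∧ j₀ < j), Real.log j := by
  obtain ⟨J₁, hJ₁⟩ := exists_nat_ge (20 * Chebyshev.theta j₀)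
  refine ⟨max (200 ^ 16) J₁, fun J hJ => ?_⟩
  have hJa : 200 ^ 16 ≤ J := (le_max_left _ _).trans hJ
  have hJb : J₁ ≤ J := (le_max_right _ _).trans hJ
  obtain ⟨u, hu, h16, h14, h8, hlog, hlog1⟩ := k13a_u hJa
  have hge := Chebyshev.theta_ge J
  have hsplit := k13a_split' j₀ J
  have hl2 : (0.69 : ℝ) < Real.log 2 := by
    have := Real.log_two_gt_d9
    linarith
  have hC : 20 * Chebyshev.theta j₀ ≤ J := hJ₁.trans (by exact_mod_cast hJb)
  have hu0 : 0 < u := by linarith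
  have e2 : 2 * u ^ 8 * Real.log J ≤ 2 * u ^ 8 * (16 * u) :=
    mul_le_mul_of_nonneg_left hlog (by positivity)
  have e3 : (J : ℝ) * 0.69 ≤ J * Real.log 2 :=
    mul_le_mul_of_nonneg_left hl2.le (Nat.cast_nonneg J)
  rw [h8] at hge
  have e4 : 200 * u ^ 15 ≤ u ^ 16 := by
    calc 200 * u ^ 15 ≤ u * u ^ 15 := mul_le_mul_of_nonneg_right hu (by positivity)
      _ = u ^ 16 := by ring
  have e4' : 200 * u ^ 14 ≤ u ^ 15 := by
    calc 200 * u ^ 14 ≤ u * u ^ 14 := mul_le_mul_of_nonneg_right hu (by positivity)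
      _ = u ^ 15 := by ring
  have e5 : u ^ 9 ≤ u ^ 14 := pow_le_pow_right₀ (by linarith) (by norm_num)
  have e6 : u ≤ u ^ 14 := by
    calc u = u ^ 1 := (pow_one u).symm
      _ ≤ u ^ 14 := pow_le_pow_right₀ (by linarith) (by norm_num)
  have e8 : 2 * u ^ 8 * (16 * u) = 32 * u ^ 9 := by ring
  have e9 : (0 : ℝ) ≤ u ^ 14 := by positivity
  linarith

end ALP
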