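import Pool.Agent.ALP.K13a

/-!
# [ALP-K13b] bootstrapping: one step
-/

set_option autoImplicit false

namespace ALP



theorem boot_sum (F : ℕ → ℝ) (h0 : ∀ j : ℕ, (j : ℝ) / 2 ≤ F j) (a : ℕ)
    (E : ℝ) (hE : 0 ≤ E) (α κ : ℝ) (hα : 1 ≤ α) (hκ : 0 < κ) (j₁ : ℕ)
    (h1 : ∀ j : ℕ, j₁ ≤ j → κ * (j : ℝ) ^ α ≤ F j) (J : ℕ) (hJ : 8 * (a + j₁ + 1) ≤ J)
    (hcard : (J : ℝ) ^ (7 / 8 : ℝ) ≤
      (((Finset.range (J + 1)).filter fun j => j.Prime ∧ J < 4 * j).card : ℝ))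
    (hE1 : 16 * E / κ ≤ J) (hE2 : 64 * E / κ ≤ (J : ℝ) ^ (7 / 8 : ℝ)) :
    κ / 4 * ((J : ℝ) / 8) ^ α * (J : ℝ) ^ (7 / 8 : ℝ) ≤
      ∑ j ∈ (Finset.range (J + 1)).filter (fun j => j.Prime ∧ a < j), (F (j - a) - E) := by
  have hJ1 : (1 : ℝ) ≤ J := by
    have : 1 ≤ J := by omega
    exact_mod_cast this
  have hJ8 : (8 : ℝ) ≤ J := by
    have : 8 ≤ J := by omega
    exact_mod_cast this
  set m : ℝ := ((J : ℝ) / 8) ^ α with hm
  set w : ℝ := (J : ℝ) ^ (7 / 8 : ℝ) with hw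
  have hmJ : (J : ℝ) / 8 ≤ m := by
    rw [hm]
    exact Real.self_le_rpow_of_one_le (by linarith) hα
  have hw0 : 0 ≤ w := by
    rw [hw]; positivity
  set S := (Finset.range (J + 1)).filter (fun j => j.Prime ∧ a < j) with hS
  set T := (Finset.range (J + 1)).filter (fun j => j.Prime ∧ J < 4 * j) with hT
  have hTS : T ⊆ S := by
    intro j hj
    rw [hT, Finset.mem_filter] at hj
    rw [hS, Finset.mem_filter]
    refine ⟨hj.1, hj.2.1, ?_⟩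
    have := hj.2.2
    omega
  rw [← Finset.sum_sdiff hTS]
  have e1 : (T.card : ℝ) * (κ * m - E) ≤ ∑ j ∈ T, (F (j - a) - E) := by
    rw [← nsmul_eq_mul]
    refine Finset.card_nsmul_le_sum _ _ _ ?_
    intro j hj
    rw [hT, Finset.mem_filter] at hj
    have h4 := hj.2.2
    have h5 := h1 (j - a) (by omega)
    have h6 : m ≤ ((j - a : ℕ) : ℝ) ^ α := by
      rw [hm]
      refine Real.rpow_le_rpow (by positivity) ?_ (by linarith)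
      have h7 : J ≤ 8 * (j - a) := by omega
      have h8 : (J : ℝ) ≤ 8 * ((j - a : ℕ) : ℝ) := by exact_mod_cast h7
      linarith
    have h9 := mul_le_mul_of_nonneg_left h6 hκ.le
    linarith
  have e2 : -(E * (J + 1)) ≤ ∑ j ∈ S \ T, (F (j - a) - E) := by
    have h2 : ((S \ T).card : ℝ) * (-E) ≤ ∑ j ∈ S \ T, (F (j - a) - E) := by
      rw [← nsmul_eq_mul]
      refine Finset.card_nsmul_le_sum _ _ _ ?_
      intro j _
      have h3 := h0 (j - a)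
      have h4 : (0 : ℝ) ≤ ((j - a : ℕ) : ℝ) / 2 := by positivity
      linarith
    have h3 : ((S \ T).card : ℝ) ≤ J + 1 := by
      have h4 : (S \ T).card ≤ J + 1 := by
        calc (S \ T).card ≤ S.card := Finset.card_le_card Finset.sdiff_subset
          _ ≤ (Finset.range (J + 1)).card := Finset.card_filter_le _ _
          _ = J + 1 := Finset.card_range _
      exact_mod_cast h4
    have h5 := mul_le_mul_of_nonneg_left h3 hE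
    nlinarith
  have hEm : E ≤ κ / 2 * m := by
    have h2 : 16 * E ≤ J * κ := by
      rwa [div_le_iff₀ hκ] at hE1
    nlinarith
  have e3 : w * (κ / 2 * m) ≤ (T.card : ℝ) * (κ * m - E) := by
    have h2 : w ≤ (T.card : ℝ) := hcard
    have h3 : κ / 2 * m ≤ κ * m - E := by linarith
    have h4 : 0 ≤ κ / 2 * m := by linarith
    calc w * (κ / 2 * m) ≤ (T.card : ℝ) * (κ / 2 * m) := mul_le_mul_of_nonneg_right h2 h4
      _ ≤ (T.card : ℝ) * (κ * m - E) := mul_le_mul_of_nonneg_left h3 (by positivity)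
  have e4 : E * (J + 1) ≤ κ / 4 * m * w := by
    have h2 : 64 * E ≤ w * κ := by
      rwa [div_le_iff₀ hκ] at hE2
    have h3 : E * (J + 1) ≤ E * (2 * J) := mul_le_mul_of_nonneg_left (by linarith) hE
    have h4 : (J : ℝ) * (64 * E) ≤ (8 * m) * (w * κ) :=
      mul_le_mul (by linarith) h2 (by positivity) (by linarith)
    nlinarith
  linarith

theorem boot_J (F : ℕ → ℝ) (h0 : ∀ j : ℕ, (j : ℝ) / 2 ≤ F j) (a b c : ℕ)
    (E : ℝ) (hE : 0 ≤ E)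
    (h : ∀ J s : ℕ, 1 ≤ J → b * J ≤ s ^ 2 →
      ∑ j ∈ (Finset.range (J + 1)).filter (fun j => j.Prime ∧ a < j), (F (j - a) - E) ≤
        s * F (c * J))
    (α κ : ℝ) (hα : 1 ≤ α) (hκ : 0 < κ) (j₁ : ℕ) (h1 : ∀ j : ℕ, j₁ ≤ j → κ * (j : ℝ) ^ α ≤ F j) :
    ∃ κ' : ℝ, 0 < κ' ∧ ∃ J₂ : ℕ, ∀ J : ℕ, J₂ ≤ J →
      κ' * (J : ℝ) ^ (α + 1 / 4) ≤ F (c * J) := by
  obtain ⟨J₀, hJ₀⟩ := primes_quarter
  have t1 : Filter.Tendsto (fun J : ℕ => (J : ℝ) ^ (7 / 8 : ℝ)) Filter.atTop Filter.atTop :=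
    (tendsto_rpow_atTop (by norm_num)).comp tendsto_natCast_atTop_atTop
  obtain ⟨J₃, hJ₃⟩ := Filter.eventually_atTop.1 (t1.eventually_ge_atTop (64 * E / κ))
  obtain ⟨J₄, hJ₄⟩ := Filter.eventually_atTop.1
    (tendsto_natCast_atTop_atTop.eventually_ge_atTop (16 * E / κ))
  refine ⟨κ / 4 * (1 / 8) ^ α / (2 * (b + 1)), by positivity,
    max (max J₀ J₃) (max J₄ (8 * (a + j₁ + 1))), ?_⟩
  intro J hJ
  simp only [max_le_iff] at hJ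
  obtain ⟨⟨g1, g2⟩, g3, g4⟩ := hJ
  have hs := boot_sum F h0 a E hE α κ hα hκ j₁ h1 J g4 (hJ₀ J g1) (hJ₄ J g3) (hJ₃ J g2)
  have hJpos : 1 ≤ J := by omega
  have hJ1 : (1 : ℝ) ≤ J := by exact_mod_cast hJpos
  have hsq : b * J ≤ ((b + 1) * (Nat.sqrt J + 1)) ^ 2 := by
    have h2 : J < (Nat.sqrt J + 1) * (Nat.sqrt J + 1) := Nat.lt_succ_sqrt J
    calc b * J ≤ (b + 1) * J := Nat.mul_le_mul_right _ (by omega)
      _ ≤ (b + 1) ^ 2 * J := Nat.mul_le_mul_right _ (by nlinarith)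
      _ ≤ (b + 1) ^ 2 * ((Nat.sqrt J + 1) * (Nat.sqrt J + 1)) :=
        Nat.mul_le_mul_left _ h2.le
      _ = ((b + 1) * (Nat.sqrt J + 1)) ^ 2 := by ring
  have hh := h J _ hJpos hsq
  have hF0 : 0 ≤ F (c * J) := le_trans (by positivity) (h0 (c * J))
  have hroot : ((((b + 1) * (Nat.sqrt J + 1) : ℕ)) : ℝ) ≤ 2 * (b + 1) * (J : ℝ) ^ (1 / 2 : ℝ) := by
    rw [← Real.sqrt_eq_rpow]
    have h2 : ((Nat.sqrt J : ℕ) : ℝ) ≤ Real.sqrt J := Real.nat_sqrt_le_real_sqrt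
    have h3 : (1 : ℝ) ≤ Real.sqrt J := by
      rw [Real.one_le_sqrt]; exact hJ1
    push_cast
    have h4 : (0 : ℝ) ≤ (b : ℝ) + 1 := by positivity
    nlinarith
  have h5 : κ / 4 * ((J : ℝ) / 8) ^ α * (J : ℝ) ^ (7 / 8 : ℝ) ≤
      2 * (b + 1) * (J : ℝ) ^ (1 / 2 : ℝ) * F (c * J) :=
    le_trans (le_trans hs hh) (mul_le_mul_of_nonneg_right hroot hF0)
  have h6 : ((J : ℝ) / 8) ^ α = (1 / 8) ^ α * (J : ℝ) ^ α := by
    rw [← Real.mul_rpow (by norm_num) (by positivity)]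
    congr 1
    ring
  have h7 : (J : ℝ) ^ (1 / 2 : ℝ) * (J : ℝ) ^ (α + 1 / 4) ≤ (J : ℝ) ^ α * (J : ℝ) ^ (7 / 8 : ℝ) := by
    rw [← Real.rpow_add (by linarith), ← Real.rpow_add (by linarith)]
    exact Real.rpow_le_rpow_of_exponent_le hJ1 (by linarith)
  have hr : 0 < (J : ℝ) ^ (1 / 2 : ℝ) := by positivity
  have h8 : κ / 4 * (1 / 8) ^ α * ((J : ℝ) ^ (1 / 2 : ℝ) * (J : ℝ) ^ (α + 1 / 4)) ≤
      2 * (b + 1) * (J : ℝ) ^ (1 / 2 : ℝ) * F (c * J) := by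
    refine le_trans (mul_le_mul_of_nonneg_left h7 (by positivity)) ?_
    refine le_trans (le_of_eq ?_) h5
    rw [h6]
    ring
  have h9 : κ / 4 * (1 / 8) ^ α * (J : ℝ) ^ (α + 1 / 4) ≤ 2 * (b + 1) * F (c * J) := by
    refine le_of_mul_le_mul_left ?_ hr
    refine le_trans (le_of_eq ?_) (le_trans h8 (le_of_eq ?_))
    · ring
    · ring
  rw [div_mul_eq_mul_div, div_le_iff₀ (by positivity)]
  linarith

/-- PROOF. Let `J` be large. The primes `j` with `J < 4 j ≤ 4 J`: there are at least `J^(7/8)` of them (`primes_quarter`), `j > a`, `j - a ≥ J / 8 ≥ j₁`, so `F (j - a) - E ≥ κ (J/8)^α - E ≥ (κ/2) (J/8)^α`. The other terms of the sum are at least `-E` (`F ≥ 0`), together at least `-E (J + 1)`. As `α ≥ 1`, the sum is at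
least `(κ/4) (J/8)^α J^(7/8)` for large `J`. Let `s = ⌈√(b J)⌉ ≤ (b + 2) √J`. So `F (c J) ≥ (κ/4) 8^(-α) / (b+2) * J^(α + 3/8) ≥ κ'' J^(α + 1/4)`. For `j` large take `J = j / c` (division with remainder), `J ≥ j / (2 c)`, `F j ≥ F (c J)`; `κ' = κ'' (2 c)^(-(α + 1/4))`. -/
theorem boot_step (F : ℕ → ℝ) (hF : Monotone F) (h0 : ∀ j : ℕ, (j : ℝ) / 2 ≤ F j) (a b c : ℕ)
    (hc : 1 ≤ c) (E : ℝ) (hE : 0 ≤ E)
    (h : ∀ J s : ℕ, 1 ≤ J → b * J ≤ s ^ 2 →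
      ∑ j ∈ (Finset.range (J + 1)).filter (fun j => j.Prime ∧ a < j), (F (j - a) - E) ≤
        s * F (c * J))
    (α κ : ℝ) (hα : 1 ≤ α) (hκ : 0 < κ) (j₁ : ℕ) (h1 : ∀ j : ℕ, j₁ ≤ j → κ * (j : ℝ) ^ α ≤ F j) :
    ∃ κ' : ℝ, 0 < κ' ∧ ∃ j₂ : ℕ, ∀ j : ℕ, j₂ ≤ j → κ' * (j : ℝ) ^ (α + 1 / 4) ≤ F j := by
  obtain ⟨κ'', hk, J₂, hJ₂⟩ := boot_J F h0 a b c E hE h α κ hα hκ j₁ h1
  have hc0 : 0 < c := hc
  have hcR : (0 : ℝ) < c := by exact_mod_cast hc0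
  refine ⟨κ'' * (1 / (2 * c)) ^ (α + 1 / 4), by positivity, c * (J₂ + 1), ?_⟩
  intro j hj
  have h2 : J₂ + 1 ≤ j / c := by
    rw [Nat.le_div_iff_mul_le hc0]
    calc (J₂ + 1) * c = c * (J₂ + 1) := Nat.mul_comm _ _
      _ ≤ j := hj
  have h3 := hJ₂ (j / c) (by omega)
  have h4 : F (c * (j / c)) ≤ F j := hF (Nat.mul_div_le j c)
  have h5 : j < c * (j / c + 1) := Nat.lt_mul_div_succ j hc0
  have h6 : j ≤ 2 * c * (j / c) := by nlinarith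
  have h7 : (j : ℝ) ≤ 2 * c * ((j / c : ℕ) : ℝ) := by exact_mod_cast h6
  have h8 : 1 / (2 * (c : ℝ)) * j ≤ ((j / c : ℕ) : ℝ) := by
    rw [one_div, inv_mul_le_iff₀ (by positivity)]
    exact h7
  have h9 : (1 / (2 * (c : ℝ))) ^ (α + 1 / 4) * (j : ℝ) ^ (α + 1 / 4) ≤
      ((j / c : ℕ) : ℝ) ^ (α + 1 / 4) := by
    rw [← Real.mul_rpow (by positivity) (by positivity)]
    exact Real.rpow_le_rpow (by positivity) h8 (by linarith)
  calc κ'' * (1 / (2 * c)) ^ (α + 1 / 4) * (j : ℝ) ^ (α + 1 / 4)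
      = κ'' * ((1 / (2 * (c : ℝ))) ^ (α + 1 / 4) * (j : ℝ) ^ (α + 1 / 4)) := by ring
    _ ≤ κ'' * ((j / c : ℕ) : ℝ) ^ (α + 1 / 4) := mul_le_mul_of_nonneg_left h9 hk.le
    _ ≤ F (c * (j / c)) := h3
    _ ≤ F j := h4

end ALP
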