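import Pool.Agent.ALP.K13b

/-!
# [ALP-K13c] bootstrapping
-/

set_option autoImplicit false

namespace ALP



theorem boot_iter (F : ℕ → ℝ) (hF : Monotone F) (h0 : ∀ j : ℕ, (j : ℝ) / 2 ≤ F j) (a b c : ℕ)
    (hc : 1 ≤ c) (E : ℝ) (hE : 0 ≤ E)
    (h : ∀ J s : ℕ, 1 ≤ J → b * J ≤ s ^ 2 →
      ∑ j ∈ (Finset.range (J + 1)).filter (fun j => j.Prime ∧ a < j), (F (j - a) - E) ≤
        s * F (c * J)) (i : ℕ) :
    ∃ κ : ℝ, 0 < κ ∧ ∃ j₀ : ℕ, ∀ j : ℕ, j₀ ≤ j → κ * (j : ℝ) ^ (1 + (i : ℝ) / 4) ≤ F j := by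
  induction i with
  | zero =>
    refine ⟨1 / 2, by norm_num, 0, fun j _ => ?_⟩
    have h1 := h0 j
    simp only [Nat.cast_zero, zero_div, add_zero, Real.rpow_one]
    linarith
  | succ i ih =>
    obtain ⟨κ, hκ, j₀, hj⟩ := ih
    obtain ⟨κ', hκ', j₂, hj2⟩ := boot_step F hF h0 a b c hc E hE h (1 + (i : ℝ) / 4) κ
      (by have : (0 : ℝ) ≤ (i : ℝ) / 4 := by positivity
          linarith) hκ j₀ hj
    refine ⟨κ', hκ', j₂, fun j hjj => ?_⟩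
    have h1 := hj2 j hjj
    have h2 : (1 : ℝ) + ((i + 1 : ℕ) : ℝ) / 4 = 1 + (i : ℝ) / 4 + 1 / 4 := by
      push_cast
      ring
    rw [h2]
    exact h1

/-- PROOF. Induction with `boot_step`: for every `i : ℕ` there are `κ > 0`, `j₀` with `κ j^(1 + i/4) ≤ F j` for `j ≥ j₀` (`i = 0`: `κ = 1/2`, `h0`). Take `i = 4 K`: `F j ≥ κ j^(K+1) ≥ j^K` if `j ≥ 1/κ`. -/
theorem bootstrap (F : ℕ → ℝ) (hF : Monotone F) (h0 : ∀ j : ℕ, (j : ℝ) / 2 ≤ F j) (a b c : ℕ)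
    (hc : 1 ≤ c) (E : ℝ) (hE : 0 ≤ E)
    (h : ∀ J s : ℕ, 1 ≤ J → b * J ≤ s ^ 2 →
      ∑ j ∈ (Finset.range (J + 1)).filter (fun j => j.Prime ∧ a < j), (F (j - a) - E) ≤
        s * F (c * J)) (K : ℕ) :
    ∃ j₀ : ℕ, ∀ j : ℕ, j₀ ≤ j → (j : ℝ) ^ K ≤ F j := by
  obtain ⟨κ, hκ, j₀, hj⟩ := boot_iter F hF h0 a b c hc E hE h (4 * K)
  refine ⟨j₀ + ⌈1 / κ⌉₊, fun j hjj => ?_⟩
  have h1 := hj j (by omega)
  have h2 : (1 : ℝ) + ((4 * K : ℕ) : ℝ) / 4 = ((K + 1 : ℕ) : ℝ) := by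
    push_cast
    ring
  rw [h2, Real.rpow_natCast] at h1
  refine le_trans ?_ h1
  have h3 : 1 / κ ≤ j := by
    have h4 : 1 / κ ≤ ⌈1 / κ⌉₊ := Nat.le_ceil _
    have h5 : ((⌈1 / κ⌉₊ : ℕ) : ℝ) ≤ (j : ℝ) := Nat.cast_le.2 (by omega)
    linarith
  have h4 : 1 ≤ κ * j := by
    rw [div_le_iff₀ hκ] at h3
    linarith
  calc (j : ℝ) ^ K = 1 * (j : ℝ) ^ K := (one_mul _).symm
    _ ≤ (κ * j) * (j : ℝ) ^ K := mul_le_mul_of_nonneg_right h4 (by positivity)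
    _ = κ * (j : ℝ) ^ (K + 1) := by ring

end ALP
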