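import Pool.Agent.ALP.K12c
import Pool.Agent.ALP.K13c

/-!
# [ALP-K14] many finite quotients at every level
-/

set_option autoImplicit false

namespace ALP

open AG ALG

/-- PROOF. `F j = log (gam T D (p ^ j))` is monotone (`gam_mono`, `gam ≥ 1`), and `F j ≥ log (p ^ j + 1) ≥ j log 2 ≥ j / 2` (`gam_lower`, `inf`, `gen`). `main_ineq` and `bootstrap`: `F j ≥ j ^ (k + 3)` for `j ≥ j₁`. By `gam_le` (`c = (p ^ (N ^ 3))!`) with `n = p ^ (j - 3 C)`, `j > 3 C`: `C (2 n + 1) ≤ 3 C p^(j - 3C) < p ^ j`, and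
`F (j - 3 C) ≤ log E + ∑_{M ∈ filter} log M.index ≤ log E + card * (j N² log p)` (`M.index ≤ glc p N j ≤ p ^ (j N²)`). So `card ≥ ((j - 3C)^(k+3) - log E) / (j N² log p + 1) ≥ j ^ k` for large `j`. -/
theorem Levels.card_ge {H : Type*} [Group H] {T : Finset H} {D : Subgroup H} {p N C : ℕ}
    {K : ℕ → Finset (Subgroup H)} (h : Levels T D p N C K) (k : ℕ) :
    ∃ j₀ : ℕ, ∀ j : ℕ, j₀ ≤ j → (j : ℝ) ^ k ≤
      (((K j).filter fun M => (p ^ (N ^ 3)).factorial < M.index).card : ℝ) := by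
  classical
  have hp1 : 1 < p := h.prime.one_lt
  have hp0 : 0 < p := h.prime.pos
  have hgpos : ∀ n, 1 ≤ gam T D n := fun n =>
    le_trans (Nat.succ_le_succ (Nat.zero_le n)) (gam_lower T h.gen D h.inf n)
  obtain ⟨a, b, c, E, hc, hE, hmain⟩ := h.main_ineq
  obtain ⟨j₁, hj₁⟩ := bootstrap (fun j => Real.log (gam T D (p ^ j))) (by
      intro i j hij
      refine Real.log_le_log (Nat.cast_pos.2 (hgpos _)) (Nat.cast_le.2 ?_)
      exact gam_mono T D (Nat.pow_le_pow_right hp0 hij)) (by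
      intro j
      have h1 : (2 : ℝ) ^ j ≤ (gam T D (p ^ j) : ℝ) := by
        have h2 : 2 ^ j ≤ gam T D (p ^ j) :=
          (Nat.pow_le_pow_left hp1 j).trans
            ((Nat.le_succ _).trans (gam_lower T h.gen D h.inf (p ^ j)))
        exact_mod_cast h2
      have h3 : Real.log ((2 : ℝ) ^ j) ≤ Real.log (gam T D (p ^ j)) :=
        Real.log_le_log (by positivity) h1
      rw [Real.log_pow] at h3
      have h4 : (0.5 : ℝ) ≤ Real.log 2 := by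
        have := Real.log_two_gt_d9
        linarith
      have h5 : (j : ℝ) * 0.5 ≤ j * Real.log 2 := mul_le_mul_of_nonneg_left h4 (Nat.cast_nonneg j)
      linarith) a b c hc E hE hmain (k + 3)
  obtain ⟨E₀, hE₀, hgam⟩ := h.gam_le (p ^ (N ^ 3)).factorial
  set q := N + 3 * C with hq
  set B : ℝ := 2 ^ (k + 3) * (Real.log E₀ + (N ^ 2 * p : ℕ)) with hB
  have hE0 : 0 ≤ Real.log E₀ := Real.log_natCast_nonneg E₀
  have hB0 : 0 ≤ B := by positivity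
  refine ⟨j₁ + 2 * q + 1 + ⌈B⌉₊, fun j hj => ?_⟩
  have hjB : B < j := by
    have h1 : B ≤ ⌈B⌉₊ := Nat.le_ceil B
    have h2 : ((⌈B⌉₊ + 1 : ℕ) : ℝ) ≤ (j : ℝ) := Nat.cast_le.2 (by omega)
    push_cast at h2
    linarith
  have hj1 : 1 ≤ j := by omega
  set 𝓕 := (K j).filter fun M => (p ^ (N ^ 3)).factorial < M.index with h𝓕
  have h1 := hgam j (p ^ (j - q)) hj1 (k12c_lt hp1 (by omega))
  have hidx : ∀ M ∈ 𝓕, (M.index : ℝ) ≠ 0 := by
    intro M hM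
    have h2 := (Finset.mem_filter.1 hM).2
    have h3 : M.index ≠ 0 := by omega
    exact Nat.cast_ne_zero.2 h3
  have h2 : Real.log (gam T D (p ^ (j - q))) ≤ Real.log E₀ + ∑ M ∈ 𝓕, Real.log M.index := by
    rw [← Real.log_prod hidx, ← Real.log_mul (Nat.cast_ne_zero.2 (by omega))
      (Finset.prod_ne_zero_iff.2 hidx)]
    refine Real.log_le_log (Nat.cast_pos.2 (hgpos _)) ?_
    have h3 : ((gam T D (p ^ (j - q)) : ℕ) : ℝ) ≤ ((E₀ * ∏ M ∈ 𝓕, M.index : ℕ) : ℝ) :=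
      Nat.cast_le.2 h1
    push_cast at h3
    exact h3
  have h3 : ∑ M ∈ 𝓕, Real.log M.index ≤ (𝓕.card : ℝ) * ((N ^ 2 * p * j : ℕ) : ℝ) := by
    rw [← nsmul_eq_mul]
    refine Finset.sum_le_card_nsmul _ _ _ fun M hM => ?_
    have hMK := (Finset.mem_filter.1 hM).1
    have hM0 : M.index ≠ 0 := fun h0 => hidx M hM (by rw [h0]; exact Nat.cast_zero)
    have h4 : M.index ≤ p ^ (j * N ^ 2) :=
      (Nat.le_of_dvd (glc_pos p N j h.prime hj1) (h.dvd j hj1 M hMK)).trans (glc_le p N j)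
    refine (k12c_log hM0 h4).trans ?_
    have h5 : Real.log 2 ≤ 1 := by
      have := Real.log_two_lt_d9
      linarith
    calc ((N ^ 2 * p * j : ℕ) : ℝ) * Real.log 2 ≤ ((N ^ 2 * p * j : ℕ) : ℝ) * 1 :=
          mul_le_mul_of_nonneg_left h5 (Nat.cast_nonneg _)
      _ = _ := mul_one _
  have h4 : ((j - q : ℕ) : ℝ) ^ (k + 3) ≤ Real.log (gam T D (p ^ (j - q))) := hj₁ (j - q) (by omega)
  have h5 : (j : ℝ) / 2 ≤ ((j - q : ℕ) : ℝ) := by
    have h6 : (((j : ℕ) : ℝ)) ≤ ((2 * (j - q) : ℕ) : ℝ) := Nat.cast_le.2 (by omega)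
    push_cast at h6
    linarith
  have h6 : ((j : ℝ) / 2) ^ (k + 3) ≤ ((j - q : ℕ) : ℝ) ^ (k + 3) :=
    pow_le_pow_left₀ (by positivity) h5 _
  by_contra hcon
  push Not at hcon
  have hjR : (1 : ℝ) ≤ j := by exact_mod_cast hj1
  have hjk : (1 : ℝ) ≤ (j : ℝ) ^ (k + 1) := one_le_pow₀ hjR
  have h7 : ((j : ℝ) / 2) ^ (k + 3) ≤ Real.log E₀ + (j : ℝ) ^ k * ((N ^ 2 * p * j : ℕ) : ℝ) := by
    have h8 : (𝓕.card : ℝ) * ((N ^ 2 * p * j : ℕ) : ℝ) ≤ (j : ℝ) ^ k * ((N ^ 2 * p * j : ℕ) : ℝ) :=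
      mul_le_mul_of_nonneg_right hcon.le (Nat.cast_nonneg _)
    linarith
  have h8 : Real.log E₀ + (j : ℝ) ^ k * ((N ^ 2 * p * j : ℕ) : ℝ) ≤
      (Real.log E₀ + (N ^ 2 * p : ℕ)) * (j : ℝ) ^ (k + 1) := by
    have h9 : Real.log E₀ * 1 ≤ Real.log E₀ * (j : ℝ) ^ (k + 1) :=
      mul_le_mul_of_nonneg_left hjk hE0
    push_cast
    rw [pow_succ (j : ℝ) k] at h9 ⊢
    nlinarith
  have h9 : (j : ℝ) ^ (k + 3) ≤ B * (j : ℝ) ^ (k + 1) := by
    have h10 : (j : ℝ) ^ (k + 3) = 2 ^ (k + 3) * ((j : ℝ) / 2) ^ (k + 3) := by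
      rw [← mul_pow]
      congr 1
      ring
    rw [h10, hB, mul_assoc]
    exact mul_le_mul_of_nonneg_left (h7.trans h8) (by positivity)
  have h10 : (j : ℝ) ^ (k + 3) = (j : ℝ) ^ 2 * (j : ℝ) ^ (k + 1) := by ring
  rw [h10] at h9
  have h11 : (j : ℝ) ^ 2 ≤ B := le_of_mul_le_mul_right h9 (by positivity)
  nlinarith

end ALP
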