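import Mathlib

/-!
# [ALP-K15a] arithmetic
-/

set_option autoImplicit false

namespace ALP



theorem k15a_exp (K k : ℕ) : ∃ Z : ℕ, ∀ z : ℕ, Z ≤ z → K * z ^ k < 2 ^ z := by
  have h := isLittleO_pow_const_const_pow_of_one_lt (R := ℝ) k (one_lt_two : (1 : ℝ) < 2)
  have h1 := h.def (c := 1 / ((K : ℝ) + 1)) (by positivity)
  rw [Filter.eventually_atTop] at h1
  obtain ⟨Z, hZ⟩ := h1
  refine ⟨Z, fun z hz => ?_⟩
  have h2 := hZ z hz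
  rw [Real.norm_of_nonneg (by positivity), Real.norm_of_nonneg (by positivity),
    div_mul_eq_mul_div, one_mul, le_div_iff₀ (by positivity)] at h2
  have h3 : ((K * z ^ k : ℕ) : ℝ) < ((2 ^ z : ℕ) : ℝ) := by
    push_cast
    have h4 : (0 : ℝ) < 2 ^ z := by positivity
    rcases Nat.eq_zero_or_pos (z ^ k) with h5 | h5
    · have h6 : ((z : ℝ) ^ k) = 0 := by exact_mod_cast h5
      rw [h6, mul_zero]
      exact h4
    · have h6 : (0 : ℝ) < (z : ℝ) ^ k := by exact_mod_cast h5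
      nlinarith
  exact_mod_cast h3

/-- PROOF. `x = e + 1`, `R = C₄ x ≥ 1`. The left side is at most `Cp * (5 R³ 2^(3 x t + 3 x))^d ≤ Cp * 8^d * R^(3 d) * 2^((3 t + 3) d x)`. For a large `C₄`: `Cp * 8^d * R^(3 d) < 2^(R/2)` for all `R ≥ C₄`, and `(3 t + 3) d ≤ C₄ / 2` (take `C₄` even and large). -/
theorem arith_types (Cp d t : ℕ) : ∃ C₄ : ℕ, 1 ≤ C₄ ∧ ∀ e : ℕ,
    Cp * (4 * (C₄ * (e + 1) * 2 ^ ((e + 1) * t)) ^ 3 * (2 ^ (e + 1)) ^ 3 + 1) ^ d <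
      2 ^ (C₄ * (e + 1)) := by
  obtain ⟨Z, hZ⟩ := k15a_exp (Cp * 8 ^ d * 2 ^ (3 * d)) (3 * d)
  set M := Z + (3 * t + 3) * d + 1 with hM
  refine ⟨2 * M, by omega, fun e => ?_⟩
  set x := e + 1 with hx
  have hx1 : 1 ≤ x := by omega
  have hM1 : 1 ≤ M := by omega
  have h1 := hZ (M * x) (by
    calc Z ≤ M := by omega
      _ ≤ M * x := Nat.le_mul_of_pos_right M (by omega))
  have h2 : 4 * (2 * M * x * 2 ^ (x * t)) ^ 3 * (2 ^ x) ^ 3 + 1 ≤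
      8 * ((2 * M * x * 2 ^ (x * t)) ^ 3 * (2 ^ x) ^ 3) := by
    have h3 : 1 ≤ (2 * M * x * 2 ^ (x * t)) ^ 3 * (2 ^ x) ^ 3 := Nat.one_le_iff_ne_zero.2 (by
      positivity)
    nlinarith
  have h3 : (2 * M * x * 2 ^ (x * t)) ^ 3 * (2 ^ x) ^ 3 =
      (2 * (M * x)) ^ 3 * 2 ^ ((3 * t + 3) * x) := by
    have h4 : 2 ^ ((3 * t + 3) * x) = (2 ^ (x * t)) ^ 3 * (2 ^ x) ^ 3 := by
      rw [← pow_mul, ← pow_mul, ← pow_add]
      congr 1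
      ring
    rw [h4]
    ring
  have h5 : 2 ^ ((3 * t + 3) * d * x) ≤ 2 ^ (M * x) :=
    Nat.pow_le_pow_right (by norm_num) (Nat.mul_le_mul_right x (by omega))
  calc Cp * (4 * (2 * M * x * 2 ^ (x * t)) ^ 3 * (2 ^ x) ^ 3 + 1) ^ d
      ≤ Cp * (8 * ((2 * M * x * 2 ^ (x * t)) ^ 3 * (2 ^ x) ^ 3)) ^ d :=
        Nat.mul_le_mul_left _ (Nat.pow_le_pow_left h2 d)
    _ = (Cp * 8 ^ d * 2 ^ (3 * d) * (M * x) ^ (3 * d)) * 2 ^ ((3 * t + 3) * d * x) := by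
        rw [h3]
        have h6 : 2 ^ ((3 * t + 3) * d * x) = (2 ^ ((3 * t + 3) * x)) ^ d := by
          rw [← pow_mul]
          congr 1
          ring
        rw [h6, mul_pow, mul_pow, ← pow_mul (2 * (M * x)) 3 d, mul_pow 2 (M * x) (3 * d)]
        ring
    _ ≤ (Cp * 8 ^ d * 2 ^ (3 * d) * (M * x) ^ (3 * d)) * 2 ^ (M * x) :=
        Nat.mul_le_mul_left _ h5
    _ < 2 ^ (M * x) * 2 ^ (M * x) := Nat.mul_lt_mul_of_pos_right h1 (by positivity)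
    _ = 2 ^ (2 * M * x) := by
        rw [← pow_add]
        congr 1
        ring

/-- PROOF. The left side is at most `Cp * (5 J³ p^(3 J N² t + 3 J N²))^d`, `J ≤ exp J`, `p = exp (log p)`, `Cp ≤ exp Cp ≤ exp (Cp J)`, `5 ≤ exp 2`. -/
theorem arith_final (Cp d t N p : ℕ) (hp : 2 ≤ p) : ∃ C₈ : ℝ, ∀ J : ℕ, 1 ≤ J →
    ((Cp * (4 * (J * p ^ (J * N ^ 2 * t)) ^ 3 * (p ^ (J * N ^ 2)) ^ 3 + 1) ^ d : ℕ) : ℝ) ≤
      Real.exp (C₈ * J) := by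
  refine ⟨((Cp + d * (6 + 3 * (N ^ 2 * t) + 3 * N ^ 2) : ℕ) : ℝ) * Real.log p, fun J hJ => ?_⟩
  have hp0 : (0 : ℝ) < p := by
    have : 0 < p := by omega
    exact_mod_cast this
  have h2J : ∀ n : ℕ, 2 ^ n ≤ p ^ n := fun n => Nat.pow_le_pow_left hp n
  have h1 : J ≤ p ^ J := (Nat.lt_two_pow_self (n := J)).le.trans (h2J J)
  have h2 : Cp ≤ p ^ (Cp * J) := by
    calc Cp ≤ 2 ^ Cp := (Nat.lt_two_pow_self (n := Cp)).le
      _ ≤ 2 ^ (Cp * J) := Nat.pow_le_pow_right (by norm_num) (Nat.le_mul_of_pos_right _ (by omega))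
      _ ≤ p ^ (Cp * J) := h2J _
  have h3 : 8 ≤ p ^ (3 * J) := by
    calc 8 = 2 ^ 3 := by norm_num
      _ ≤ 2 ^ (3 * J) := Nat.pow_le_pow_right (by norm_num) (by omega)
      _ ≤ p ^ (3 * J) := h2J _
  have h4 : (J * p ^ (J * N ^ 2 * t)) ^ 3 * (p ^ (J * N ^ 2)) ^ 3 ≤
      p ^ (J * (3 + 3 * (N ^ 2 * t) + 3 * N ^ 2)) := by
    calc (J * p ^ (J * N ^ 2 * t)) ^ 3 * (p ^ (J * N ^ 2)) ^ 3
        ≤ (p ^ J * p ^ (J * N ^ 2 * t)) ^ 3 * (p ^ (J * N ^ 2)) ^ 3 :=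
          Nat.mul_le_mul_right _ (Nat.pow_le_pow_left (Nat.mul_le_mul_right _ h1) 3)
      _ = p ^ (J * (3 + 3 * (N ^ 2 * t) + 3 * N ^ 2)) := by
          rw [← pow_add, ← pow_mul, ← pow_mul, ← pow_add]
          congr 1
          ring
  have h5 : 4 * (J * p ^ (J * N ^ 2 * t)) ^ 3 * (p ^ (J * N ^ 2)) ^ 3 + 1 ≤
      p ^ (J * (6 + 3 * (N ^ 2 * t) + 3 * N ^ 2)) := by
    have h6 : 1 ≤ p ^ (J * (3 + 3 * (N ^ 2 * t) + 3 * N ^ 2)) :=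
      Nat.one_le_pow _ _ (by omega)
    calc 4 * (J * p ^ (J * N ^ 2 * t)) ^ 3 * (p ^ (J * N ^ 2)) ^ 3 + 1
        ≤ 8 * p ^ (J * (3 + 3 * (N ^ 2 * t) + 3 * N ^ 2)) := by
          rw [mul_assoc]
          omega
      _ ≤ p ^ (3 * J) * p ^ (J * (3 + 3 * (N ^ 2 * t) + 3 * N ^ 2)) :=
          Nat.mul_le_mul_right _ h3
      _ = p ^ (J * (6 + 3 * (N ^ 2 * t) + 3 * N ^ 2)) := by
          rw [← pow_add]
          congr 1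
          ring
  have h6 : Cp * (4 * (J * p ^ (J * N ^ 2 * t)) ^ 3 * (p ^ (J * N ^ 2)) ^ 3 + 1) ^ d ≤
      p ^ ((Cp + d * (6 + 3 * (N ^ 2 * t) + 3 * N ^ 2)) * J) := by
    calc Cp * (4 * (J * p ^ (J * N ^ 2 * t)) ^ 3 * (p ^ (J * N ^ 2)) ^ 3 + 1) ^ d
        ≤ p ^ (Cp * J) * (p ^ (J * (6 + 3 * (N ^ 2 * t) + 3 * N ^ 2))) ^ d :=
          Nat.mul_le_mul h2 (Nat.pow_le_pow_left h5 d)
      _ = p ^ ((Cp + d * (6 + 3 * (N ^ 2 * t) + 3 * N ^ 2)) * J) := by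
          rw [← pow_mul, ← pow_add]
          congr 1
          ring
  have h7 : ((Cp * (4 * (J * p ^ (J * N ^ 2 * t)) ^ 3 * (p ^ (J * N ^ 2)) ^ 3 + 1) ^ d : ℕ) : ℝ) ≤
      ((p ^ ((Cp + d * (6 + 3 * (N ^ 2 * t) + 3 * N ^ 2)) * J) : ℕ) : ℝ) := Nat.cast_le.2 h6
  refine h7.trans ?_
  rw [Nat.cast_pow, ← Real.rpow_natCast, Real.rpow_def_of_pos hp0]
  apply Real.exp_le_exp.2
  push_cast
  apply le_of_eq
  ring

end ALP
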