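import Pool.Agent.ALP.K10b
import Pool.Agent.ALP.K15a

/-!
# [ALP-K15b] few isomorphism types
-/

set_option autoImplicit false

namespace ALP

open AG ALG

/-- PROOF. Let `autGrowth T n ≤ Cp (n+1)^d`, `t = T.card`, `C₄` from `arith_types`. Suppose `C₄ (e+1) ≤ R.card`; replace `R` by a subset with exactly `C₄ (e + 1)` elements. `𝓕 = ⋃_{M ∈ R} {M' | SameQ M' M}` (a finite set by `sameQ_ncard`), `𝓕.card ≤ m := C₄ (e+1) * 2 ^ ((e+1) t)`,
`Q = 2 ^ (e + 1)`. All elements of `𝓕` satisfy `IsMono` (`SameQ.isMono`) and have index in `[2^e, 2^(e+1))` (`SameQ.index_eq`). If `M' ≤ M''` are in `𝓕`, then `M''.index ∣ M'.index` (`Subgroup.index_dvd_of_le`), so the indices are equal and `M' = M''` (`eq_of_le_of_index_le`). `cls M'` = the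
element `M ∈ R` with `SameQ M' M` (unique by the second hypothesis, `SameQ.symm`, `SameQ.trans`; choose with `Classical.epsilon` or `dite`); `hinv` by `sameQ_map`. `inv_growth` with `I = R`: every factor is at least `2` (`M` itself is in the class of `M`), so `2 ^ (C₄ (e+1)) ≤ autGrowth T (4 m³ Q³) ≤
Cp (4 m³ Q³ + 1)^d < 2 ^ (C₄ (e+1))`. -/
theorem types_le {H : Type*} [Group H] (T : Finset H) (hT : Subgroup.closure (T : Set H) = ⊤)
    (hpoly : PolyBdd (autGrowth T)) :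
    ∃ C₄ : ℕ, ∀ (e : ℕ) (R : Finset (Subgroup H)),
      (∀ M ∈ R, IsMono M ∧ 2 ^ e ≤ M.index ∧ M.index < 2 ^ (e + 1)) →
      (∀ M ∈ R, ∀ M' ∈ R, SameQ M M' → M = M') → R.card ≤ C₄ * (e + 1) := by
  classical
  obtain ⟨Cp, d, hp⟩ := hpoly
  obtain ⟨C₄, hC1, hC⟩ := arith_types Cp d T.card
  refine ⟨C₄, fun e R hR hR2 => ?_⟩
  by_contra hcon
  obtain ⟨R', hR'R, hR'c⟩ := Finset.exists_subset_card_eq (not_le.1 hcon).le
  -- the classes
  obtain ⟨g, hg⟩ : ∃ g : Subgroup H → Finset (Subgroup H), ∀ M, {M' | SameQ M' M}.Finite →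
      (∀ M', M' ∈ g M ↔ SameQ M' M) ∧ (g M).card = {M' | SameQ M' M}.ncard := by
    refine ⟨fun M => if hf : {M' | SameQ M' M}.Finite then hf.toFinset else ∅, fun M hf => ?_⟩
    beta_reduce
    rw [dif_pos hf]
    exact ⟨fun M' => by rw [Set.Finite.mem_toFinset]; rfl, (Set.ncard_eq_toFinset_card _ hf).symm⟩
  have hidx : ∀ M ∈ R', M.index ≠ 0 ∧ M.index < 2 ^ (e + 1) ∧ 2 ^ e ≤ M.index := by
    intro M hM
    obtain ⟨_, h1, h2⟩ := hR M (hR'R hM)
    have h3 : 0 < 2 ^ e := by positivity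
    exact ⟨by omega, h2, h1⟩
  have hgM : ∀ M ∈ R', (∀ M', M' ∈ g M ↔ SameQ M' M) ∧ (g M).card ≤ 2 ^ ((e + 1) * T.card) := by
    intro M hM
    obtain ⟨h0, h1, h2⟩ := hidx M hM
    obtain ⟨h3, h4⟩ := sameQ_ncard T hT M h0
    refine ⟨(hg M h3).1, ?_⟩
    rw [(hg M h3).2, pow_mul]
    exact h4.trans (Nat.pow_le_pow_left h1.le _)
  have hmem : ∀ M', M' ∈ R'.biUnion g ↔ ∃ M ∈ R', SameQ M' M := by
    intro M'
    rw [Finset.mem_biUnion]
    exact exists_congr fun M => and_congr_right fun hM => (hgM M hM).1 M'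
  have hcard : (R'.biUnion g).card ≤ C₄ * (e + 1) * 2 ^ ((e + 1) * T.card) := by
    rw [← hR'c]
    exact Finset.card_biUnion_le_card_mul _ _ _ fun M hM => (hgM M hM).2
  have hmono : ∀ M ∈ R'.biUnion g, IsMono M := by
    intro M hM
    obtain ⟨M₀, hM₀, hs⟩ := (hmem M).1 hM
    exact hs.isMono (hR M₀ (hR'R hM₀)).1
  have hindex : ∀ M ∈ R'.biUnion g, M.index ≠ 0 ∧ M.index < 2 ^ (e + 1) ∧ 2 ^ e ≤ M.index := by
    intro M hM
    obtain ⟨M₀, hM₀, hs⟩ := (hmem M).1 hM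
    rw [hs.index_eq]
    exact hidx M₀ hM₀
  have hanti : ∀ M ∈ R'.biUnion g, ∀ M' ∈ R'.biUnion g, M' ≤ M → M' = M := by
    intro M hM M' hM' hle
    obtain ⟨h0, h1, h2⟩ := hindex M hM
    obtain ⟨h0', h1', h2'⟩ := hindex M' hM'
    refine eq_of_le_of_index_le hle h0' ?_
    obtain ⟨k, hk⟩ := Subgroup.index_dvd_of_le hle
    have hk2 : k < 2 := by
      by_contra hk3
      have h3 : M.index * 2 ≤ M.index * k := Nat.mul_le_mul_left _ (not_lt.1 hk3)
      rw [← hk] at h3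
      rw [pow_succ] at h1'
      omega
    have hk1 : k ≤ 1 := by omega
    calc M'.index = M.index * k := hk
      _ ≤ M.index * 1 := Nat.mul_le_mul_left _ hk1
      _ = M.index := mul_one _
  -- the representative of a class
  obtain ⟨cls, hcls⟩ : ∃ cls : Subgroup H → Subgroup H, ∀ M, ∀ M₀ ∈ R', SameQ M M₀ → cls M = M₀ := by
    refine ⟨fun M => if h : ∃ M₀ ∈ R', SameQ M M₀ then h.choose else ⊥, fun M M₀ hM₀ hs => ?_⟩
    have h : ∃ M₀ ∈ R', SameQ M M₀ := ⟨M₀, hM₀, hs⟩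
    beta_reduce
    rw [dif_pos h]
    exact hR2 _ (hR'R h.choose_spec.1) _ (hR'R hM₀) (h.choose_spec.2.symm.trans hs)
  have hinv : ∀ φ : MulAut H, ∀ M ∈ R'.biUnion g, M.map φ.toMonoidHom ∈ R'.biUnion g ∧
      cls (M.map φ.toMonoidHom) = cls M := by
    intro φ M hM
    obtain ⟨M₀, hM₀, hs⟩ := (hmem M).1 hM
    obtain ⟨A, hA⟩ := hmono M hM
    have h1 : SameQ (M.map φ.toMonoidHom) M₀ := (sameQ_map φ M hA.normal).trans hs
    exact ⟨(hmem _).2 ⟨M₀, hM₀, h1⟩, by rw [hcls _ M₀ hM₀ h1, hcls M M₀ hM₀ hs]⟩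
  have hgrow := inv_growth T hT (R'.biUnion g) hmono hanti (2 ^ (e + 1))
    (C₄ * (e + 1) * 2 ^ ((e + 1) * T.card)) (fun M hM => (hindex M hM).2.1.le) hcard R' cls hinv
  have hlow : 2 ^ (C₄ * (e + 1)) ≤
      ∏ i ∈ R', (((R'.biUnion g).filter fun M => cls M = i).card + 1) := by
    rw [← hR'c, ← Finset.prod_const]
    refine Finset.prod_le_prod' fun i hi => ?_
    obtain ⟨A, hA⟩ := (hR i (hR'R hi)).1
    have h1 : SameQ i i := sameQ_refl i hA.normal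
    have h2 : 0 < ((R'.biUnion g).filter fun M => cls M = i).card :=
      Finset.card_pos.2 ⟨i, Finset.mem_filter.2 ⟨(hmem i).2 ⟨i, hi, h1⟩, hcls i i hi h1⟩⟩
    omega
  exact absurd ((hlow.trans hgrow).trans (hp _)) (not_le.2 (hC e))

end ALP
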