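import Pool.Agent.ALP.K15b

/-!
# [ALP-K15c] a large isomorphism class
-/

set_option autoImplicit false

namespace ALP

open AG ALG

/-- PROOF. `C₅ = C₄` from `types_le`. Let `R ⊆ G` be a maximal subset of pairwise not `SameQ` elements. `R` is the union of the sets `R ∩ {2^e ≤ index < 2^(e+1)}`, `e < x` (index `≥ 1`), so `R.card ≤ ∑_{e < x} C₄ (e+1) ≤ C₄ (x + 1)²`. Every `M ∈ G` is `SameQ` to an element of `R` (maximality; `sameQ_refl`, `SameQ.symm`). So
`G.card ≤ ∑_{M₀ ∈ R} ncard {M | SameQ M M₀} ≤ R.card * max`; take `M₀ ∈ R` with the largest class (`R` is not empty). The classes are finite (`sameQ_ncard`; indices are not `0`). -/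
theorem exists_class {H : Type*} [Group H] (T : Finset H)
    (hT : Subgroup.closure (T : Set H) = ⊤) (hpoly : PolyBdd (autGrowth T)) :
    ∃ C₅ : ℕ, ∀ (x : ℕ) (G : Finset (Subgroup H)),
      (∀ M ∈ G, IsMono M ∧ M.index < 2 ^ x) → G.Nonempty →
      ∃ M₀ ∈ G, G.card ≤ C₅ * (x + 1) ^ 2 * {M : Subgroup H | SameQ M M₀}.ncard := by
  classical
  obtain ⟨C₄, hC⟩ := types_le T hT hpoly
  refine ⟨C₄, fun x G hG hne => ?_⟩
  obtain ⟨R, hRG, hRpair, hRmax⟩ : ∃ R ⊆ G, (∀ M ∈ R, ∀ M' ∈ R, SameQ M M' → M = M') ∧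
      ∀ M ∈ G, ∃ M₀ ∈ R, SameQ M M₀ := by
    obtain ⟨R, hR, hmax⟩ := Finset.exists_max_image
      (G.powerset.filter fun R => ∀ M ∈ R, ∀ M' ∈ R, SameQ M M' → M = M') Finset.card
      ⟨∅, by simp⟩
    rw [Finset.mem_filter, Finset.mem_powerset] at hR
    refine ⟨R, hR.1, hR.2, fun M hM => ?_⟩
    by_contra hno
    push Not at hno
    have hMR : M ∉ R := fun h => by
      obtain ⟨A, hA⟩ := (hG M hM).1
      exact hno M h (sameQ_refl M hA.normal)
    have h1 := hmax (insert M R) (by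
      rw [Finset.mem_filter, Finset.mem_powerset]
      refine ⟨Finset.insert_subset hM hR.1, ?_⟩
      intro M₁ h₁ M₂ h₂ h12
      rcases Finset.mem_insert.1 h₁ with e1 | h1'
      · rcases Finset.mem_insert.1 h₂ with e2 | h2'
        · rw [e1, e2]
        · subst e1
          exact absurd h12 (hno M₂ h2')
      · rcases Finset.mem_insert.1 h₂ with e2 | h2'
        · subst e2
          exact absurd h12.symm (hno M₁ h1')
        · exact hR.2 M₁ h1' M₂ h2' h12)
    rw [Finset.card_insert_of_notMem hMR] at h1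
    omega
  have hRne : R.Nonempty := by
    obtain ⟨M, hM⟩ := hne
    obtain ⟨M₀, h, _⟩ := hRmax M hM
    exact ⟨M₀, h⟩
  have hidx : ∀ M ∈ G, M.index ≠ 0 := fun M hM => by
    obtain ⟨A, hA⟩ := (hG M hM).1
    exact hA.ne
  have hRcard : R.card ≤ C₄ * (x + 1) ^ 2 := by
    have hsub : R ⊆ (Finset.range x).biUnion fun e =>
        R.filter fun M => 2 ^ e ≤ M.index ∧ M.index < 2 ^ (e + 1) := by
      intro M hM
      have h0 := hidx M (hRG hM)
      have hx := (hG M (hRG hM)).2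
      rw [Finset.mem_biUnion]
      refine ⟨Nat.log 2 M.index, ?_, ?_⟩
      · rw [Finset.mem_range]
        exact Nat.log_lt_of_lt_pow h0 hx
      · rw [Finset.mem_filter]
        exact ⟨hM, Nat.pow_log_le_self 2 h0, Nat.lt_pow_succ_log_self (by norm_num) _⟩
    calc R.card ≤ _ := Finset.card_le_card hsub
      _ ≤ ∑ e ∈ Finset.range x,
          (R.filter fun M => 2 ^ e ≤ M.index ∧ M.index < 2 ^ (e + 1)).card :=
        Finset.card_biUnion_le
      _ ≤ ∑ e ∈ Finset.range x, C₄ * (x + 1) := by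
        apply Finset.sum_le_sum
        intro e he
        rw [Finset.mem_range] at he
        refine (hC e _ ?_ ?_).trans (Nat.mul_le_mul_left _ (by omega))
        · intro M hM
          rw [Finset.mem_filter] at hM
          exact ⟨(hG M (hRG hM.1)).1, hM.2⟩
        · intro M hM M' hM' h
          rw [Finset.mem_filter] at hM hM'
          exact hRpair M hM.1 M' hM'.1 h
      _ = x * (C₄ * (x + 1)) := by rw [Finset.sum_const, Finset.card_range, smul_eq_mul]
      _ ≤ C₄ * (x + 1) ^ 2 := by nlinarith [Nat.zero_le C₄, Nat.zero_le (C₄ * (x + 1))]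
  obtain ⟨M₀, hM₀, hmax⟩ := Finset.exists_max_image R
    (fun M₀ => {M : Subgroup H | SameQ M M₀}.ncard) hRne
  refine ⟨M₀, hRG hM₀, ?_⟩
  have hsub : G ⊆ R.biUnion fun M₁ => G.filter fun M => SameQ M M₁ := by
    intro M hM
    obtain ⟨M₁, h1, h2⟩ := hRmax M hM
    rw [Finset.mem_biUnion]
    exact ⟨M₁, h1, Finset.mem_filter.2 ⟨hM, h2⟩⟩
  calc G.card ≤ _ := Finset.card_le_card hsub
    _ ≤ ∑ M₁ ∈ R, (G.filter fun M => SameQ M M₁).card := Finset.card_biUnion_le
    _ ≤ ∑ M₁ ∈ R, {M : Subgroup H | SameQ M M₀}.ncard := by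
      apply Finset.sum_le_sum
      intro M₁ h1
      refine le_trans ?_ (hmax M₁ h1)
      rw [← Set.ncard_coe_finset]
      apply Set.ncard_le_ncard _ (sameQ_ncard T hT M₁ (hidx M₁ (hRG h1))).1
      intro M hM
      rw [Finset.mem_coe, Finset.mem_filter] at hM
      exact hM.2
    _ = R.card * {M : Subgroup H | SameQ M M₀}.ncard := by rw [Finset.sum_const, smul_eq_mul]
    _ ≤ C₄ * (x + 1) ^ 2 * {M : Subgroup H | SameQ M M₀}.ncard := Nat.mul_le_mul_right _ hRcard

end ALP
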