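import Pool.Agent.ALP.K14
import Pool.Agent.ALP.K15c

/-!
# [ALP-K16] levels exclude polynomial automorphic growth
-/

set_option autoImplicit false

namespace ALP

open AG ALG

theorem k16_index_lt {p N j : ℕ} (hp : 2 ≤ p) {m : ℕ} (h : m ≤ p ^ (j * N ^ 2)) :
    m < 2 ^ (j * (N ^ 2 * p) + 1) := by
  have h1 : p ≤ 2 ^ p := Nat.lt_two_pow_self.le
  have h2 : p ^ (j * N ^ 2) ≤ 2 ^ (j * (N ^ 2 * p)) := by
    calc p ^ (j * N ^ 2) ≤ (2 ^ p) ^ (j * N ^ 2) := Nat.pow_le_pow_left h1 _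
      _ = 2 ^ (j * (N ^ 2 * p)) := by rw [← pow_mul]; congr 1; ring
  have h3 : 2 ^ (j * (N ^ 2 * p)) < 2 ^ (j * (N ^ 2 * p) + 1) :=
    Nat.pow_lt_pow_right (by norm_num) (Nat.lt_succ_self _)
  omega

/-- at every high level there is a large isomorphism class of big quotients -/
theorem Levels.exists_big_class {H : Type*} [Group H] {T : Finset H} {D : Subgroup H} {p N C : ℕ}
    {K : ℕ → Finset (Subgroup H)} (h : Levels T D p N C K) (hpoly : PolyBdd (autGrowth T))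
    (k : ℕ) : ∃ j₀ : ℕ, ∀ j : ℕ, j₀ ≤ j → ∃ M₀ ∈ K j, (p ^ (N ^ 3)).factorial < M₀.index ∧
      j ^ k ≤ {M : Subgroup H | SameQ M M₀}.ncard := by
  obtain ⟨C₅, hC₅⟩ := exists_class T h.gen hpoly
  obtain ⟨j₁, hj₁⟩ := h.card_ge (k + 3)
  refine ⟨max (max j₁ 1) (C₅ * (N ^ 2 * p + 2) ^ 2), fun j hj => ?_⟩
  have hj1 : j₁ ≤ j := le_trans (le_trans (le_max_left _ _) (le_max_left _ _)) hj
  have hj2 : 1 ≤ j := le_trans (le_trans (le_max_right _ _) (le_max_left _ _)) hj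
  have hj3 : C₅ * (N ^ 2 * p + 2) ^ 2 ≤ j := le_trans (le_max_right _ _) hj
  have h1 : j ^ (k + 3) ≤ ((K j).filter fun M => (p ^ (N ^ 3)).factorial < M.index).card := by
    exact_mod_cast hj₁ j hj1
  have hne : ((K j).filter fun M => (p ^ (N ^ 3)).factorial < M.index).Nonempty := by
    rw [← Finset.card_pos]
    exact lt_of_lt_of_le (pow_pos hj2 _) h1
  obtain ⟨M₀, hM₀, hcard⟩ := hC₅ (j * (N ^ 2 * p) + 1)
    ((K j).filter fun M => (p ^ (N ^ 3)).factorial < M.index) (by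
      intro M hM
      rw [Finset.mem_filter] at hM
      refine ⟨h.mono j M hM.1, k16_index_lt h.prime.two_le ?_⟩
      exact (Nat.le_of_dvd (glc_pos p N j h.prime hj2) (h.dvd j hj2 M hM.1)).trans (glc_le p N j)) hne
  rw [Finset.mem_filter] at hM₀
  refine ⟨M₀, hM₀.1, hM₀.2, ?_⟩
  have h2 : C₅ * (j * (N ^ 2 * p) + 1 + 1) ^ 2 ≤ j ^ 3 := by
    calc C₅ * (j * (N ^ 2 * p) + 1 + 1) ^ 2 ≤ C₅ * (j * (N ^ 2 * p + 2)) ^ 2 := by
          refine Nat.mul_le_mul_left _ (Nat.pow_le_pow_left ?_ 2)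
          nlinarith
      _ = C₅ * (N ^ 2 * p + 2) ^ 2 * j ^ 2 := by ring
      _ ≤ j * j ^ 2 := Nat.mul_le_mul_right _ hj3
      _ = j ^ 3 := by ring
  have h3 : j ^ (k + 3) ≤ j ^ 3 * {M : Subgroup H | SameQ M M₀}.ncard :=
    (h1.trans hcard).trans (Nat.mul_le_mul_right _ h2)
  rw [pow_add, mul_comm] at h3
  exact Nat.le_of_mul_le_mul_left h3 (pow_pos hj2 3)

theorem main2 {H : Type*} [Group H] {T : Finset H} {D : Subgroup H} {p N C : ℕ}
    {K : ℕ → Finset (Subgroup H)} (h : Levels T D p N C K) : ¬ PolyBdd (autGrowth T) := by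
  classical
  intro hpoly
  have hpoly' := hpoly
  obtain ⟨Cp, d, hbd⟩ := hpoly
  obtain ⟨C₈, hC₈⟩ := arith_final Cp d T.card N p h.prime.two_le
  obtain ⟨k, hk⟩ : ∃ k : ℕ, C₈ < (k : ℝ) / 2 := by
    obtain ⟨k, hk⟩ := exists_nat_gt (2 * C₈)
    exact ⟨k, by linarith⟩
  obtain ⟨j₀, hj₀⟩ := h.exists_big_class hpoly' k
  obtain ⟨J₀, hJ₀⟩ := sum_log_primes (max (max j₀ N) 1)
  obtain ⟨J, hJ1, hJJ₀⟩ : ∃ J : ℕ, 1 ≤ J ∧ J₀ ≤ J := ⟨max 1 J₀, le_max_left _ _, le_max_right _ _⟩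
  have hsum := hJ₀ J hJJ₀
  obtain ⟨P, hP⟩ : ∃ P : Finset ℕ, P = (Finset.range (J + 1)).filter
    (fun j => j.Prime ∧ max (max j₀ N) 1 < j) := ⟨_, rfl⟩
  rw [← hP] at hsum
  have hPj : ∀ j ∈ P, j.Prime ∧ j₀ ≤ j ∧ N < j ∧ 1 ≤ j ∧ j ≤ J := by
    intro j hj
    rw [hP, Finset.mem_filter, Finset.mem_range, max_lt_iff, max_lt_iff] at hj
    refine ⟨hj.2.1, by omega, by omega, by omega, by omega⟩
  choose! M₀ hM₀K hM₀big hM₀card using hj₀
  have hM₀ : ∀ j ∈ P, M₀ j ∈ K j ∧ (p ^ (N ^ 3)).factorial < (M₀ j).index ∧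
      j ^ k ≤ {M : Subgroup H | SameQ M (M₀ j)}.ncard := by
    intro j hj
    exact ⟨hM₀K j (hPj j hj).2.1, hM₀big j (hPj j hj).2.1, hM₀card j (hPj j hj).2.1⟩
  have hmono : ∀ j ∈ P, IsMono (M₀ j) := fun j hj => h.mono j _ (hM₀ j hj).1
  have hdvd : ∀ j ∈ P, (M₀ j).index ∣ glc p N j := fun j hj =>
    h.dvd j (hPj j hj).2.2.2.1 _ (hM₀ j hj).1
  have hne0 : ∀ j ∈ P, (M₀ j).index ≠ 0 := fun j hj => by
    obtain ⟨A, hA⟩ := hmono j hj
    exact hA.ne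
  have hfin : ∀ j ∈ P, {M : Subgroup H | SameQ M (M₀ j)}.Finite := fun j hj =>
    (sameQ_ncard T h.gen (M₀ j) (hne0 j hj)).1
  let Fj : ℕ → Finset (Subgroup H) := fun j =>
    if hj : j ∈ P then (hfin j hj).toFinset else ∅
  have hFj : ∀ j ∈ P, ∀ M, M ∈ Fj j ↔ SameQ M (M₀ j) := by
    intro j hj M
    simp only [Fj, dif_pos hj, Set.Finite.mem_toFinset, Set.mem_ofPred_eq]
  have hFjcard : ∀ j ∈ P, (Fj j).card = {M : Subgroup H | SameQ M (M₀ j)}.ncard := by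
    intro j hj
    simp only [Fj, dif_pos hj]
    rw [Set.ncard_eq_toFinset_card _ (hfin j hj)]
  -- comparison of different levels
  have key : ∀ i ∈ P, ∀ j ∈ P, ∀ M M', SameQ M (M₀ i) → SameQ M' (M₀ j) → M' ≤ M → i = j := by
    intro i hi j hj M M' hM hM' hle
    by_contra hij
    have h1 : M.index ∣ glc p N i := by rw [hM.index_eq]; exact hdvd i hi
    have h2 : M.index ∣ glc p N j := by
      refine (Subgroup.index_dvd_of_le hle).trans ?_
      rw [hM'.index_eq]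
      exact hdvd j hj
    have h3 := (hM.isMono (hmono i hi)).index_le_of_common p N i j h.prime (hPj i hi).1 (hPj j hj).1
      hij (hPj i hi).2.2.1 (hPj j hj).2.2.1 h1 h2
    rw [hM.index_eq] at h3
    exact absurd (hM₀ i hi).2.1 (not_lt.2 h3)
  -- the family
  let 𝓕 : Finset (Subgroup H) := P.biUnion Fj
  have h𝓕 : ∀ M, M ∈ 𝓕 ↔ ∃ j ∈ P, SameQ M (M₀ j) := by
    intro M
    rw [Finset.mem_biUnion]
    constructor
    · rintro ⟨j, hj, hM⟩
      exact ⟨j, hj, (hFj j hj M).1 hM⟩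
    · rintro ⟨j, hj, hM⟩
      exact ⟨j, hj, (hFj j hj M).2 hM⟩
  let cls : Subgroup H → ℕ := fun M => if hM : ∃ j ∈ P, SameQ M (M₀ j) then hM.choose else 0
  have hcls : ∀ j ∈ P, ∀ M, SameQ M (M₀ j) → cls M = j := by
    intro j hj M hM
    have hex : ∃ j ∈ P, SameQ M (M₀ j) := ⟨j, hj, hM⟩
    simp only [cls, dif_pos hex]
    exact key _ hex.choose_spec.1 j hj M M hex.choose_spec.2 hM le_rfl
  have hindex : ∀ j ∈ P, (M₀ j).index ≤ p ^ (J * N ^ 2) := by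
    intro j hj
    refine ((Nat.le_of_dvd (glc_pos p N j h.prime (hPj j hj).2.2.2.1) (hdvd j hj)).trans
      (glc_le p N j)).trans ?_
    exact Nat.pow_le_pow_right h.prime.pos (Nat.mul_le_mul_right _ (hPj j hj).2.2.2.2)
  have hPcard : P.card ≤ J := by
    have h1 : P ⊆ Finset.Icc 1 J := by
      intro j hj
      rw [Finset.mem_Icc]
      exact ⟨(hPj j hj).2.2.2.1, (hPj j hj).2.2.2.2⟩
    calc P.card ≤ (Finset.Icc 1 J).card := Finset.card_le_card h1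
      _ = J := by rw [Nat.card_Icc]; omega
  have hgrowth := inv_growth T h.gen 𝓕 (by
      intro M hM
      obtain ⟨j, hj, hM⟩ := (h𝓕 M).1 hM
      exact hM.isMono (hmono j hj)) (by
      intro M hM M' hM' hle
      obtain ⟨i, hi, hM⟩ := (h𝓕 M).1 hM
      obtain ⟨j, hj, hM'⟩ := (h𝓕 M').1 hM'
      have hij := key i hi j hj M M' hM hM' hle
      subst hij
      refine eq_of_le_of_index_le hle ?_ ?_
      · rw [hM'.index_eq]
        exact hne0 i hi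
      · rw [hM'.index_eq, hM.index_eq])
    (p ^ (J * N ^ 2)) (J * p ^ (J * N ^ 2 * T.card)) (by
      intro M hM
      obtain ⟨j, hj, hM⟩ := (h𝓕 M).1 hM
      rw [hM.index_eq]
      exact hindex j hj) (by
      calc 𝓕.card ≤ ∑ j ∈ P, (Fj j).card := Finset.card_biUnion_le
        _ ≤ ∑ _j ∈ P, p ^ (J * N ^ 2 * T.card) := by
          refine Finset.sum_le_sum fun j hj => ?_
          rw [hFjcard j hj]
          refine (sameQ_ncard T h.gen (M₀ j) (hne0 j hj)).2.trans ?_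
          rw [pow_mul p]
          exact Nat.pow_le_pow_left (hindex j hj) _
        _ = P.card * p ^ (J * N ^ 2 * T.card) := by rw [Finset.sum_const, smul_eq_mul]
        _ ≤ J * p ^ (J * N ^ 2 * T.card) := Nat.mul_le_mul_right _ hPcard) P cls (by
      intro φ M hM
      obtain ⟨j, hj, hM⟩ := (h𝓕 M).1 hM
      have hMn : M.Normal := by
        obtain ⟨h2, _⟩ := hM
        exact h2
      have h1 : SameQ (M.map φ.toMonoidHom) (M₀ j) := (sameQ_map φ M hMn).trans hM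
      refine ⟨(h𝓕 _).2 ⟨j, hj, h1⟩, ?_⟩
      rw [hcls j hj _ h1, hcls j hj M hM])
  -- the lower bound
  have hlow : ∏ j ∈ P, j ^ k ≤ ∏ i ∈ P, ((𝓕.filter fun M => cls M = i).card + 1) := by
    refine Finset.prod_le_prod' fun j hj => ?_
    refine ((hM₀ j hj).2.2.trans ?_).trans (Nat.le_succ _)
    rw [← hFjcard j hj]
    refine Finset.card_le_card fun M hM => ?_
    rw [Finset.mem_filter]
    have h1 := (hFj j hj M).1 hM
    exact ⟨(h𝓕 M).2 ⟨j, hj, h1⟩, hcls j hj M h1⟩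
  have hup : ∏ j ∈ P, j ^ k ≤ Cp * (4 * (J * p ^ (J * N ^ 2 * T.card)) ^ 3 *
      (p ^ (J * N ^ 2)) ^ 3 + 1) ^ d := (hlow.trans hgrowth).trans (hbd _)
  have hup' : ((∏ j ∈ P, j ^ k : ℕ) : ℝ) ≤ Real.exp (C₈ * J) :=
    le_trans (by exact_mod_cast hup) (hC₈ J hJ1)
  have hlog : Real.log ((∏ j ∈ P, j ^ k : ℕ) : ℝ) ≤ C₈ * J := by
    have h1 : (0 : ℝ) < ((∏ j ∈ P, j ^ k : ℕ) : ℝ) := by
      have h2 : 0 < ∏ j ∈ P, j ^ k := Finset.prod_pos fun j hj => pow_pos (hPj j hj).2.2.2.1 k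
      exact_mod_cast h2
    rw [← Real.log_exp (C₈ * J)]
    exact Real.log_le_log h1 hup'
  have hlog2 : Real.log ((∏ j ∈ P, j ^ k : ℕ) : ℝ) = k * ∑ j ∈ P, Real.log j := by
    push_cast
    rw [Real.log_prod (fun j hj => ?_), Finset.mul_sum]
    · refine Finset.sum_congr rfl fun j _ => ?_
      rw [Real.log_pow]
    · have h2 : (0 : ℝ) < (j : ℝ) := by exact_mod_cast (hPj j hj).2.2.2.1
      positivity
  rw [hlog2] at hlog
  have hJpos : (0 : ℝ) < J := by exact_mod_cast hJ1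
  have h5 : (k : ℝ) * (J / 2) ≤ k * ∑ j ∈ P, Real.log j :=
    mul_le_mul_of_nonneg_left hsum (Nat.cast_nonneg k)
  nlinarith

end ALP
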