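import Pool.Agent.ALG.B4
import Pool.Agent.ALP.K1

/-!
# [ALP-K2] killing finitely many quotients
-/

set_option autoImplicit false

namespace ALP

open AG ALG

/-- PROOF. `ALG.isolate` with `φ = QuotientGroup.mk' M` (`Λ = H ⧸ M`), `D = A.map φ` (`Mono.map_perfect`, `φ` is surjective), `ι = S'` (the finite set, as a type), `Λ' M' = H ⧸ M'`, `ψ M' = QuotientGroup.mk' M'`
(the normality of `M'` is `hn`), hypothesis `h` by `Mono.hit`, `b = Q`, `M = m`; `Nat.card (H ⧸ M) = M.index`, and the quotients are finite because the indices are not `0`. Take `t = φ a`. -/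
theorem kill {H : Type*} [Group H] (T : Finset H) (hT : Subgroup.closure (T : Set H) = ⊤)
    {M A : Subgroup H} (hM : Mono M A) (Q m : ℕ) (hQ : M.index ≤ Q) (S' : Finset (Subgroup H))
    (hn : ∀ M' ∈ S', M'.Normal) (h0 : ∀ M' ∈ S', M'.index ≠ 0) (hQ' : ∀ M' ∈ S', M'.index ≤ Q)
    (hle : ∀ M' ∈ S', ¬ M' ≤ M) (hm : S'.card ≤ m) (hm1 : 1 ≤ m) (a : H) (ha : a ∈ A) :
    ∃ g ∈ ball T (4 * m ^ 2 * Q ^ 3), (∀ M' ∈ S', g ∈ M') ∧ a⁻¹ * g ∈ M := by
  have hMn := hM.normal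
  have hfin : Finite (H ⧸ M) := Subgroup.index_ne_zero_iff_finite.1 hM.ne
  have hninst : ∀ i : {M' // M' ∈ S'}, (i.1).Normal := fun i => hn i.1 i.2
  have hfinst : ∀ i : {M' // M' ∈ S'}, Finite (H ⧸ i.1) := fun i =>
    Subgroup.index_ne_zero_iff_finite.1 (h0 i.1 i.2)
  obtain ⟨g, hg, hg1, hg2⟩ := ALG.isolate T hT (QuotientGroup.mk' M) (A.map (QuotientGroup.mk' M))
    hM.map_perfect
    (by
      rintro _ ⟨x, _, rfl⟩
      exact ⟨x, rfl⟩)
    (ι := {M' // M' ∈ S'}) (fun i => H ⧸ i.1) (fun i => QuotientGroup.mk' i.1)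
    (fun i t ht => hM.hit (M' := i.1) (hle i.1 i.2) t ht) Q m hQ (fun i => hQ' i.1 i.2)
    (by
      rw [Nat.card_eq_fintype_card, Fintype.card_coe]
      exact hm) hm1 (QuotientGroup.mk' M a) ⟨a, ha, rfl⟩
  refine ⟨g, hg, ?_, ?_⟩
  · intro M' hM'
    have h1 := hg1 ⟨M', hM'⟩
    have h2 : (M' : Subgroup H).Normal := hn M' hM'
    exact (QuotientGroup.eq_one_iff g).1 h1
  · exact QuotientGroup.eq.1 hg2.symm

end ALP
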