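import Pool.Agent.ALP.K2

/-!
# [ALP-K3] many elements in short balls
-/

set_option autoImplicit false

namespace ALP

open AG ALG

/-- PROOF. `M'.index = M.index * [M : M']`, so the indices are equal and `[M : M'] = 1` (`Subgroup.relIndex_mul_index`, `Subgroup.relIndex_eq_one`). -/
theorem eq_of_le_of_index_le {H : Type*} [Group H] {M M' : Subgroup H} (h : M' ≤ M)
    (h0 : M'.index ≠ 0) (h1 : M'.index ≤ M.index) : M' = M := by
  have h2 : M'.relIndex M * M.index = M'.index := Subgroup.relIndex_mul_index h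
  have h3 : M.index ≠ 0 := by
    rintro h4
    rw [h4, mul_zero] at h2
    exact h0 h2.symm
  have h5 : M'.relIndex M ≤ 1 := by
    by_contra hc
    have h8 : 2 * M.index ≤ M'.relIndex M * M.index := Nat.mul_le_mul_right _ (by omega)
    omega
  have h6 : M'.relIndex M ≠ 0 := by
    rintro h4
    rw [h4, zero_mul] at h2
    exact h0 h2.symm
  have h7 : M'.relIndex M = 1 := by omega
  exact le_antisymm h (Subgroup.relIndex_eq_one.mp h7)

/-- PROOF. Induction over `𝓕` (`Finset.induction_on_max_value` for the index): `𝓕 = insert M 𝓕'` with `M'.index ≤ M.index` for all `M' ∈ 𝓕'`. Then `¬ M' ≤ M` for `M' ∈ 𝓕'` (otherwise `M' = M` by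
`eq_of_le_of_index_le`, but `M ∉ 𝓕'`). Let `W'` be the set for `𝓕'` (at most `𝓕'.card * _` long), and `R` a set of representatives in `A M` of the cosets of `M` in `A M` (`M.relIndex (A M)` many). For `a ∈ R` take `g_a` from `kill` with
`S' = 𝓕'`: `g_a ∈ M'` for all `M' ∈ 𝓕'` and `g_a ≡ a` mod `M`. `W = {w * g_a}`. If `w g_a ≡ w' g_a'` modulo all elements of `𝓕` then modulo `M' ∈ 𝓕'` (normal, contains the `g_a`): `w ≡ w'`, so `w = w'`;
then `g_a ≡ g_a'` mod `M`, so `a ≡ a'`, `a = a'`. -/
theorem exists_many {H : Type*} [Group H] (T : Finset H) (hT : Subgroup.closure (T : Set H) = ⊤)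
    (𝓕 : Finset (Subgroup H)) (A : Subgroup H → Subgroup H) (hA : ∀ M ∈ 𝓕, Mono M (A M))
    (Q m : ℕ) (hQ : ∀ M ∈ 𝓕, M.index ≤ Q) (hm : 𝓕.card ≤ m) (hm1 : 1 ≤ m) :
    ∃ W : Finset H, (W : Set H) ⊆ ball T (𝓕.card * (4 * m ^ 2 * Q ^ 3)) ∧
      (∀ x ∈ W, ∀ y ∈ W, (∀ M ∈ 𝓕, x⁻¹ * y ∈ M) → x = y) ∧
      ∏ M ∈ 𝓕, M.relIndex (A M) ≤ W.card := by
  classical
  revert hA hQ hm
  induction 𝓕 using Finset.induction_on_max_value (fun M : Subgroup H => M.index) with
  | empty =>
    intro _ _ _
    refine ⟨{1}, ?_, ?_, ?_⟩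
    · intro x hx
      have hx1 : x = 1 := by simpa using hx
      rw [hx1]
      exact one_mem_ball _ _
    · intro x hx y hy _
      rw [Finset.mem_singleton] at hx hy
      rw [hx, hy]
    · simp
  | insert M s hMs hmax ih =>
    intro hA hQ hm
    have hcard : (insert M s).card = s.card + 1 := Finset.card_insert_of_notMem hMs
    obtain ⟨W', hW1, hW2, hW3⟩ := ih (fun K hK => hA K (Finset.mem_insert_of_mem hK))
      (fun K hK => hQ K (Finset.mem_insert_of_mem hK)) (by omega)
    have hMm : Mono M (A M) := hA M (Finset.mem_insert_self _ _)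
    have hne : M.index ≠ 0 := hMm.ne
    have hMn : M.Normal := hMm.normal
    have hrel : M.relIndex (A M) ≠ 0 := by
      have h2 : M.relIndex (A M) * (A M).index = M.index := Subgroup.relIndex_mul_index hMm.le
      intro h3
      rw [h3, zero_mul] at h2
      exact hne h2.symm
    have hfin : Finite ((A M) ⧸ M.subgroupOf (A M)) := by
      apply Nat.finite_of_card_ne_zero
      exact hrel
    have hcardq : Nat.card ((A M) ⧸ M.subgroupOf (A M)) = M.relIndex (A M) := rfl
    have := Fintype.ofFinite ((A M) ⧸ M.subgroupOf (A M))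
    have hk : ∀ q : (A M) ⧸ M.subgroupOf (A M), ∃ g ∈ ball T (4 * m ^ 2 * Q ^ 3),
        (∀ M' ∈ s, g ∈ M') ∧ ((q.out : A M) : H)⁻¹ * g ∈ M := by
      intro q
      refine kill T hT hMm Q m (hQ M (Finset.mem_insert_self _ _)) s ?_ ?_ ?_ ?_ (by omega) hm1 _
        (q.out).2
      · intro M' hM'
        exact (hA M' (Finset.mem_insert_of_mem hM')).normal
      · intro M' hM'
        exact (hA M' (Finset.mem_insert_of_mem hM')).ne
      · intro M' hM'
        exact hQ M' (Finset.mem_insert_of_mem hM')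
      · intro M' hM' hle
        have h4 := eq_of_le_of_index_le hle (hA M' (Finset.mem_insert_of_mem hM')).ne
          (hmax M' hM')
        rw [h4] at hM'
        exact hMs hM'
    choose g hg1 hg2 hg3 using hk
    have hinj : ∀ w ∈ W', ∀ w' ∈ W', ∀ q q' : (A M) ⧸ M.subgroupOf (A M),
        (∀ K ∈ insert M s, (w * g q)⁻¹ * (w' * g q') ∈ K) → w = w' ∧ q = q' := by
      intro w hw w' hw' q q' h
      have hww : w = w' := by
        apply hW2 w hw w' hw'
        intro K hK
        have h5 := h K (Finset.mem_insert_of_mem hK)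
        have h6 : w⁻¹ * w' = g q * ((w * g q)⁻¹ * (w' * g q')) * (g q')⁻¹ := by group
        rw [h6]
        exact K.mul_mem (K.mul_mem (hg2 q K hK) h5) (K.inv_mem (hg2 q' K hK))
      refine ⟨hww, ?_⟩
      subst hww
      have h5 := h M (Finset.mem_insert_self _ _)
      have h6 : (w * g q)⁻¹ * (w * g q') = (g q)⁻¹ * g q' := by group
      rw [h6] at h5
      have h7 : ((q.out : A M) : H)⁻¹ * ((q'.out : A M) : H) ∈ M := by
        have h8 : ((q.out : A M) : H)⁻¹ * ((q'.out : A M) : H)
            = (((q.out : A M) : H)⁻¹ * g q) * ((g q)⁻¹ * g q') *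
              (((q'.out : A M) : H)⁻¹ * g q')⁻¹ := by group
        rw [h8]
        exact M.mul_mem (M.mul_mem (hg3 q) h5) (M.inv_mem (hg3 q'))
      rw [← QuotientGroup.out_eq' q, ← QuotientGroup.out_eq' q']
      rw [QuotientGroup.eq]
      rw [Subgroup.mem_subgroupOf]
      simpa using h7
    refine ⟨(W' ×ˢ (Finset.univ : Finset ((A M) ⧸ M.subgroupOf (A M)))).image
      (fun p => p.1 * g p.2), ?_, ?_, ?_⟩
    · intro x hx
      rw [Finset.mem_coe, Finset.mem_image] at hx
      obtain ⟨⟨w, q⟩, hp, rfl⟩ := hx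
      rw [Finset.mem_product] at hp
      have h5 := mul_mem_ball (hW1 (Finset.mem_coe.mpr hp.1)) (hg1 q)
      refine ball_mono T (le_of_eq ?_) h5
      rw [hcard]
      ring
    · intro x hx y hy hxy
      rw [Finset.mem_image] at hx hy
      obtain ⟨⟨w, q⟩, hp, rfl⟩ := hx
      obtain ⟨⟨w', q'⟩, hp', rfl⟩ := hy
      rw [Finset.mem_product] at hp hp'
      obtain ⟨h1, h2⟩ := hinj w hp.1 w' hp'.1 q q' hxy
      simp only at h1 h2 ⊢
      rw [h1, h2]
    · rw [Finset.card_image_of_injOn, Finset.card_product, Finset.prod_insert hMs,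
        Finset.card_univ, ← Nat.card_eq_fintype_card, hcardq, mul_comm]
      · exact Nat.mul_le_mul_right _ hW3
      · intro p hp p' hp' hpp
        have hp1 := (Finset.mem_product.mp (Finset.mem_coe.mp hp)).1
        have hp1' := (Finset.mem_product.mp (Finset.mem_coe.mp hp')).1
        obtain ⟨h1, h2⟩ := hinj p.1 hp1 p'.1 hp1' p.2 p'.2 (fun K _ => by
          have h3 : p.1 * g p.2 = p'.1 * g p'.2 := hpp
          rw [h3, inv_mul_cancel]
          exact K.one_mem)
        exact Prod.ext h1 h2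

end ALP
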