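import Pool.Agent.ALP.K3

/-!
# [ALP-K3b] many cosets in short balls
-/

set_option autoImplicit false

namespace ALP

open AG ALG

/-- PROOF. The set `W` of `exists_many` is contained in the ball (`ball_mono`) and `x ↦ x D` is injective on it (`x⁻¹ y ∈ D ≤ M` for all `M ∈ 𝓕`), so `∏ ≤ W.card ≤ gam`; the image of the ball is finite. -/
theorem prod_le_gam {H : Type*} [Group H] (T : Finset H) (hT : Subgroup.closure (T : Set H) = ⊤)
    (𝓕 : Finset (Subgroup H)) (A : Subgroup H → Subgroup H) (hA : ∀ M ∈ 𝓕, Mono M (A M))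
    (Q m : ℕ) (hQ : ∀ M ∈ 𝓕, M.index ≤ Q) (hm : 𝓕.card ≤ m) (hm1 : 1 ≤ m) (D : Subgroup H)
    (hD : ∀ M ∈ 𝓕, D ≤ M) :
    ∏ M ∈ 𝓕, M.relIndex (A M) ≤ gam T D (4 * m ^ 3 * Q ^ 3) := by
  classical
  obtain ⟨W, hW1, hW2, hW3⟩ := exists_many T hT 𝓕 A hA Q m hQ hm hm1
  refine hW3.trans ?_
  have h1 : 𝓕.card * (4 * m ^ 2 * Q ^ 3) ≤ 4 * m ^ 3 * Q ^ 3 := by
    calc 𝓕.card * (4 * m ^ 2 * Q ^ 3) ≤ m * (4 * m ^ 2 * Q ^ 3) := Nat.mul_le_mul_right _ hm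
      _ = _ := by ring
  have h2 : (W : Set H) ⊆ ball T (4 * m ^ 3 * Q ^ 3) := hW1.trans (ball_mono T h1)
  have hinj : Set.InjOn (fun h : H => (h : H ⧸ D)) (W : Set H) := by
    intro x hx y hy hxy
    refine hW2 x hx y hy fun M hM => hD M hM ?_
    exact QuotientGroup.eq.1 hxy
  unfold gam
  rw [← Set.ncard_coe_finset, ← Set.ncard_image_of_injOn hinj]
  exact Set.ncard_le_ncard (Set.image_mono h2) ((ball_finite T _).image _)

end ALP
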