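import Pool.Agent.ALP.K1

/-!
# [ALP-K4] the index is bounded by the size of the smallest normal subgroup
-/

set_option autoImplicit false

namespace ALP

open AG ALG

/-- PROOF. Choose `s` with `2 ^ s.card ≤ Nat.card (closure s)` and `closure s` of maximal size. If `g ∉ closure s` then `closure s` is a proper subgroup of `closure (insert g s)`, whose order is at least twice as large. -/
theorem exists_gens (V : Type*) [Group V] [Finite V] :
    ∃ s : Finset V, Subgroup.closure (s : Set V) = ⊤ ∧ 2 ^ s.card ≤ Nat.card V := by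
  classical
  have key : ∀ n : ℕ, ∃ s : Finset V, 2 ^ s.card ≤ Nat.card (Subgroup.closure (s : Set V)) ∧
      (Subgroup.closure (s : Set V) = ⊤ ∨ n ≤ Nat.card (Subgroup.closure (s : Set V))) := by
    intro n
    induction n with
    | zero =>
      refine ⟨∅, ?_, Or.inr (Nat.zero_le _)⟩
      rw [Finset.card_empty, pow_zero]
      exact Nat.succ_le_of_lt Nat.card_pos
    | succ n ih =>
      obtain ⟨s, hs1, hs2⟩ := ih
      by_cases htop : Subgroup.closure (s : Set V) = ⊤
      · exact ⟨s, hs1, Or.inl htop⟩
      · have hs3 : n ≤ Nat.card (Subgroup.closure (s : Set V)) := by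
          rcases hs2 with h | h
          · exact absurd h htop
          · exact h
        obtain ⟨g, hg⟩ : ∃ g : V, g ∉ Subgroup.closure (s : Set V) := by
          by_contra hc
          push Not at hc
          exact htop ((Subgroup.eq_top_iff' _).mpr hc)
        have hle : Subgroup.closure (s : Set V)
            ≤ Subgroup.closure ((insert g s : Finset V) : Set V) := by
          apply Subgroup.closure_mono
          rw [Finset.coe_insert]
          exact Set.subset_insert _ _
        have hgs : g ∉ s := fun h => hg (Subgroup.subset_closure (Finset.mem_coe.mpr h))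
        have hgm : g ∈ Subgroup.closure ((insert g s : Finset V) : Set V) :=
          Subgroup.subset_closure (Finset.mem_coe.mpr (Finset.mem_insert_self _ _))
        have hlt : Nat.card (Subgroup.closure (s : Set V)) * 2
            ≤ Nat.card (Subgroup.closure ((insert g s : Finset V) : Set V)) := by
          obtain ⟨c, hc⟩ := Subgroup.card_dvd_of_le hle
          have hpos : 0 < Nat.card (Subgroup.closure ((insert g s : Finset V) : Set V)) :=
            Nat.card_pos
          rw [hc]
          apply Nat.mul_le_mul_left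
          rcases Nat.lt_or_ge c 2 with h | h
          · exfalso
            interval_cases c
            · rw [hc, mul_zero] at hpos
              exact lt_irrefl _ hpos
            · rw [mul_one] at hc
              have h1 := Subgroup.eq_of_le_of_card_ge hle (le_of_eq hc)
              rw [← h1] at hgm
              exact hg hgm
          · exact h
        have hpos2 : 0 < Nat.card (Subgroup.closure (s : Set V)) := Nat.card_pos
        refine ⟨insert g s, ?_, Or.inr ?_⟩
        · rw [Finset.card_insert_of_notMem hgs, pow_succ]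
          exact le_trans (Nat.mul_le_mul_right 2 hs1) hlt
        · omega
  obtain ⟨s, hs1, hs2⟩ := key (Nat.card V + 1)
  have h1 : Nat.card (Subgroup.closure (s : Set V)) ≤ Nat.card V :=
    Nat.card_le_card_of_injective _ Subtype.val_injective
  rcases hs2 with h | h
  · exact ⟨s, h, le_trans hs1 h1⟩
  · omega

/-- PROOF. `A ≠ M` by `nonab` (a commutator of elements of `M` is in `M`), and `M` has finite index. -/
theorem Mono.two_le {H : Type*} [Group H] {M A : Subgroup H} (h : Mono M A) :
    2 ≤ M.relIndex A := by
  have h2 : M.relIndex A * A.index = M.index := Subgroup.relIndex_mul_index h.le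
  have h3 : M.relIndex A ≠ 0 := by
    intro h3
    rw [h3, zero_mul] at h2
    exact h.ne h2.symm
  have h4 : M.relIndex A ≠ 1 := by
    intro h4
    have h5 : A ≤ M := Subgroup.relIndex_eq_one.mp h4
    obtain ⟨x, hx, y, hy, hxy⟩ := h.nonab
    exact hxy (M.mul_mem (M.mul_mem (M.mul_mem (h5 hx) (h5 hy)) (M.inv_mem (h5 hx)))
      (M.inv_mem (h5 hy)))
  omega

theorem k4_card {H : Type*} [Group H] {M A : Subgroup H} [M.Normal] :
    Nat.card (A.map (QuotientGroup.mk' M)) = M.relIndex A := by
  have h1 := Subgroup.index_ker ((QuotientGroup.mk' M).comp A.subtype)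
  have h2 : ((QuotientGroup.mk' M).comp A.subtype).range = A.map (QuotientGroup.mk' M) := by
    rw [MonoidHom.range_comp, Subgroup.range_subtype]
  have h3 : ((QuotientGroup.mk' M).comp A.subtype).ker = M.subgroupOf A := by
    ext x
    rw [MonoidHom.mem_ker, Subgroup.mem_subgroupOf]
    exact QuotientGroup.eq_one_iff (x : H)
  rw [h2, h3] at h1
  exact h1.symm

/-- PROOF. `α = M.relIndex A`. By `exists_gens` for the group `A ⧸ M.subgroupOf A` (or the subgroup `A.map (mk' M)` of `H ⧸ M`) of order `α` it is generated by `r` elements with `2 ^ r ≤ α`, so `r ≤ log₂ α`, represented by `a_1, ..., a_r ∈ A`. The map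
`H ⧸ M → (A.map (mk' M)) ^ r`, `h ↦ (h a_i h⁻¹)_i`, is injective: if `h, h'` have the same image then `h⁻¹ h'` centralizes the `a_i` mod `M`, so all of `A` mod `M`, so it is in `M` by `Mono.centralizer`. So `M.index ≤ α ^ r`. -/
theorem Mono.index_le {H : Type*} [Group H] {M A : Subgroup H} (h : Mono M A) :
    M.index ≤ (M.relIndex A) ^ Nat.log 2 (M.relIndex A) := by
  classical
  have hMn : M.Normal := h.normal
  have hAn : A.Normal := h.normalA
  have hcard : Nat.card (A.map (QuotientGroup.mk' M)) = M.relIndex A := k4_card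
  have hVn : (A.map (QuotientGroup.mk' M)).Normal :=
    Subgroup.Normal.map hAn _ (QuotientGroup.mk'_surjective M)
  have h2 := h.two_le
  have hfin : Finite (A.map (QuotientGroup.mk' M)) := by
    apply Nat.finite_of_card_ne_zero
    rw [hcard]
    omega
  obtain ⟨s, hs1, hs2⟩ := exists_gens (A.map (QuotientGroup.mk' M))
  rw [hcard] at hs2
  have hlog : s.card ≤ Nat.log 2 (M.relIndex A) := Nat.le_log_of_pow_le (by norm_num) hs2
  set Φ : (H ⧸ M) → (s → A.map (QuotientGroup.mk' M)) := fun x v =>
    ⟨x * (v : A.map (QuotientGroup.mk' M)) * x⁻¹, hVn.conj_mem _ (v : A.map (QuotientGroup.mk' M)).2 x⟩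
    with hΦ
  have hinj : Function.Injective Φ := by
    intro x y hxy
    obtain ⟨a, rfl⟩ := QuotientGroup.mk'_surjective M x
    obtain ⟨b, rfl⟩ := QuotientGroup.mk'_surjective M y
    have hc : ∀ v : A.map (QuotientGroup.mk' M),
        QuotientGroup.mk' M (b⁻¹ * a) * (v : H ⧸ M) = (v : H ⧸ M) * QuotientGroup.mk' M (b⁻¹ * a) := by
      intro v
      have hv : v ∈ Subgroup.closure (s : Set (A.map (QuotientGroup.mk' M))) := by
        rw [hs1]
        exact Subgroup.mem_top v
      induction hv using Subgroup.closure_induction with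
      | mem v hv =>
        have h3 := congrFun hxy ⟨v, Finset.mem_coe.mp hv⟩
        have h4 := congrArg Subtype.val h3
        have h5 : QuotientGroup.mk' M a * (v : H ⧸ M) * (QuotientGroup.mk' M a)⁻¹
            = QuotientGroup.mk' M b * (v : H ⧸ M) * (QuotientGroup.mk' M b)⁻¹ := h4
        rw [map_mul, map_inv]
        rw [mul_inv_eq_iff_eq_mul] at h5
        rw [mul_assoc, h5]
        group
      | one => simp
      | mul u w _ _ hu hw =>
        rw [Subgroup.coe_mul, ← mul_assoc, hu, mul_assoc, hw, mul_assoc]
      | inv u _ hu =>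
        rw [Subgroup.coe_inv]
        rw [eq_inv_mul_iff_mul_eq, ← mul_assoc, ← hu, mul_inv_cancel_right]
    have hg : b⁻¹ * a ∈ M := by
      apply h.centralizer
      intro a' ha'
      have h3 := hc ⟨QuotientGroup.mk' M a', Subgroup.mem_map_of_mem _ ha'⟩
      rw [← QuotientGroup.eq_one_iff]
      have h4 : QuotientGroup.mk' M (b⁻¹ * a) * QuotientGroup.mk' M a'
          = QuotientGroup.mk' M a' * QuotientGroup.mk' M (b⁻¹ * a) := h3
      have h5 : QuotientGroup.mk' M (b⁻¹ * a * a' * (b⁻¹ * a)⁻¹ * a'⁻¹) = 1 := by
        rw [map_mul, map_mul, map_mul, map_inv, map_inv, h4, mul_inv_cancel_right, mul_inv_cancel]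
      exact h5
    have h6 : QuotientGroup.mk' M b = QuotientGroup.mk' M a := by
      rw [QuotientGroup.mk'_apply, QuotientGroup.mk'_apply]
      exact QuotientGroup.eq.mpr hg
    exact h6.symm
  have hle := Nat.card_le_card_of_injective Φ hinj
  rw [Nat.card_fun] at hle
  rw [hcard] at hle
  have h7 : Nat.card s = s.card := by
    rw [Nat.card_eq_fintype_card, Fintype.card_coe]
  rw [h7] at hle
  calc M.index = Nat.card (H ⧸ M) := rfl
    _ ≤ M.relIndex A ^ s.card := hle
    _ ≤ M.relIndex A ^ Nat.log 2 (M.relIndex A) := Nat.pow_le_pow_right (by omega) hlog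

/-- PROOF. Logarithm of `index_le`: `log (index) ≤ ⌊log₂ α⌋ * log α ≤ (log α / log 2) * log α`. So `(log index)² ≤ log index * (log α)² / log 2 ≤ J * (log α)²`. -/
theorem Mono.log_index_le {H : Type*} [Group H] {M A : Subgroup H} (h : Mono M A) (J : ℝ)
    (hJ : Real.log M.index ≤ J * Real.log 2) (s : ℝ) (hs0 : 0 ≤ s) (hs : J ≤ s ^ 2) :
    Real.log M.index ≤ s * Real.log (M.relIndex A) := by
  have h2 := h.two_le
  have h3 := h.index_le
  have hne := h.ne
  have hl2 : 0 < Real.log 2 := Real.log_pos (by norm_num)
  have hL0 : 0 ≤ Real.log M.index := Real.log_nonneg (by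
    exact_mod_cast Nat.one_le_iff_ne_zero.mpr hne)
  have ha0 : 0 ≤ Real.log (M.relIndex A) := Real.log_nonneg (by
    exact_mod_cast (le_trans (by norm_num) h2 : 1 ≤ M.relIndex A))
  have hL1 : Real.log M.index ≤ (Nat.log 2 (M.relIndex A) : ℝ) * Real.log (M.relIndex A) := by
    rw [← Real.log_pow]
    apply Real.log_le_log
    · exact_mod_cast Nat.pos_of_ne_zero hne
    · exact_mod_cast h3
  have hlog : (Nat.log 2 (M.relIndex A) : ℝ) * Real.log 2 ≤ Real.log (M.relIndex A) := by
    rw [← Real.log_pow]
    apply Real.log_le_log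
    · positivity
    · exact_mod_cast Nat.pow_log_le_self 2 (by omega)
  have h4 : Real.log M.index * Real.log 2 ≤ Real.log (M.relIndex A) ^ 2 := by
    calc Real.log M.index * Real.log 2
        ≤ ((Nat.log 2 (M.relIndex A) : ℝ) * Real.log (M.relIndex A)) * Real.log 2 :=
          mul_le_mul_of_nonneg_right hL1 hl2.le
      _ = ((Nat.log 2 (M.relIndex A) : ℝ) * Real.log 2) * Real.log (M.relIndex A) := by ring
      _ ≤ Real.log (M.relIndex A) * Real.log (M.relIndex A) :=
          mul_le_mul_of_nonneg_right hlog ha0
      _ = Real.log (M.relIndex A) ^ 2 := by ring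
  have h5 : Real.log M.index ^ 2 ≤ (s * Real.log (M.relIndex A)) ^ 2 := by
    have hJ' : Real.log M.index ≤ s ^ 2 * Real.log 2 :=
      le_trans hJ (mul_le_mul_of_nonneg_right hs hl2.le)
    calc Real.log M.index ^ 2 = Real.log M.index * Real.log M.index := by ring
      _ ≤ Real.log M.index * (s ^ 2 * Real.log 2) := mul_le_mul_of_nonneg_left hJ' hL0
      _ = s ^ 2 * (Real.log M.index * Real.log 2) := by ring
      _ ≤ s ^ 2 * Real.log (M.relIndex A) ^ 2 := mul_le_mul_of_nonneg_left h4 (sq_nonneg s)
      _ = (s * Real.log (M.relIndex A)) ^ 2 := by ring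
  exact (pow_le_pow_iff_left₀ hL0 (mul_nonneg hs0 ha0) (by norm_num)).mp h5

end ALP
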