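import Pool.Agent.ALP.K1

/-!
# [ALP-K5] groups without normal p-subgroups
-/

set_option autoImplicit false

namespace ALP

open AG ALG

/-- PROOF. `U = H ⧸ M` has order `p ^ β * b`. It has a subgroup `P` of order `p ^ β` (`Sylow.exists_subgroup_card_pow_prime`), of index `b`. The normal core of `P` is a `p`-group, so it is solvable (nilpotent); its preimage `X` in `H` is normal and contains
`M`; if it is not `M` then `A ≤ X` by `min`, but `A` is perfect modulo `M` (`Mono.map_perfect`) and nontrivial modulo `M`, while the image of `X` is solvable: contradiction (or use `Mono.dser_not_le` for `X`: some `dser X k ≤ M`). So the core is trivial,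
and `U` acts faithfully on `U ⧸ P` (`Subgroup.normalCore_eq_ker`), `Nat.card U ≤ b!`. -/
theorem Mono.index_le_factorial {H : Type*} [Group H] {M A : Subgroup H} (h : Mono M A) (p : ℕ)
    (hp : p.Prime) (β b : ℕ) (hb : M.index = p ^ β * b) : M.index ≤ b.factorial := by
  classical
  have hMn : M.Normal := h.normal
  have hfp : Fact p.Prime := ⟨hp⟩
  have hcU : Nat.card (H ⧸ M) = M.index := rfl
  have hfin : Finite (H ⧸ M) := Nat.finite_of_card_ne_zero (by rw [hcU]; exact h.ne)
  obtain ⟨P, hP⟩ := Sylow.exists_subgroup_card_pow_prime (G := H ⧸ M) p (n := β)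
    (by rw [hcU, hb]; exact dvd_mul_right _ _)
  have hPi : P.index = b := by
    have h1 := P.card_mul_index
    rw [hP, hcU, hb] at h1
    exact Nat.eq_of_mul_eq_mul_left (pow_pos hp.pos β) h1
  have hPp : IsPGroup p P := IsPGroup.of_card hP
  have hcore : P.normalCore = ⊥ := by
    by_contra hne
    have hX : (P.normalCore.comap (QuotientGroup.mk' M)).Normal :=
      Subgroup.Normal.comap (Subgroup.normalCore_normal P) _
    have hMX : M ≤ P.normalCore.comap (QuotientGroup.mk' M) := by
      intro m hm
      rw [Subgroup.mem_comap]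
      have h1 : QuotientGroup.mk' M m = 1 := (QuotientGroup.eq_one_iff m).mpr hm
      rw [h1]
      exact Subgroup.one_mem _
    have hXM : P.normalCore.comap (QuotientGroup.mk' M) ≠ M := by
      intro h1
      apply hne
      rw [eq_bot_iff]
      intro x hx
      obtain ⟨a, rfl⟩ := QuotientGroup.mk'_surjective M x
      have h2 : a ∈ P.normalCore.comap (QuotientGroup.mk' M) := hx
      rw [h1] at h2
      rw [Subgroup.mem_bot]
      exact (QuotientGroup.eq_one_iff a).mpr h2
    have hAX := h.min _ hX hMX hXM
    have hKP : A.map (QuotientGroup.mk' M) ≤ P := by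
      intro x hx
      obtain ⟨a, ha, rfl⟩ := hx
      exact Subgroup.normalCore_le P (hAX ha)
    have hKp : IsPGroup p (A.map (QuotientGroup.mk' M)) := hPp.to_le hKP
    have hnil : Group.IsNilpotent (A.map (QuotientGroup.mk' M)) := hKp.isNilpotent
    have hsol : Group.IsSolvable (A.map (QuotientGroup.mk' M)) := inferInstance
    have hnt : Nontrivial (A.map (QuotientGroup.mk' M)) := by
      rw [Subgroup.nontrivial_iff_ne_bot]
      intro h1
      obtain ⟨x, hx, y, hy, hxy⟩ := h.nonab
      have h2 : A ≤ M := by
        intro a ha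
        have h3 : QuotientGroup.mk' M a ∈ A.map (QuotientGroup.mk' M) :=
          Subgroup.mem_map_of_mem _ ha
        rw [h1, Subgroup.mem_bot] at h3
        exact (QuotientGroup.eq_one_iff a).mp h3
      exact hxy (M.mul_mem (M.mul_mem (M.mul_mem (h2 hx) (h2 hy)) (M.inv_mem (h2 hx)))
        (M.inv_mem (h2 hy)))
    have hlt := Group.IsSolvable.commutator_lt_top_of_nontrivial (A.map (QuotientGroup.mk' M))
    have hperf := h.map_perfect
    have h3 := Subgroup.map_subtype_commutator (A.map (QuotientGroup.mk' M))
    rw [hperf] at h3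
    apply hlt.ne
    rw [eq_top_iff]
    intro x _
    have h4 : (x : H ⧸ M) ∈ (commutator (A.map (QuotientGroup.mk' M))).map
        (A.map (QuotientGroup.mk' M)).subtype := by
      rw [h3]
      exact x.2
    obtain ⟨y, hy, hyx⟩ := h4
    have h5 : y = x := Subtype.ext hyx
    rw [← h5]
    exact hy
  have hinj : Function.Injective (MulAction.toPermHom (H ⧸ M) ((H ⧸ M) ⧸ P)) := by
    rw [← MonoidHom.ker_eq_bot_iff, ← Subgroup.normalCore_eq_ker, hcore]
  have hle := Nat.card_le_card_of_injective _ hinj
  rw [Nat.card_perm, hcU] at hle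
  have h6 : Nat.card ((H ⧸ M) ⧸ P) = b := hPi
  rw [h6] at hle
  exact hle

end ALP
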