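import Pool.Agent.ALP.Defs

/-!
# [ALP-L1b] nonzero values of polynomials over finite fields
-/

set_option autoImplicit false

namespace ALP

open AG ALG

/-- PROOF. `G = MvPolynomial.map (algebraMap (ZMod p) F) g ≠ 0` (the map is injective), `F = GaloisField p j`, with the same total degree (or at most the same: `MvPolynomial.totalDegree_map_le`). If all values of `G` on `F ^ d` were `0`, the Schwartz-Zippel lemma (`MvPolynomial.schwartz_zippel_totalDegree` with `S = univ`,
`Fintype.card F = p ^ j`, `GaloisField.card`) gives `1 ≤ totalDegree / p ^ j < 1`. `aeval a g = eval a G`. -/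
theorem exists_aeval_ne_zero (p : ℕ) [Fact p.Prime] (d j : ℕ) (hj : 1 ≤ j)
    (g : MvPolynomial (Fin d) (ZMod p)) (hg : g ≠ 0) (hdeg : g.totalDegree < p ^ j) :
    ∃ a : Fin d → GaloisField p j, MvPolynomial.aeval a g ≠ 0 := by
  classical
  have hj0 : j ≠ 0 := by omega
  have hfin : Fintype (GaloisField p j) := Fintype.ofFinite _
  have hcard : Fintype.card (GaloisField p j) = p ^ j := by
    rw [← Nat.card_eq_fintype_card, GaloisField.card p j hj0]
  by_contra hcon
  push Not at hcon
  have hinj : Function.Injective (algebraMap (ZMod p) (GaloisField p j)) :=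
    (algebraMap (ZMod p) (GaloisField p j)).injective
  have hG : MvPolynomial.map (algebraMap (ZMod p) (GaloisField p j)) g ≠ 0 := by
    intro h0
    exact hg (MvPolynomial.map_injective _ hinj (by rw [h0, map_zero]))
  have hev : ∀ a : Fin d → GaloisField p j,
      MvPolynomial.eval a (MvPolynomial.map (algebraMap (ZMod p) (GaloisField p j)) g) = 0 := by
    intro a
    rw [MvPolynomial.eval_map, ← MvPolynomial.aeval_def]
    exact hcon a
  have hsz := MvPolynomial.schwartz_zippel_totalDegree hG (Finset.univ : Finset (GaloisField p j))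
  have hfil : (Finset.filter (fun f => MvPolynomial.eval f
      (MvPolynomial.map (algebraMap (ZMod p) (GaloisField p j)) g) = 0)
      (Fintype.piFinset fun _ : Fin d => (Finset.univ : Finset (GaloisField p j)))) =
      Finset.univ := by
    rw [Fintype.piFinset_univ]
    exact Finset.filter_true_of_mem fun a _ => hev a
  rw [hfil, Finset.card_univ, Finset.card_univ, Fintype.card_fun, Fintype.card_fin, hcard] at hsz
  have hp0 : 0 < p ^ j := pow_pos (Fact.out : p.Prime).pos j
  have hp1 : (0 : ℚ≥0) < ((p ^ j : ℕ) : ℚ≥0) := Nat.cast_pos.2 hp0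
  have h1 : (((p ^ j) ^ d : ℕ) : ℚ≥0) / (((p ^ j : ℕ) : ℚ≥0) ^ d) = 1 := by
    rw [Nat.cast_pow]
    exact div_self (pow_ne_zero _ hp1.ne')
  rw [h1, le_div_iff₀ hp1, one_mul] at hsz
  have h2 : p ^ j ≤ (MvPolynomial.map (algebraMap (ZMod p) (GaloisField p j)) g).totalDegree := by
    exact_mod_cast hsz
  have h3 : (MvPolynomial.map (algebraMap (ZMod p) (GaloisField p j)) g).totalDegree ≤
      g.totalDegree := by
    unfold MvPolynomial.totalDegree
    exact Finset.sup_mono (MvPolynomial.support_map_subset _ g)
  omega

end ALP
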