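import Pool.Agent.ALP.Defs

/-!
# [ALP-L1c] specialization
-/

set_option autoImplicit false

namespace ALP

open AG ALG

/-- PROOF. Let `B = Localization.Away f`, `ι : B →+* RF p d` (`IsLocalization.Away.lift`, or `IsLocalization.map`/`lift`; it is injective because `MvPolynomial → RF p d` is injective) and `π : B →+* F` the extension of `aeval a` (`IsLocalization.Away.lift`, `aeval a f` is a unit), `F = GaloisField p j`.
By `h` all entries of `ρ x` are in the range of `ι`. Choose the (unique) preimages; this gives a monoid homomorphism `ρB : H →* Matrix (Fin N) (Fin N) B` (injectivity of `ι` entrywise). `σ x` is the matrix with the entries `π (ρB x i j)`, made a homomorphism into the units (`MonoidHom.toHomUnits` of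
`(π.mapMatrix).toMonoidHom.comp ρB`). If `g = f^n (ρ x) i j` in `RF p d` then `g = f^n (ρB x i j)` in `B` (`ι` injective); apply `π`. -/
theorem specialize (p : ℕ) [Fact p.Prime] (d N j : ℕ) {H : Type*} [Group H]
    (ρ : H →* Matrix.GeneralLinearGroup (Fin N) (RF p d)) (f : MvPolynomial (Fin d) (ZMod p))
    (h : ∀ x i k, ∃ (n : ℕ) (g : MvPolynomial (Fin d) (ZMod p)), algebraMap _ (RF p d) g =
      (algebraMap _ (RF p d) f) ^ n * (ρ x : Matrix (Fin N) (Fin N) (RF p d)) i k)
    (hf : f ≠ 0) (a : Fin d → GaloisField p j) (ha : MvPolynomial.aeval a f ≠ 0) :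
    ∃ σ : H →* Matrix.GeneralLinearGroup (Fin N) (GaloisField p j),
      ∀ x i k n (g : MvPolynomial (Fin d) (ZMod p)), algebraMap _ (RF p d) g =
        (algebraMap _ (RF p d) f) ^ n * (ρ x : Matrix (Fin N) (Fin N) (RF p d)) i k →
        MvPolynomial.aeval a g = (MvPolynomial.aeval a f) ^ n *
          (σ x : Matrix (Fin N) (Fin N) (GaloisField p j)) i k := by
  classical
  have hinjK : Function.Injective (algebraMap (MvPolynomial (Fin d) (ZMod p)) (RF p d)) :=
    IsFractionRing.injective _ _
  have hfK : IsUnit (algebraMap (MvPolynomial (Fin d) (ZMod p)) (RF p d) f) := by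
    refine IsUnit.mk0 _ ?_
    intro h0
    exact hf (hinjK (by rw [h0, map_zero]))
  have hfF : IsUnit ((MvPolynomial.aeval a).toRingHom f : GaloisField p j) := by
    refine IsUnit.mk0 _ ?_
    exact ha
  let ι : Localization.Away f →+* RF p d := IsLocalization.Away.lift f hfK
  have hι : ∀ g, ι (algebraMap _ (Localization.Away f) g) = algebraMap _ (RF p d) g := fun g =>
    IsLocalization.Away.lift_eq f hfK g
  let π : Localization.Away f →+* GaloisField p j := IsLocalization.Away.lift f hfF
  have hπ : ∀ g, π (algebraMap _ (Localization.Away f) g) = MvPolynomial.aeval a g := fun g =>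
    IsLocalization.Away.lift_eq f hfF g
  have hιinj : Function.Injective ι := by
    rw [injective_iff_map_eq_zero]
    intro b hb
    obtain ⟨⟨r, s⟩, hrs⟩ := IsLocalization.surj (Submonoid.powers f) b
    have h1 : ι (algebraMap _ (Localization.Away f) r) = 0 := by
      rw [← hrs, map_mul, hb, zero_mul]
    rw [hι] at h1
    have h2 : r = 0 := hinjK (by rw [h1, map_zero])
    have h3 : IsUnit (algebraMap (MvPolynomial (Fin d) (ZMod p)) (Localization.Away f) s) :=
      IsLocalization.map_units _ s
    rw [h2, map_zero] at hrs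
    exact (h3.mul_left_eq_zero).mp hrs
  have hex : ∀ x i k, ∃ b : Localization.Away f,
      ι b = (ρ x : Matrix (Fin N) (Fin N) (RF p d)) i k := by
    intro x i k
    obtain ⟨n, g, hg⟩ := h x i k
    refine ⟨IsLocalization.mk' _ g (⟨f ^ n, n, rfl⟩ : Submonoid.powers f), ?_⟩
    have h1 := congrArg ι (IsLocalization.mk'_spec (Localization.Away f) g
      (⟨f ^ n, n, rfl⟩ : Submonoid.powers f))
    rw [map_mul, hι, hι, hg] at h1
    have h2 : (algebraMap _ (RF p d) f) ^ n ≠ 0 := pow_ne_zero _ hfK.ne_zero
    rw [map_pow, mul_comm] at h1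
    exact mul_left_cancel₀ h2 h1
  choose e he using hex
  let φ0 : H → Matrix (Fin N) (Fin N) (Localization.Away f) := fun x => Matrix.of (e x)
  have hφ0 : ∀ x, ι.mapMatrix (φ0 x) = (ρ x : Matrix (Fin N) (Fin N) (RF p d)) := by
    intro x
    ext i k
    exact he x i k
  have hinjM : Function.Injective (ι.mapMatrix (m := Fin N)) := by
    intro M M' hM
    ext i k
    exact hιinj (congrFun (congrFun hM i) k)
  let φ : H →* Matrix (Fin N) (Fin N) (Localization.Away f) :=
    { toFun := φ0
      map_one' := by
        apply hinjM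
        rw [hφ0, map_one, map_one]
        rfl
      map_mul' := by
        intro x y
        apply hinjM
        rw [map_mul, hφ0, hφ0, hφ0, map_mul]
        rfl }
  let ψ : H →* Matrix (Fin N) (Fin N) (GaloisField p j) :=
    ((π.mapMatrix (m := Fin N)).toMonoidHom).comp φ
  refine ⟨MonoidHom.toHomUnits ψ, ?_⟩
  intro x i k n g hg
  have h1 : algebraMap _ (Localization.Away f) g =
      (algebraMap _ (Localization.Away f) f) ^ n * e x i k := by
    apply hιinj
    rw [map_mul, map_pow, hι, hι, he, hg]
  have h2 := congrArg π h1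
  rw [map_mul, map_pow, hπ, hπ] at h2
  rw [h2]
  rfl

end ALP
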