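import Pool.Agent.ALP.L1a
import Pool.Agent.ALP.L1b
import Pool.Agent.ALP.L1c

/-!
# [ALP-L1] short words are detected over small fields
-/

set_option autoImplicit false

namespace ALP

open AG ALG

/-- PROOF. `f, E` from `exists_denominator`; `C = E`... precisely `C = E` and `E (n + 1) < p ^ j`. Every `x : H` is in a ball (`AG.exists_mem_ball`), so the hypothesis `h` of `specialize` holds. Let `x ∈ ball T n`, `ρ x ≠ 1`, so some entry of `ρ x - 1` is not `0`, say `i, k`; `u = g - f^n (1 : Matrix) i k ≠ 0` where `g` is the polynomial for the entry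
(`algebraMap` is injective and `f ≠ 0`), of total degree at most `E n` (`totalDegree (f^n) ≤ E n`, `MvPolynomial.totalDegree_pow`). `f * u ≠ 0` has total degree `≤ E (n + 1) < p ^ j`, so `exists_aeval_ne_zero` gives `a` with `aeval a f ≠ 0`, `aeval a u ≠ 0`. Take `σ` from `specialize`. `aeval a u = (aeval a f)^n * ((σ x) i k - 1 i k)`, so
`σ x ≠ 1`. If `ρ x' = 1` then for all `i k` (polynomial `g = 0` or `1`, `n = 0`): `(σ x') i k = 1 i k`, so `ρ.ker ≤ σ.ker`. -/
theorem spec_words (p : ℕ) [Fact p.Prime] (d N : ℕ) {H : Type*} [Group H] (T : Finset H)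
    (hT : Subgroup.closure (T : Set H) = ⊤)
    (ρ : H →* Matrix.GeneralLinearGroup (Fin N) (RF p d)) :
    ∃ C : ℕ, ∀ j n : ℕ, 1 ≤ j → C * (n + 1) < p ^ j → ∀ x ∈ ball T n, ρ x ≠ 1 →
      ∃ σ : H →* Matrix.GeneralLinearGroup (Fin N) (GaloisField p j),
        ρ.ker ≤ σ.ker ∧ σ x ≠ 1 := by
  classical
  obtain ⟨f, hf, E, hfE, hE⟩ := exists_denominator p d N T ρ
  refine ⟨E, ?_⟩
  intro j n hj hC x hx hρx
  have hinjK : Function.Injective (algebraMap (MvPolynomial (Fin d) (ZMod p)) (RF p d)) :=
    IsFractionRing.injective _ _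
  have hone : ∀ (i k : Fin N), algebraMap (MvPolynomial (Fin d) (ZMod p)) (RF p d)
      ((1 : Matrix (Fin N) (Fin N) (MvPolynomial (Fin d) (ZMod p))) i k) =
      (1 : Matrix (Fin N) (Fin N) (RF p d)) i k := by
    intro i k
    by_cases hik : i = k
    · subst hik
      rw [Matrix.one_apply_eq, Matrix.one_apply_eq, map_one]
    · rw [Matrix.one_apply_ne hik, Matrix.one_apply_ne hik, map_zero]
  obtain ⟨i, k, hik⟩ : ∃ i k, (ρ x : Matrix (Fin N) (Fin N) (RF p d)) i k ≠
      (1 : Matrix (Fin N) (Fin N) (RF p d)) i k := by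
    by_contra hcon
    push Not at hcon
    apply hρx
    apply Units.ext
    ext i k
    exact hcon i k
  obtain ⟨g, hgdeg, hg⟩ := hE n x hx i k
  set o : MvPolynomial (Fin d) (ZMod p) :=
    (1 : Matrix (Fin N) (Fin N) (MvPolynomial (Fin d) (ZMod p))) i k with ho
  have hodeg : o.totalDegree = 0 := by
    by_cases hik' : i = k
    · rw [ho, hik', Matrix.one_apply_eq, MvPolynomial.totalDegree_one]
    · rw [ho, Matrix.one_apply_ne hik', MvPolynomial.totalDegree_zero]
  have hu : g - f ^ n * o ≠ 0 := by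
    intro h0
    have h1 := congrArg (algebraMap (MvPolynomial (Fin d) (ZMod p)) (RF p d)) h0
    rw [map_sub, map_mul, map_pow, hg, ho, hone, map_zero, ← mul_sub] at h1
    rcases mul_eq_zero.mp h1 with h2 | h2
    · refine absurd h2 (pow_ne_zero n ?_)
      intro h3
      exact hf (hinjK (by rw [h3, map_zero]))
    · exact hik (sub_eq_zero.mp h2)
  have hdeg1 : (f ^ n * o).totalDegree ≤ E * n := by
    calc (f ^ n * o).totalDegree ≤ (f ^ n).totalDegree + o.totalDegree :=
          MvPolynomial.totalDegree_mul _ _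
      _ = (f ^ n).totalDegree := by rw [hodeg, add_zero]
      _ ≤ n * f.totalDegree := MvPolynomial.totalDegree_pow _ _
      _ ≤ n * E := Nat.mul_le_mul_left _ hfE
      _ = E * n := mul_comm _ _
  have hdeg2 : (g - f ^ n * o).totalDegree ≤ E * n :=
    le_trans (MvPolynomial.totalDegree_sub _ _) (max_le hgdeg hdeg1)
  have hdeg3 : (f * (g - f ^ n * o)).totalDegree < p ^ j := by
    refine lt_of_le_of_lt ?_ hC
    calc (f * (g - f ^ n * o)).totalDegree ≤ f.totalDegree + (g - f ^ n * o).totalDegree :=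
          MvPolynomial.totalDegree_mul _ _
      _ ≤ E + E * n := add_le_add hfE hdeg2
      _ = E * (n + 1) := by ring
  obtain ⟨a, ha⟩ := exists_aeval_ne_zero p d j hj (f * (g - f ^ n * o)) (mul_ne_zero hf hu) hdeg3
  rw [map_mul] at ha
  have haf : MvPolynomial.aeval a f ≠ 0 := left_ne_zero_of_mul ha
  have hau : MvPolynomial.aeval a (g - f ^ n * o) ≠ 0 := right_ne_zero_of_mul ha
  have hh : ∀ y i k, ∃ (m : ℕ) (g : MvPolynomial (Fin d) (ZMod p)), algebraMap _ (RF p d) g =
      (algebraMap _ (RF p d) f) ^ m * (ρ y : Matrix (Fin N) (Fin N) (RF p d)) i k := by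
    intro y i k
    have hy : y ∈ Subgroup.closure (T : Set H) := by
      rw [hT]
      exact Subgroup.mem_top y
    obtain ⟨m, hm⟩ := exists_mem_ball hy
    obtain ⟨g', -, hg'⟩ := hE m y hm i k
    exact ⟨m, g', hg'⟩
  obtain ⟨σ, hσ⟩ := specialize p d N j ρ f hh hf a haf
  refine ⟨σ, ?_, ?_⟩
  · intro y hy
    rw [MonoidHom.mem_ker] at hy ⊢
    apply Units.ext
    ext i k
    have h1 := hσ y i k 0 ((1 : Matrix (Fin N) (Fin N) (MvPolynomial (Fin d) (ZMod p))) i k)
      (by rw [hone, hy, pow_zero, one_mul]; rfl)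
    rw [pow_zero, one_mul] at h1
    rw [← h1]
    by_cases hik' : i = k
    · subst hik'
      rw [Matrix.one_apply_eq, map_one]
      exact (Matrix.one_apply_eq i).symm
    · rw [Matrix.one_apply_ne hik', map_zero]
      exact (Matrix.one_apply_ne hik').symm
  · intro h1
    apply hau
    have h2 := hσ x i k n g hg
    have h3 : (σ x : Matrix (Fin N) (Fin N) (GaloisField p j)) i k =
        MvPolynomial.aeval a o := by
      rw [h1, ho]
      by_cases hik' : i = k
      · subst hik'
        rw [Matrix.one_apply_eq, map_one]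
        exact Matrix.one_apply_eq i
      · rw [Matrix.one_apply_ne hik', map_zero]
        exact Matrix.one_apply_ne hik'
    rw [map_sub, map_mul, map_pow, h2, h3, sub_self]

end ALP
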