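import Pool.Agent.ALP.Defs

/-!
# [ALP-L1a] common denominators and degrees
-/

set_option autoImplicit false

namespace ALP

open AG ALG

/-- PROOF. Let `f` be a nonzero common denominator of the entries of `ρ t` and `ρ t⁻¹`, `t ∈ T` (`IsLocalization.exist_integer_multiples_of_finset` for the finite set of these entries and `nonZeroDivisors`), `E` the maximum of the total degrees of `f` and of the `f * entry`.
Induction on the length of the word: `f^l * (entries of ρ (word of length l))` are polynomials of total degree at most `E l` (matrix product; `MvPolynomial.totalDegree_mul`, `totalDegree_finset_sum`). For a word of length `l ≤ n` multiply by `f ^ (n - l)`. -/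
theorem exists_denominator (p : ℕ) [Fact p.Prime] (d N : ℕ) {H : Type*} [Group H] (T : Finset H)
    (ρ : H →* Matrix.GeneralLinearGroup (Fin N) (RF p d)) :
    ∃ f : MvPolynomial (Fin d) (ZMod p), f ≠ 0 ∧ ∃ E : ℕ, f.totalDegree ≤ E ∧
      ∀ (n : ℕ), ∀ x ∈ ball T n, ∀ i j, ∃ g : MvPolynomial (Fin d) (ZMod p),
        g.totalDegree ≤ E * n ∧ algebraMap _ (RF p d) g =
          (algebraMap _ (RF p d) f) ^ n * (ρ x : Matrix (Fin N) (Fin N) (RF p d)) i j := by
  classical
  let e : (T × Bool × Fin N × Fin N) → RF p d := fun q =>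
    (ρ (if q.2.1 then (q.1 : H) else (q.1 : H)⁻¹) : Matrix (Fin N) (Fin N) (RF p d)) q.2.2.1 q.2.2.2
  obtain ⟨b, hb⟩ := IsLocalization.exist_integer_multiples_of_finite
    (nonZeroDivisors (MvPolynomial (Fin d) (ZMod p))) e
  have hb0 : (b : MvPolynomial (Fin d) (ZMod p)) ≠ 0 := nonZeroDivisors.ne_zero b.2
  choose g hg using hb
  obtain ⟨f, hf⟩ : ∃ f, f = (b : MvPolynomial (Fin d) (ZMod p)) := ⟨_, rfl⟩
  obtain ⟨E, hE⟩ : ∃ E, E = max f.totalDegree (Finset.univ.sup fun q => (g q).totalDegree) :=
    ⟨_, rfl⟩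
  have hfE : f.totalDegree ≤ E := by rw [hE]; exact le_max_left _ _
  have hgE : ∀ q, (g q).totalDegree ≤ E := by
    intro q
    rw [hE]
    exact le_trans (Finset.le_sup (f := fun q => (g q).totalDegree) (Finset.mem_univ q))
      (le_max_right _ _)
  have hgen : ∀ a : H, (a ∈ T ∨ a⁻¹ ∈ T) → ∀ i k, ∃ u : MvPolynomial (Fin d) (ZMod p),
      u.totalDegree ≤ E ∧ algebraMap _ (RF p d) u =
        algebraMap _ (RF p d) f * (ρ a : Matrix (Fin N) (Fin N) (RF p d)) i k := by
    intro a ha i k
    rcases ha with ha | ha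
    · refine ⟨g (⟨a, ha⟩, true, i, k), hgE _, ?_⟩
      rw [hg, Algebra.smul_def, ← hf]
      rfl
    · refine ⟨g (⟨a⁻¹, ha⟩, false, i, k), hgE _, ?_⟩
      rw [hg, Algebra.smul_def, ← hf]
      change _ * (ρ (a⁻¹)⁻¹ : Matrix (Fin N) (Fin N) (RF p d)) i k = _
      rw [inv_inv]
  have hword : ∀ l : List H, (∀ x ∈ l, x ∈ T ∨ x⁻¹ ∈ T) → ∀ i j,
      ∃ u : MvPolynomial (Fin d) (ZMod p), u.totalDegree ≤ E * l.length ∧
        algebraMap _ (RF p d) u = (algebraMap _ (RF p d) f) ^ l.length *
          (ρ l.prod : Matrix (Fin N) (Fin N) (RF p d)) i j := by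
    intro l
    induction l with
    | nil =>
      intro _ i j
      refine ⟨if i = j then 1 else 0, ?_, ?_⟩
      · split_ifs
        · rw [MvPolynomial.totalDegree_one]; exact Nat.zero_le _
        · rw [MvPolynomial.totalDegree_zero]; exact Nat.zero_le _
      · rw [List.length_nil, pow_zero, one_mul, List.prod_nil, map_one, Units.val_one,
          Matrix.one_apply]
        split_ifs
        · rw [map_one]
        · rw [map_zero]
    | cons a l ih =>
      intro hl i j
      have ha := hl a (List.mem_cons_self)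
      have hl' : ∀ x ∈ l, x ∈ T ∨ x⁻¹ ∈ T := fun x hx => hl x (List.mem_cons_of_mem _ hx)
      choose u hu1 hu2 using fun k => hgen a ha i k
      choose v hv1 hv2 using fun k => ih hl' k j
      refine ⟨∑ k, u k * v k, ?_, ?_⟩
      · refine MvPolynomial.totalDegree_finsetSum_le fun k _ => ?_
        refine (MvPolynomial.totalDegree_mul _ _).trans ?_
        rw [List.length_cons, mul_add, mul_one, add_comm]
        exact add_le_add (hv1 k) (hu1 k)
      · rw [map_sum, List.prod_cons, map_mul, Units.val_mul, Matrix.mul_apply, Finset.mul_sum]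
        refine Finset.sum_congr rfl fun k _ => ?_
        rw [map_mul, hu2 k, hv2 k, List.length_cons, pow_succ]
        ring
  refine ⟨f, by rw [hf]; exact hb0, E, hfE, fun n x hx i j => ?_⟩
  obtain ⟨l, hl1, hl2, rfl⟩ := hx
  obtain ⟨u, hu1, hu2⟩ := hword l hl2 i j
  refine ⟨f ^ (n - l.length) * u, ?_, ?_⟩
  · refine (MvPolynomial.totalDegree_mul _ _).trans ?_
    have h1 : (f ^ (n - l.length)).totalDegree ≤ (n - l.length) * E :=
      (MvPolynomial.totalDegree_pow _ _).trans (Nat.mul_le_mul_left _ hfE)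
    calc (f ^ (n - l.length)).totalDegree + u.totalDegree ≤ (n - l.length) * E + E * l.length :=
          add_le_add h1 hu1
      _ = E * ((n - l.length) + l.length) := by ring
      _ = E * n := by rw [Nat.sub_add_cancel hl1]
  · rw [map_mul, map_pow, hu2, ← mul_assoc, ← pow_add, Nat.sub_add_cancel hl1]

end ALP
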