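import Pool.Agent.ALP.Defs

/-!
# [ALP-L2b] matrix coefficients of iterated commutators
-/

set_option autoImplicit false

namespace ALP

open AG ALG

theorem l2b_fun {X : Type*} {K : Type*} [Field K] {α : Type*} [Fintype α] (f : α → X → K) :
    ∃ V : Submodule K (X → K), V.FG ∧ (1 : X → K) ∈ V ∧ ∀ a, f a ∈ V := by
  refine ⟨Submodule.span K (insert 1 (Set.range f)), ?_, ?_, ?_⟩
  · exact Submodule.fg_span ((Set.finite_range f).insert _)
  · exact Submodule.subset_span (Set.mem_insert _ _)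
  · intro a
    exact Submodule.subset_span (Set.mem_insert_of_mem _ ⟨a, rfl⟩)

/-- PROOF. Induction on `k`. `k = 0`: `ρ (g x g⁻¹)_{ij} = ∑ ρ(g)_{ia} ρ(x)_{ab} ρ(g⁻¹)_{bj}`, and the inverse of `g x g⁻¹` is `g x⁻¹ g⁻¹`; so let `V` be spanned by the functions `g ↦ ρ(g)_{ia} ρ(g⁻¹)_{bj}` and the constant `1`. Step: let `b_1, ..., b_r` span `V_k`, let `V_{k+1}` be spanned by `1` and the functions
`u ↦ b_a(u.1) b_b(u.2) b_c(u.1) b_e(u.2)`; the entries of `ρ(s t s⁻¹ t⁻¹)` and of its inverse `ρ(t s t⁻¹ s⁻¹)`, `s = tv x k u.1`, `t = tv x k u.2`, are sums of products of four functions of this form (coefficients in `K` depend on `x`). Use `Submodule.span` of finite sets (`Submodule.fg_span`), and expand with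
`Submodule.span_induction` or with `Finset.sum`. -/
theorem exists_space {H : Type*} [Group H] {K : Type*} [Field K] (N : ℕ)
    (ρ : H →* Matrix.GeneralLinearGroup (Fin N) K) (k : ℕ) :
    ∃ V : Submodule K (Leaves H k → K), FiniteDimensional K V ∧ (fun _ => (1 : K)) ∈ V ∧
      ∀ (x : H) (i j : Fin N),
        (fun u => (ρ (tv x k u) : Matrix (Fin N) (Fin N) K) i j) ∈ V ∧
        (fun u => (ρ (tv x k u)⁻¹ : Matrix (Fin N) (Fin N) K) i j) ∈ V := by
  induction k with
  | zero =>
    obtain ⟨E, hE1, hE2, hE3⟩ := l2b_fun (X := H) (K := K) (α := Fin N × Fin N)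
      (fun a g => (ρ g : Matrix (Fin N) (Fin N) K) a.1 a.2)
    obtain ⟨F, hF1, hF2, hF3⟩ := l2b_fun (X := H) (K := K) (α := Fin N × Fin N)
      (fun a g => (ρ g⁻¹ : Matrix (Fin N) (Fin N) K) a.1 a.2)
    have hmem : ∀ (y : H) (i j : Fin N),
        (fun g : H => (ρ (g * y * g⁻¹) : Matrix (Fin N) (Fin N) K) i j) ∈ E * F := by
      intro y i j
      have h1 : (fun g : H => (ρ (g * y * g⁻¹) : Matrix (Fin N) (Fin N) K) i j) =
          ∑ b : Fin N, ∑ a : Fin N, (ρ y : Matrix (Fin N) (Fin N) K) a b •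
            ((fun g : H => (ρ g : Matrix (Fin N) (Fin N) K) i a) *
              (fun g : H => (ρ g⁻¹ : Matrix (Fin N) (Fin N) K) b j)) := by
        funext g
        rw [Finset.sum_apply, map_mul, map_mul, Units.val_mul, Units.val_mul, Matrix.mul_apply]
        refine Finset.sum_congr rfl fun b _ => ?_
        rw [Finset.sum_apply, Matrix.mul_apply, Finset.sum_mul]
        refine Finset.sum_congr rfl fun a _ => ?_
        show _ = (ρ y : Matrix (Fin N) (Fin N) K) a b *
          ((ρ g : Matrix (Fin N) (Fin N) K) i a * (ρ g⁻¹ : Matrix (Fin N) (Fin N) K) b j)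
        ring
      rw [h1]
      exact Submodule.sum_mem _ fun b _ => Submodule.sum_mem _ fun a _ =>
        Submodule.smul_mem _ _ (Submodule.mul_mem_mul (hE3 (i, a)) (hF3 (b, j)))
    change ∃ V : Submodule K (H → K), FiniteDimensional K V ∧ (fun _ => (1 : K)) ∈ V ∧
      ∀ (x : H) (i j : Fin N),
        (fun g : H => (ρ (g * x * g⁻¹) : Matrix (Fin N) (Fin N) K) i j) ∈ V ∧
        (fun g : H => (ρ (g * x * g⁻¹)⁻¹ : Matrix (Fin N) (Fin N) K) i j) ∈ V
    refine ⟨E * F, ?_, ?_, ?_⟩
    · exact Module.Finite.iff_fg.2 (hE1.mul hF1)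
    · have h := Submodule.mul_mem_mul hE2 hF2
      rw [mul_one] at h
      exact h
    · intro x i j
      refine ⟨hmem x i j, ?_⟩
      have h2 : (fun g : H => (ρ (g * x⁻¹ * g⁻¹) : Matrix (Fin N) (Fin N) K) i j) =
          (fun g : H => (ρ (g * x * g⁻¹)⁻¹ : Matrix (Fin N) (Fin N) K) i j) := by
        funext g
        have h3 : (g * x * g⁻¹)⁻¹ = g * x⁻¹ * g⁻¹ := by group
        rw [h3]
      rw [← h2]
      exact hmem x⁻¹ i j
  | succ k ih =>
    obtain ⟨V, hV1, hV2, hV3⟩ := ih
    let p1 : (Leaves H k → K) →ₗ[K] (Leaves H (k + 1) → K) :=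
      LinearMap.funLeft K K (fun u : Leaves H (k + 1) => u.1)
    let p2 : (Leaves H k → K) →ₗ[K] (Leaves H (k + 1) → K) :=
      LinearMap.funLeft K K (fun u : Leaves H (k + 1) => u.2)
    have hVfg : V.FG := Module.Finite.iff_fg.1 hV1
    refine ⟨V.map p1 * V.map p2 * V.map p1 * V.map p2, ?_, ?_, ?_⟩
    · exact Module.Finite.iff_fg.2
        ((((hVfg.map p1).mul (hVfg.map p2)).mul (hVfg.map p1)).mul (hVfg.map p2))
    · have a1 : (1 : Leaves H (k + 1) → K) ∈ V.map p1 := ⟨_, hV2, rfl⟩
      have a2 : (1 : Leaves H (k + 1) → K) ∈ V.map p2 := ⟨_, hV2, rfl⟩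
      have h := Submodule.mul_mem_mul (Submodule.mul_mem_mul (Submodule.mul_mem_mul a1 a2) a1) a2
      rw [mul_one, mul_one, mul_one] at h
      exact h
    · intro x i j
      have e1 : ∀ a b : Fin N,
          (fun u : Leaves H (k + 1) => (ρ (tv x k u.1) : Matrix (Fin N) (Fin N) K) a b) ∈
            V.map p1 := fun a b => ⟨_, (hV3 x a b).1, rfl⟩
      have e1' : ∀ a b : Fin N,
          (fun u : Leaves H (k + 1) => (ρ (tv x k u.1)⁻¹ : Matrix (Fin N) (Fin N) K) a b) ∈
            V.map p1 := fun a b => ⟨_, (hV3 x a b).2, rfl⟩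
      have e2 : ∀ a b : Fin N,
          (fun u : Leaves H (k + 1) => (ρ (tv x k u.2) : Matrix (Fin N) (Fin N) K) a b) ∈
            V.map p2 := fun a b => ⟨_, (hV3 x a b).1, rfl⟩
      have e2' : ∀ a b : Fin N,
          (fun u : Leaves H (k + 1) => (ρ (tv x k u.2)⁻¹ : Matrix (Fin N) (Fin N) K) a b) ∈
            V.map p2 := fun a b => ⟨_, (hV3 x a b).2, rfl⟩
      constructor
      · have h1 : (fun u : Leaves H (k + 1) =>
            (ρ (tv x (k + 1) u) : Matrix (Fin N) (Fin N) K) i j) =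
            ∑ c : Fin N, ∑ b : Fin N, ∑ a : Fin N,
              (fun u : Leaves H (k + 1) => (ρ (tv x k u.1) : Matrix (Fin N) (Fin N) K) i a) *
              (fun u : Leaves H (k + 1) => (ρ (tv x k u.2) : Matrix (Fin N) (Fin N) K) a b) *
              (fun u : Leaves H (k + 1) => (ρ (tv x k u.1)⁻¹ : Matrix (Fin N) (Fin N) K) b c) *
              (fun u : Leaves H (k + 1) =>
                (ρ (tv x k u.2)⁻¹ : Matrix (Fin N) (Fin N) K) c j) := by
          funext u
          show (ρ (tv x k u.1 * tv x k u.2 * (tv x k u.1)⁻¹ * (tv x k u.2)⁻¹) :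
            Matrix (Fin N) (Fin N) K) i j = _
          rw [Finset.sum_apply, map_mul, map_mul, map_mul, Units.val_mul, Units.val_mul,
            Units.val_mul, Matrix.mul_apply]
          refine Finset.sum_congr rfl fun c _ => ?_
          rw [Finset.sum_apply, Matrix.mul_apply, Finset.sum_mul]
          refine Finset.sum_congr rfl fun b _ => ?_
          rw [Finset.sum_apply, Matrix.mul_apply, Finset.sum_mul, Finset.sum_mul]
          exact Finset.sum_congr rfl fun a _ => rfl
        rw [h1]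
        exact Submodule.sum_mem _ fun c _ => Submodule.sum_mem _ fun b _ =>
          Submodule.sum_mem _ fun a _ => Submodule.mul_mem_mul (Submodule.mul_mem_mul
            (Submodule.mul_mem_mul (e1 i a) (e2 a b)) (e1' b c)) (e2' c j)
      · have h1 : (fun u : Leaves H (k + 1) =>
            (ρ (tv x (k + 1) u)⁻¹ : Matrix (Fin N) (Fin N) K) i j) =
            ∑ c : Fin N, ∑ b : Fin N, ∑ a : Fin N,
              (fun u : Leaves H (k + 1) => (ρ (tv x k u.1) : Matrix (Fin N) (Fin N) K) a b) *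
              (fun u : Leaves H (k + 1) => (ρ (tv x k u.2) : Matrix (Fin N) (Fin N) K) i a) *
              (fun u : Leaves H (k + 1) => (ρ (tv x k u.1)⁻¹ : Matrix (Fin N) (Fin N) K) c j) *
              (fun u : Leaves H (k + 1) =>
                (ρ (tv x k u.2)⁻¹ : Matrix (Fin N) (Fin N) K) b c) := by
          funext u
          show (ρ (tv x k u.1 * tv x k u.2 * (tv x k u.1)⁻¹ * (tv x k u.2)⁻¹)⁻¹ :
            Matrix (Fin N) (Fin N) K) i j = _
          have h3 : (tv x k u.1 * tv x k u.2 * (tv x k u.1)⁻¹ * (tv x k u.2)⁻¹)⁻¹ =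
              tv x k u.2 * tv x k u.1 * (tv x k u.2)⁻¹ * (tv x k u.1)⁻¹ := by group
          rw [h3, Finset.sum_apply, map_mul, map_mul, map_mul, Units.val_mul, Units.val_mul,
            Units.val_mul, Matrix.mul_apply]
          refine Finset.sum_congr rfl fun c _ => ?_
          rw [Finset.sum_apply, Matrix.mul_apply, Finset.sum_mul]
          refine Finset.sum_congr rfl fun b _ => ?_
          rw [Finset.sum_apply, Matrix.mul_apply, Finset.sum_mul, Finset.sum_mul]
          refine Finset.sum_congr rfl fun a _ => ?_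
          show (ρ (tv x k u.2) : Matrix (Fin N) (Fin N) K) i a *
            (ρ (tv x k u.1) : Matrix (Fin N) (Fin N) K) a b *
            (ρ (tv x k u.2)⁻¹ : Matrix (Fin N) (Fin N) K) b c *
            (ρ (tv x k u.1)⁻¹ : Matrix (Fin N) (Fin N) K) c j =
            (ρ (tv x k u.1) : Matrix (Fin N) (Fin N) K) a b *
            (ρ (tv x k u.2) : Matrix (Fin N) (Fin N) K) i a *
            (ρ (tv x k u.1)⁻¹ : Matrix (Fin N) (Fin N) K) c j *
            (ρ (tv x k u.2)⁻¹ : Matrix (Fin N) (Fin N) K) b c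
          ring
        rw [h1]
        exact Submodule.sum_mem _ fun c _ => Submodule.sum_mem _ fun b _ =>
          Submodule.sum_mem _ fun a _ => Submodule.mul_mem_mul (Submodule.mul_mem_mul
            (Submodule.mul_mem_mul (e1 a b) (e2 i a)) (e1' c j)) (e2' b c)

end ALP
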