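import Pool.Agent.ALP.L2a
import Pool.Agent.ALP.L2b

/-!
# [ALP-L2] uniform detection of nontrivial iterated commutators
-/

set_option autoImplicit false

namespace ALP

open AG ALG

/-- PROOF. `V` from `exists_space`, `S` from `exists_finite_detecting`. If `ρ (tv x k u) = 1` for `u ∈ S`, then for all `i, j` the function `u ↦ ρ(tv x k u)_{ij} - δ_{ij}` is in `V` and vanishes on `S`, so it is `0`. -/
theorem exists_uniform {H : Type*} [Group H] {K : Type*} [Field K] (N : ℕ)
    (ρ : H →* Matrix.GeneralLinearGroup (Fin N) K) (k : ℕ) :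
    ∃ S : Finset (Leaves H k), ∀ x : H, (∀ u ∈ S, ρ (tv x k u) = 1) → ∀ u, ρ (tv x k u) = 1 := by
  obtain ⟨V, hV, h1, h2⟩ := exists_space N ρ k
  obtain ⟨S, hS⟩ := exists_finite_detecting V
  refine ⟨S, fun x hx u => ?_⟩
  have key : ∀ i j : Fin N, ∀ u : Leaves H k,
      (ρ (tv x k u) : Matrix (Fin N) (Fin N) K) i j = (1 : Matrix (Fin N) (Fin N) K) i j := by
    intro i j
    have hmem : (fun u : Leaves H k => (ρ (tv x k u) : Matrix (Fin N) (Fin N) K) i j) -
        (1 : Matrix (Fin N) (Fin N) K) i j • (fun _ : Leaves H k => (1 : K)) ∈ V :=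
      V.sub_mem (h2 x i j).1 (V.smul_mem _ h1)
    have h3 := hS _ hmem (fun s hs => by
      rw [Pi.sub_apply, Pi.smul_apply, hx s hs, Units.val_one, smul_eq_mul, mul_one, sub_self])
    intro u
    have h4 := congrFun h3 u
    rw [Pi.sub_apply, Pi.smul_apply, smul_eq_mul, mul_one, Pi.zero_apply] at h4
    exact sub_eq_zero.1 h4
  refine Units.ext (Matrix.ext fun i j => ?_)
  rw [Units.val_one]
  exact key i j u

end ALP
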