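import Mathlib

/-!
# [ALP-L2a] finite-dimensional spaces of functions
-/

set_option autoImplicit false

namespace ALP



/-- PROOF. For finite `S ⊆ X` let `V_S = {v ∈ V | v s = 0 for all s ∈ S}` (a submodule). Choose `S` with `finrank V_S` minimal. If `V_S ≠ 0` take `v ∈ V_S`, `v ≠ 0`, and `x` with `v x ≠ 0`: `V_{S ∪ {x}} < V_S` has smaller `finrank`, a contradiction. -/
theorem exists_finite_detecting {X K : Type*} [Field K] (V : Submodule K (X → K))
    [FiniteDimensional K V] : ∃ S : Finset X, ∀ v ∈ V, (∀ s ∈ S, v s = 0) → v = 0 := by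
  classical
  let W : Finset X → Submodule K V := fun S =>
    { carrier := {v | ∀ s ∈ S, (v : X → K) s = 0}
      add_mem' := by
        intro a b ha hb s hs
        show (a : X → K) s + (b : X → K) s = 0
        rw [ha s hs, hb s hs, add_zero]
      zero_mem' := fun s _ => rfl
      smul_mem' := by
        intro c a ha s hs
        show c • (a : X → K) s = 0
        rw [ha s hs, smul_zero] }
  obtain ⟨S, -, hS⟩ := (measure fun S => Module.finrank K (W S)).wf.has_min Set.univ ⟨∅, trivial⟩
  refine ⟨S, fun v hv hvS => ?_⟩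
  by_contra hne
  obtain ⟨x, hx⟩ := Function.ne_iff.1 hne
  refine hS (insert x S) trivial ?_
  show Module.finrank K (W (insert x S)) < Module.finrank K (W S)
  apply Submodule.finrank_lt_finrank_of_lt
  rw [SetLike.lt_iff_le_and_exists]
  refine ⟨fun a ha s hs => ha s (Finset.mem_insert_of_mem hs), ⟨v, hv⟩, hvS, fun h => ?_⟩
  exact hx (h x (Finset.mem_insert_self x S))

end ALP
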