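import Pool.Agent.ALP.Defs
import Pool.Agent.AG.B1

/-!
# [ALP-L3a] iterated commutators and the derived series of a normal closure
-/

set_option autoImplicit false

namespace ALP

open AG ALG

theorem l3a_conj {H : Type*} [Group H] (x h : H) (k : ℕ) (u : Leaves H k) :
    ∃ u' : Leaves H k, tv x k u' = h * tv x k u * h⁻¹ := by
  induction k with
  | zero =>
    refine ⟨(show Leaves H 0 from h * (show H from u)), ?_⟩
    show h * (show H from u) * x * (h * (show H from u))⁻¹ =
      h * ((show H from u) * x * (show H from u)⁻¹) * h⁻¹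
    rw [mul_inv_rev]
    simp only [mul_assoc]
  | succ k ih =>
    obtain ⟨u1, u2⟩ := u
    obtain ⟨v1, hv1⟩ := ih u1
    obtain ⟨v2, hv2⟩ := ih u2
    refine ⟨(v1, v2), ?_⟩
    show tv x k v1 * tv x k v2 * (tv x k v1)⁻¹ * (tv x k v2)⁻¹ =
      h * (tv x k u1 * tv x k u2 * (tv x k u1)⁻¹ * (tv x k u2)⁻¹) * h⁻¹
    rw [hv1, hv2]
    group

theorem l3a_normal {H : Type*} [Group H] (x : H) (k : ℕ) :
    (Subgroup.closure (Set.range (tv x k))).Normal := by
  refine ⟨fun n hn g => ?_⟩
  have h1 : Subgroup.closure (Set.range (tv x k)) ≤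
      (Subgroup.closure (Set.range (tv x k))).comap (MulAut.conj g).toMonoidHom := by
    rw [Subgroup.closure_le]
    rintro _ ⟨u, rfl⟩
    obtain ⟨u', hu'⟩ := l3a_conj x g k u
    show g * tv x k u * g⁻¹ ∈ Subgroup.closure (Set.range (tv x k))
    rw [← hu']
    exact Subgroup.subset_closure ⟨u', rfl⟩
  exact h1 hn

/-- PROOF. Let `W_k = range (tv x k)`; it is closed under conjugation by all elements of `H` (induction, conjugation is an automorphism). `k = 0`: `W_0` is the conjugacy class of `x` (`Subgroup.normalClosure`, `Group.conjugatesOfSet`). Step: let `N = closure W_{k+1}`, normal in `H`. Modulo `N` (in `H ⧸ N`) the elements of `W_k` commute, so `closure W_k` is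
commutative modulo `N`, so `⁅closure W_k, closure W_k⁆ ≤ N`; the other inclusion is clear (`⁅K, K⁆` contains the commutators). -/
theorem closure_tv {H : Type*} [Group H] (x : H) (k : ℕ) :
    Subgroup.closure (Set.range (tv x k)) = dser (Subgroup.normalClosure {x}) k := by
  induction k with
  | zero =>
    show Subgroup.closure (Set.range (tv x 0)) = Subgroup.normalClosure {x}
    have h1 : Set.range (tv x 0) = Group.conjugatesOfSet {x} := by
      ext y
      rw [Group.mem_conjugatesOfSet_iff]
      constructor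
      · rintro ⟨g, rfl⟩
        exact ⟨x, rfl, isConj_iff.2 ⟨(show H from g), rfl⟩⟩
      · rintro ⟨z, hz, hzy⟩
        have hz' : z = x := hz
        subst hz'
        obtain ⟨c, hc⟩ := isConj_iff.1 hzy
        exact ⟨(show Leaves H 0 from c), hc⟩
    rw [h1]
    rfl
  | succ k ih =>
    show Subgroup.closure (Set.range (tv x (k + 1))) =
      ⁅dser (Subgroup.normalClosure {x}) k, dser (Subgroup.normalClosure {x}) k⁆
    rw [← ih]
    refine le_antisymm ?_ ?_
    · rw [Subgroup.closure_le]
      rintro _ ⟨⟨u1, u2⟩, rfl⟩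
      exact Subgroup.commutator_mem_commutator (Subgroup.subset_closure ⟨u1, rfl⟩)
        (Subgroup.subset_closure ⟨u2, rfl⟩)
    · set N : Subgroup H := Subgroup.closure (Set.range (tv x (k + 1))) with hN
      have hNn : N.Normal := l3a_normal x (k + 1)
      set φ := QuotientGroup.mk' N with hφ
      have hφ1 : ∀ y, φ y = 1 ↔ y ∈ N := fun y => QuotientGroup.eq_one_iff y
      have hcomm : ∀ a b : H, φ a * φ b = φ b * φ a ↔ a * b * a⁻¹ * b⁻¹ ∈ N := by
        intro a b
        rw [← hφ1, map_mul, map_mul, map_mul, map_inv, map_inv, mul_inv_eq_one,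
          mul_inv_eq_iff_eq_mul]
      have hgen : ∀ u1 u2 : Leaves H k, φ (tv x k u1) * φ (tv x k u2) =
          φ (tv x k u2) * φ (tv x k u1) := fun u1 u2 =>
        (hcomm _ _).2 (Subgroup.subset_closure ⟨(u1, u2), rfl⟩)
      have hA : ∀ u : Leaves H k, ∀ g ∈ Subgroup.closure (Set.range (tv x k)),
          φ g * φ (tv x k u) = φ (tv x k u) * φ g := by
        intro u g hg
        have h1 : Subgroup.closure (Set.range (tv x k)) ≤
            (Subgroup.centralizer {φ (tv x k u)}).comap φ := by
          rw [Subgroup.closure_le]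
          rintro _ ⟨u1, rfl⟩
          show φ (tv x k u1) ∈ Subgroup.centralizer {φ (tv x k u)}
          rw [Subgroup.mem_centralizer_singleton_iff]
          exact hgen u1 u
        have h2 : φ g ∈ Subgroup.centralizer {φ (tv x k u)} := h1 hg
        rw [Subgroup.mem_centralizer_singleton_iff] at h2
        exact h2
      have hB : ∀ g ∈ Subgroup.closure (Set.range (tv x k)),
          ∀ g' ∈ Subgroup.closure (Set.range (tv x k)), φ g' * φ g = φ g * φ g' := by
        intro g hg g' hg'
        have h1 : Subgroup.closure (Set.range (tv x k)) ≤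
            (Subgroup.centralizer {φ g}).comap φ := by
          rw [Subgroup.closure_le]
          rintro _ ⟨u1, rfl⟩
          show φ (tv x k u1) ∈ Subgroup.centralizer {φ g}
          rw [Subgroup.mem_centralizer_singleton_iff]
          exact (hA u1 g hg).symm
        have h2 : φ g' ∈ Subgroup.centralizer {φ g} := h1 hg'
        rw [Subgroup.mem_centralizer_singleton_iff] at h2
        exact h2
      rw [Subgroup.commutator_le]
      intro a ha b hb
      exact (hcomm a b).1 (hB b hb a ha)

/-- PROOF. Induction on `k`: `4 * (4^k (n + 2 r))`. -/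
theorem tv_mem_ball {H : Type*} [Group H] (T : Finset H) (n r k : ℕ) (x : H) (hx : x ∈ ball T n)
    (u : Leaves H k) (hu : LeavesIn (ball T r) k u) : tv x k u ∈ ball T (4 ^ k * (n + 2 * r)) := by
  induction k with
  | zero =>
    have h1 : (show H from u) ∈ ball T r := hu
    have h2 : tv x 0 u = (show H from u) * x * (show H from u)⁻¹ := rfl
    rw [h2, pow_zero, one_mul]
    have h3 := mul_mem_ball (mul_mem_ball h1 hx) (inv_mem_ball h1)
    exact ball_mono T (by omega) h3
  | succ k ih =>
    obtain ⟨u1, u2⟩ := u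
    have h1 : LeavesIn (ball T r) k u1 ∧ LeavesIn (ball T r) k u2 := hu
    have h2 := ih u1 h1.1
    have h3 := ih u2 h1.2
    have h4 : tv x (k + 1) (u1, u2) = tv x k u1 * tv x k u2 * (tv x k u1)⁻¹ * (tv x k u2)⁻¹ := rfl
    rw [h4]
    have h5 := mul_mem_ball (mul_mem_ball (mul_mem_ball h2 h3) (inv_mem_ball h2)) (inv_mem_ball h3)
    exact ball_mono T (by rw [pow_succ]; nlinarith) h5

theorem l3a_mono {H : Type*} {B B' : Set H} (h : B ⊆ B') (k : ℕ) (u : Leaves H k)
    (hu : LeavesIn B k u) : LeavesIn B' k u := by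
  induction k with
  | zero => exact h hu
  | succ k ih =>
    obtain ⟨u1, u2⟩ := u
    have h1 : LeavesIn B k u1 ∧ LeavesIn B k u2 := hu
    exact ⟨ih u1 h1.1, ih u2 h1.2⟩

/-- PROOF. Every `h : H` is in a ball (`AG.exists_mem_ball`), the balls increase; every leaf vector has finitely many labels (induction on `k`), and `S` is finite. -/
theorem exists_radius {H : Type*} [Group H] (T : Finset H)
    (hT : Subgroup.closure (T : Set H) = ⊤) (k : ℕ) (S : Finset (Leaves H k)) :
    ∃ r : ℕ, ∀ u ∈ S, LeavesIn (ball T r) k u := by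
  have h1 : ∀ (k : ℕ) (u : Leaves H k), ∃ r : ℕ, LeavesIn (ball T r) k u := by
    intro k
    induction k with
    | zero =>
      intro u
      obtain ⟨n, hn⟩ := exists_mem_ball (S := T) (g := (show H from u))
        (by rw [hT]; exact Subgroup.mem_top _)
      exact ⟨n, hn⟩
    | succ k ih =>
      rintro ⟨u1, u2⟩
      obtain ⟨r1, hr1⟩ := ih u1
      obtain ⟨r2, hr2⟩ := ih u2
      exact ⟨max r1 r2, l3a_mono (ball_mono T (le_max_left r1 r2)) k u1 hr1,
        l3a_mono (ball_mono T (le_max_right r1 r2)) k u2 hr2⟩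
  choose r hr using h1 k
  refine ⟨S.sup r, fun u hu => ?_⟩
  exact l3a_mono (ball_mono T (Finset.le_sup hu)) k u (hr u)

end ALP
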