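import Pool.Agent.ALP.L2
import Pool.Agent.ALP.L3a

/-!
# [ALP-L3] short witnesses
-/

set_option autoImplicit false

namespace ALP

open AG ALG

/-- PROOF. `S` from `exists_uniform`, `r` from `exists_radius`. If `¬ dser (normalClosure {x}) k ≤ ρ.ker` then by `closure_tv` some `tv x k u ∉ ρ.ker`, so by `exists_uniform` some `u ∈ S` has `ρ (tv x k u) ≠ 1`; `z = tv x k u` (`tv_mem_ball`, `closure_tv`). -/
theorem short_witness {H : Type*} [Group H] (T : Finset H)
    (hT : Subgroup.closure (T : Set H) = ⊤) {K : Type*} [Field K] (N : ℕ)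
    (ρ : H →* Matrix.GeneralLinearGroup (Fin N) K) (k : ℕ) :
    ∃ r : ℕ, ∀ (n : ℕ), ∀ x ∈ ball T n, ¬ dser (Subgroup.normalClosure {x}) k ≤ ρ.ker →
      ∃ z ∈ ball T (4 ^ k * (n + 2 * r)), z ∈ dser (Subgroup.normalClosure {x}) k ∧
        ρ z ≠ 1 := by
  obtain ⟨S, hS⟩ := exists_uniform N ρ k
  obtain ⟨r, hr⟩ := exists_radius T hT k S
  refine ⟨r, fun n x hx hnot => ?_⟩
  by_contra hcon
  push Not at hcon
  apply hnot
  rw [← closure_tv x k, Subgroup.closure_le]
  rintro _ ⟨u, rfl⟩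
  refine hS x (fun v hv => ?_) u
  exact hcon (tv x k v) (tv_mem_ball T n r k x hx v (hr v hv))
    (by rw [← closure_tv x k]; exact Subgroup.subset_closure ⟨v, rfl⟩)

end ALP
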