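import Pool.Agent.ALP.Z1

/-!
# [ALP-L4] existence of quotients with a nonabelian smallest normal subgroup
-/

set_option autoImplicit false

namespace ALP

open AG ALG

theorem l4_index {H : Type*} [Group H] {P Q : Subgroup H} (h : P ≤ Q) (h0 : P.index ≠ 0) :
    Q.index ≠ 0 := by
  intro h1
  have h2 := Subgroup.index_dvd_of_le h
  rw [h1, zero_dvd_iff] at h2
  exact h0 h2

theorem l4_eq {H : Type*} [Group H] {P Q : Subgroup H} (h : P ≤ Q) (h0 : P.index ≠ 0)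
    (hi : P.index ≤ Q.index) : P = Q := by
  have h1 := Subgroup.relIndex_mul_index h
  have h2 : Q.index ≠ 0 := l4_index h h0
  have h3 : P.relIndex Q = 1 := by
    have h4 : P.relIndex Q ≠ 0 := by
      intro h5
      rw [h5, zero_mul] at h1
      exact h0 h1.symm
    have h5 : P.relIndex Q * Q.index ≤ 1 * Q.index := by
      rw [h1, one_mul]
      exact hi
    have h6 := Nat.le_of_mul_le_mul_right h5 (Nat.pos_of_ne_zero h2)
    omega
  exact le_antisymm h (Subgroup.relIndex_eq_one.1 h3)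

/-- PROOF. The set of the normal subgroups `M ≥ K₀` with `∀ k, ¬ dser X k ≤ M` is finite (subgroups above `K₀` correspond to the subgroups of the finite group `H ⧸ K₀`) and contains `K₀`; let `M` be maximal in it. `¬ X ≤ M` (`k = 0`). A normal `B ≥ M`, `B ≠ M` is not in the set, so `dser X k ≤ B` for some `k`. If `B₁, B₂` are two such subgroups then `B₁ ⊓ B₂` is
normal, contains `M` and is not `M` (it contains `dser X (max k₁ k₂)`). So the intersection `A` of all these `B` (finitely many; `⊤` is one, as `M ≠ ⊤`) is normal, `M ≤ A`, `A ≠ M`; in particular `dser X k ≤ A` for some `k`. If all commutators of elements of `A` were in `M` then `dser X (k + 1) ≤ ⁅A, A⁆ ≤ M`, a contradiction. -/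
theorem exists_mono {H : Type*} [Group H] (K₀ X : Subgroup H) (hK : K₀.Normal)
    (hfin : K₀.index ≠ 0) (hX : X.Normal) (h : ∀ k, ¬ dser X k ≤ K₀) :
    ∃ M : Subgroup H, IsMono M ∧ K₀ ≤ M ∧ ¬ X ≤ M := by
  -- the subgroup `M`
  obtain ⟨M, hM0, hMmin⟩ : ∃ M : Subgroup H, (M.Normal ∧ K₀ ≤ M ∧ ∀ k, ¬ dser X k ≤ M) ∧
      ∀ B : Subgroup H, (B.Normal ∧ K₀ ≤ B ∧ ∀ k, ¬ dser X k ≤ B) → M.index ≤ B.index := by
    have hne : {n : ℕ | ∃ M : Subgroup H, (M.Normal ∧ K₀ ≤ M ∧ ∀ k, ¬ dser X k ≤ M) ∧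
        M.index = n}.Nonempty := ⟨_, K₀, ⟨hK, le_rfl, h⟩, rfl⟩
    obtain ⟨M, hM, hMi⟩ := Nat.sInf_mem hne
    refine ⟨M, hM, fun B hB => ?_⟩
    rw [hMi]
    exact Nat.sInf_le ⟨B, hB, rfl⟩
  obtain ⟨hMn, hKM, hMk⟩ := hM0
  have hMi : M.index ≠ 0 := l4_index hKM hfin
  -- the subgroups above `M`
  have hup : ∀ B : Subgroup H, B.Normal → M ≤ B → B ≠ M → ∃ k, dser X k ≤ B := by
    intro B hB hMB hne
    by_contra hcon
    push Not at hcon
    apply hne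
    exact (l4_eq hMB hMi (hMmin B ⟨hB, hKM.trans hMB, hcon⟩)).symm
  have hinf : ∀ B₁ B₂ : Subgroup H, B₁.Normal → M ≤ B₁ → B₁ ≠ M → B₂.Normal → M ≤ B₂ → B₂ ≠ M →
      B₁ ⊓ B₂ ≠ M := by
    intro B₁ B₂ h1 h2 h3 h4 h5 h6 h7
    obtain ⟨k₁, hk₁⟩ := hup B₁ h1 h2 h3
    obtain ⟨k₂, hk₂⟩ := hup B₂ h4 h5 h6
    apply hMk (max k₁ k₂)
    rw [← h7]
    exact le_inf ((dser_anti X _ _ (le_max_left k₁ k₂)).trans hk₁)
      ((dser_anti X _ _ (le_max_right k₁ k₂)).trans hk₂)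
  have htop : (⊤ : Subgroup H) ≠ M := by
    intro h0
    apply hMk 0
    rw [← h0]
    exact le_top
  -- the smallest one
  obtain ⟨A, ⟨hAn, hMA, hAM⟩, hAmax⟩ : ∃ A : Subgroup H, (A.Normal ∧ M ≤ A ∧ A ≠ M) ∧
      ∀ B : Subgroup H, (B.Normal ∧ M ≤ B ∧ B ≠ M) → B.index ≤ A.index := by
    have hne : {n : ℕ | ∃ A : Subgroup H, (A.Normal ∧ M ≤ A ∧ A ≠ M) ∧ A.index = n}.Nonempty :=
      ⟨_, ⊤, ⟨inferInstance, le_top, htop⟩, rfl⟩
    have hbdd : BddAbove {n : ℕ | ∃ A : Subgroup H, (A.Normal ∧ M ≤ A ∧ A ≠ M) ∧ A.index = n} := by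
      refine ⟨M.index, ?_⟩
      rintro n ⟨A, ⟨_, hA, _⟩, rfl⟩
      exact Nat.le_of_dvd (Nat.pos_of_ne_zero hMi) (Subgroup.index_dvd_of_le hA)
    obtain ⟨A, hA, hAi⟩ := Nat.sSup_mem hne hbdd
    refine ⟨A, hA, fun B hB => ?_⟩
    rw [hAi]
    exact le_csSup hbdd ⟨B, hB, rfl⟩
  refine ⟨M, ⟨A, ⟨hMn, hAn, hMi, hMA, ?_, ?_⟩⟩, hKM, hMk 0⟩
  · by_contra hcon
    push Not at hcon
    obtain ⟨k, hk⟩ := hup A hAn hMA hAM
    apply hMk (k + 1)
    refine (Subgroup.commutator_mono hk hk).trans ?_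
    exact Subgroup.commutator_le.2 hcon
  · intro B hB hMB hBM
    have hn : (A ⊓ B).Normal := Subgroup.normal_inf_normal A B
    have h1 := hAmax (A ⊓ B) ⟨hn, le_inf hMA hMB, hinf A B hAn hMA hAM hB hMB hBM⟩
    have h2 : (A ⊓ B).index ≠ 0 := l4_index (le_inf hMA hMB) hMi
    have h3 : A ⊓ B = A := l4_eq inf_le_left h2 h1
    rw [← h3]
    exact inf_le_right

end ALP
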