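import Pool.Agent.ALP.L5a
import Pool.Agent.ALP.Defs

/-!
# [ALP-L5] reduction to rational function fields
-/

set_option autoImplicit false

namespace ALP

open AG ALG

/-- the elements with entries in `L` -/
private def L5_S {H : Type*} [Group H] {K : Type*} [Field K] {N : ℕ}
    (ρ : H →* Matrix.GeneralLinearGroup (Fin N) K) (L : Subfield K) : Subgroup H where
  carrier := {h | (∀ i j, (ρ h : Matrix (Fin N) (Fin N) K) i j ∈ L) ∧
    ∀ i j, (ρ h⁻¹ : Matrix (Fin N) (Fin N) K) i j ∈ L}
  one_mem' := by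
    have h1 : ∀ i j, (ρ (1 : H) : Matrix (Fin N) (Fin N) K) i j ∈ L := by
      intro i j
      rw [map_one, Units.val_one, Matrix.one_apply]
      split_ifs
      · exact one_mem L
      · exact zero_mem L
    refine ⟨h1, ?_⟩
    rw [inv_one]
    exact h1
  mul_mem' := by
    rintro a b ⟨ha, ha'⟩ ⟨hb, hb'⟩
    refine ⟨fun i j => ?_, fun i j => ?_⟩
    · rw [map_mul, Units.val_mul, Matrix.mul_apply]
      exact sum_mem fun k _ => mul_mem (ha i k) (hb k j)
    · rw [mul_inv_rev, map_mul, Units.val_mul, Matrix.mul_apply]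
      exact sum_mem fun k _ => mul_mem (hb' i k) (ha' k j)
  inv_mem' := by
    rintro a ⟨ha, ha'⟩
    refine ⟨ha', ?_⟩
    rw [inv_inv]
    exact ha

/-- PROOF. `X` = the finite set of the entries of `ρ t`, `ρ t⁻¹`, `t ∈ T`; `L, d, e, φ` from `exists_matrix_embedding`. All entries of all `ρ h` are in `L` (`H` is generated by `T`), so `ρ` gives a homomorphism `ρL : H →* Matrix (Fin N) (Fin N) L`; compose with the ring homomorphism `Matrix (Fin N) (Fin N) L → Matrix (Fin N) (Fin N) (Matrix (Fin e) (Fin e) (RF p d)) ≃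
Matrix (Fin N × Fin e) (Fin N × Fin e) (RF p d) ≃ Matrix (Fin (N * e)) _ _` (`RingHom.mapMatrix`, `Matrix.compRingEquiv`, `Matrix.reindexAlgEquiv` with `finProdFinEquiv`), which is injective; `MonoidHom.toHomUnits`. So the kernels are equal. -/
theorem reduce_field (p : ℕ) [Fact p.Prime] {H : Type*} [Group H] (T : Finset H)
    (hT : Subgroup.closure (T : Set H) = ⊤) {K : Type*} [Field K] [CharP K p] (N : ℕ)
    (ρ : H →* Matrix.GeneralLinearGroup (Fin N) K) :
    ∃ (d N' : ℕ) (ρ' : H →* Matrix.GeneralLinearGroup (Fin N') (RF p d)), ρ'.ker = ρ.ker := by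
  classical
  obtain ⟨L, d, e, φ, hX, hφ⟩ := exists_matrix_embedding p
    (T.biUnion fun t => (Finset.univ.image fun ij : Fin N × Fin N => (ρ t : Matrix (Fin N) (Fin N) K) ij.1 ij.2) ∪
      (Finset.univ.image fun ij : Fin N × Fin N => (ρ t⁻¹ : Matrix (Fin N) (Fin N) K) ij.1 ij.2))
  have hS : ∀ h : H, h ∈ L5_S ρ L := by
    have h1 : Subgroup.closure (T : Set H) ≤ L5_S ρ L := by
      rw [Subgroup.closure_le]
      intro t ht
      refine ⟨fun i j => hX _ ?_, fun i j => hX _ ?_⟩
      · exact Finset.mem_biUnion.2 ⟨t, ht, Finset.mem_union_left _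
          (Finset.mem_image.2 ⟨(i, j), Finset.mem_univ _, rfl⟩)⟩
      · exact Finset.mem_biUnion.2 ⟨t, ht, Finset.mem_union_right _
          (Finset.mem_image.2 ⟨(i, j), Finset.mem_univ _, rfl⟩)⟩
    rw [hT] at h1
    intro h
    exact h1 (Subgroup.mem_top h)
  let ρL : H →* Matrix (Fin N) (Fin N) L :=
    { toFun := fun h => Matrix.of fun i j => ⟨(ρ h : Matrix (Fin N) (Fin N) K) i j, (hS h).1 i j⟩
      map_one' := by
        ext i j
        show (ρ (1 : H) : Matrix (Fin N) (Fin N) K) i j = ((1 : Matrix (Fin N) (Fin N) L) i j : K)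
        rw [map_one, Units.val_one, Matrix.one_apply, Matrix.one_apply]
        split_ifs <;> rfl
      map_mul' := by
        intro a b
        ext i j
        show (ρ (a * b) : Matrix (Fin N) (Fin N) K) i j = _
        rw [map_mul, Units.val_mul, Matrix.mul_apply, Matrix.mul_apply]
        push_cast
        rfl }
  have hρL : ∀ h, ρL h = 1 ↔ ρ h = 1 := by
    intro h
    constructor
    · intro h1
      apply Units.ext
      ext i j
      have h2 : ((ρL h i j : L) : K) = ((1 : Matrix (Fin N) (Fin N) L) i j : K) := by rw [h1]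
      have h3 : ((ρL h i j : L) : K) = (ρ h : Matrix (Fin N) (Fin N) K) i j := rfl
      rw [h3, Matrix.one_apply] at h2
      rw [h2, Units.val_one, Matrix.one_apply]
      split_ifs <;> rfl
    · intro h1
      ext i j
      show (ρ h : Matrix (Fin N) (Fin N) K) i j = ((1 : Matrix (Fin N) (Fin N) L) i j : K)
      rw [h1, Units.val_one, Matrix.one_apply, Matrix.one_apply]
      split_ifs <;> rfl
  let Ψ : Matrix (Fin N) (Fin N) L →+* Matrix (Fin (N * e)) (Fin (N * e)) (RF p d) :=
    ((Matrix.reindexRingEquiv (RF p d) finProdFinEquiv).toRingHom.comp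
      (Matrix.compRingEquiv (Fin N) (Fin e) (RF p d)).toRingHom).comp φ.mapMatrix
  have hΨ : Function.Injective Ψ := by
    intro a b hab
    have hab' : Matrix.reindexRingEquiv (RF p d) finProdFinEquiv
        (Matrix.compRingEquiv (Fin N) (Fin e) (RF p d) (φ.mapMatrix a)) =
        Matrix.reindexRingEquiv (RF p d) finProdFinEquiv
        (Matrix.compRingEquiv (Fin N) (Fin e) (RF p d) (φ.mapMatrix b)) := hab
    have h1 := (Matrix.compRingEquiv (Fin N) (Fin e) (RF p d)).injective
      ((Matrix.reindexRingEquiv (RF p d) finProdFinEquiv).injective hab')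
    exact Matrix.map_injective hφ h1
  refine ⟨d, N * e, (Ψ.toMonoidHom.comp ρL).toHomUnits, ?_⟩
  ext h
  rw [MonoidHom.mem_ker, MonoidHom.mem_ker, ← hρL h, Units.ext_iff, MonoidHom.coe_toHomUnits, Units.val_one]
  constructor
  · intro h1
    apply hΨ
    rw [map_one]
    exact h1
  · intro h1
    show Ψ (ρL h) = 1
    rw [h1, map_one]

end ALP
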