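import Mathlib

/-!
# [ALP-L5a] finitely generated fields of positive characteristic
-/

set_option autoImplicit false

namespace ALP

/-- PROOF. `L = IntermediateField.adjoin (ZMod p) (X : Set K)` (`K` is an algebra over `ZMod p`: `ZMod.algebra K p`), it contains `X`. `L` has a finite transcendence basis `s ⊆ X` over `ZMod p`, with `d` elements (`exists_isTranscendenceBasis_subset` or similar); the subfield `L₀ = adjoin s ⊆ L` is isomorphic to `FractionRing (MvPolynomial (Fin d) (ZMod p))` (algebraic
independence: `MvPolynomial (Fin d) (ZMod p) → L` is injective, extend to the fraction field: `IsFractionRing.lift`); this makes `L` an algebra over `RF`, algebraic and generated by the finite set `X` as a field, so finite-dimensional (`IntermediateField.finiteDimensional_adjoin`, or `Algebra.IsAlgebraic` and `EssFiniteType`). The left regular representation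
`Algebra.leftMulMatrix` of a basis (reindexed to `Fin e`) is an injective ring homomorphism. -/
theorem exists_matrix_embedding (p : ℕ) [Fact p.Prime] {K : Type*} [Field K] [CharP K p]
    (X : Finset K) : ∃ (L : Subfield K) (d e : ℕ)
      (φ : L →+* Matrix (Fin e) (Fin e) (FractionRing (MvPolynomial (Fin d) (ZMod p)))),
      (∀ x ∈ X, x ∈ L) ∧ Function.Injective φ := by
  classical
  let _ : Algebra (ZMod p) K := ZMod.algebra K p
  let L : IntermediateField (ZMod p) K := IntermediateField.adjoin (ZMod p) (X : Set K)
  have h1 : Algebra.EssFiniteType (ZMod p) L :=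
    IntermediateField.essFiniteType_iff.2 (IntermediateField.fg_adjoin_finset X)
  obtain ⟨s, hs⟩ := exists_finset_isTranscendenceBasis (ZMod p) L
  have hs2 : IsTranscendenceBasis (ZMod p) (fun i : Fin s.card => ((s.equivFin.symm i : s) : L)) :=
    hs.comp_equiv s.equivFin.symm
  set x : Fin s.card → L := fun i : Fin s.card => ((s.equivFin.symm i : s) : L) with hx
  have h2 : Algebra.IsAlgebraic (IntermediateField.adjoin (ZMod p) (Set.range x)) L :=
    hs2.isAlgebraic_field
  have h3 : Algebra.EssFiniteType (IntermediateField.adjoin (ZMod p) (Set.range x)) L :=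
    Algebra.EssFiniteType.of_comp (ZMod p) _ L
  have h4 : Module.Finite (IntermediateField.adjoin (ZMod p) (Set.range x)) L :=
    Algebra.finite_of_essFiniteType_of_isAlgebraic
  let b := Module.finBasis (IntermediateField.adjoin (ZMod p) (Set.range x)) L
  let E := hs2.1.aevalEquivField
  let φ1 : L →+* Matrix (Fin (Module.finrank (IntermediateField.adjoin (ZMod p) (Set.range x)) L))
      (Fin (Module.finrank (IntermediateField.adjoin (ZMod p) (Set.range x)) L))
      (IntermediateField.adjoin (ZMod p) (Set.range x)) := (Algebra.leftMulMatrix b).toRingHom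
  have hφ1 : Function.Injective φ1 := Algebra.leftMulMatrix_injective b
  let ψ : (IntermediateField.adjoin (ZMod p) (Set.range x)) →+*
      FractionRing (MvPolynomial (Fin s.card) (ZMod p)) := E.symm.toRingEquiv.toRingHom
  have hψ : Function.Injective ψ := E.symm.injective
  let φ0 : L.toSubfield →+* L :=
    { toFun := fun y => ⟨y.1, y.2⟩
      map_one' := rfl
      map_mul' := fun _ _ => rfl
      map_zero' := rfl
      map_add' := fun _ _ => rfl }
  have hφ0 : Function.Injective φ0 := fun a c h => Subtype.ext (congrArg Subtype.val h)
  refine ⟨L.toSubfield, s.card, _, (ψ.mapMatrix.comp φ1).comp φ0, ?_, ?_⟩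
  · intro y hy
    exact IntermediateField.subset_adjoin (ZMod p) _ hy
  · intro y z h
    apply hφ0
    apply hφ1
    simp only [RingHom.comp_apply, RingHom.mapMatrix_apply] at h
    exact Matrix.map_injective hψ h

end ALP
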