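import Pool.Agent.ALP.K3b
import Pool.Agent.ALP.K4
import Pool.Agent.ALP.K7

/-!
# [ALP-L6a] the quotients of a level
-/

set_option autoImplicit false

namespace ALP

open AG ALG

/-- PROOF. `Finite`: the homomorphisms `σ : H →* GL_N(F)` (`F` finite) are determined by their values on `T`, so there are at most `|GL_N(F)| ^ T.card ≤ p ^ (j N² T.card)` (`Matrix.card_GL_field`, `GaloisField.card`, `glc_le`); for each `σ` the subgroups above `σ.ker` (of finite index) are finitely many. For fixed `σ` let `𝓕` be the finite set of the `M` with `IsMono M`,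
`σ.ker ≤ M`. `prod_le_gam` (`D = σ.ker`) and `gam T σ.ker n ≤ σ.ker.index` (the set of all cosets is finite with `index` elements) and `2 ≤ relIndex` give `2 ^ 𝓕.card ≤ σ.ker.index ≤ p ^ (j N²)`, so `𝓕.card ≤ p ^ (j N²)` (`n < 2 ^ n`). Together at most `p ^ (j N² T.card) * p ^ (j N²)`. `M.index ∣ σ.ker.index = Nat.card σ.range ∣ Nat.card GL_N(F) = glc p N j`
(`Subgroup.index_dvd_of_le`, `Subgroup.index_ker`, `Subgroup.card_subgroup_dvd_card`). -/
theorem level_finite {H : Type*} [Group H] (T : Finset H)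
    (hT : Subgroup.closure (T : Set H) = ⊤) (p : ℕ) [Fact p.Prime] (N j : ℕ) (hj : 1 ≤ j)
    (R : Subgroup H) :
    {M : Subgroup H | IsMono M ∧
      ∃ σ : H →* Matrix.GeneralLinearGroup (Fin N) (GaloisField p j), R ≤ σ.ker ∧ σ.ker ≤ M}.Finite ∧
    {M : Subgroup H | IsMono M ∧
      ∃ σ : H →* Matrix.GeneralLinearGroup (Fin N) (GaloisField p j),
        R ≤ σ.ker ∧ σ.ker ≤ M}.ncard ≤ p ^ (N ^ 2 * (T.card + 1) * j) ∧
    ∀ (M : Subgroup H) (σ : H →* Matrix.GeneralLinearGroup (Fin N) (GaloisField p j)),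
      σ.ker ≤ M → M.index ∣ glc p N j := by
  classical
  have hj0 : j ≠ 0 := by omega
  haveI : Fintype (GaloisField p j) := Fintype.ofFinite _
  have hp : p.Prime := Fact.out
  have hG : Nat.card (Matrix.GeneralLinearGroup (Fin N) (GaloisField p j)) = glc p N j := by
    rw [Matrix.card_GL_field]
    unfold glc
    rw [Fintype.card_eq_nat_card, GaloisField.card p j hj0]
  have hGpos : 0 < glc p N j := glc_pos p N j hp hj
  have hGle : glc p N j ≤ p ^ (j * N ^ 2) := glc_le p N j
  have hidx : ∀ σ : H →* Matrix.GeneralLinearGroup (Fin N) (GaloisField p j), σ.ker.index ∣ glc p N j := by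
    intro σ
    rw [Subgroup.index_ker, ← hG]
    exact Subgroup.card_subgroup_dvd_card _
  have hidx0 : ∀ σ : H →* Matrix.GeneralLinearGroup (Fin N) (GaloisField p j), σ.ker.index ≠ 0 := by
    intro σ h
    have h1 := hidx σ
    rw [h, zero_dvd_iff] at h1
    omega
  have hfin : ∀ σ : H →* Matrix.GeneralLinearGroup (Fin N) (GaloisField p j),
      {M : Subgroup H | IsMono M ∧ σ.ker ≤ M}.Finite := by
    intro σ
    refine (Set.finite_range (fun K : Subgroup (Matrix.GeneralLinearGroup (Fin N) (GaloisField p j)) =>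
      K.comap σ)).subset ?_
    rintro M ⟨-, hM⟩
    exact ⟨M.map σ, Subgroup.comap_map_eq_self hM⟩
  have hcard : ∀ σ : H →* Matrix.GeneralLinearGroup (Fin N) (GaloisField p j),
      (hfin σ).toFinset.card ≤ p ^ (j * N ^ 2) := by
    intro σ
    have hA : ∀ M ∈ (hfin σ).toFinset, Mono M (if h : IsMono M then h.choose else M) := by
      intro M hM
      have h1 : IsMono M := ((hfin σ).mem_toFinset.1 hM).1
      rw [dif_pos h1]
      exact h1.choose_spec
    have h2 := prod_le_gam T hT (hfin σ).toFinset (fun M => if h : IsMono M then h.choose else M) hA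
      (∑ M ∈ (hfin σ).toFinset, M.index) (max (hfin σ).toFinset.card 1)
      (fun M hM => Finset.single_le_sum (f := fun M : Subgroup H => M.index) (fun _ _ => Nat.zero_le _) hM)
      (le_max_left _ _) (le_max_right _ _) σ.ker (fun M hM => ((hfin σ).mem_toFinset.1 hM).2)
    have h3 : 2 ^ (hfin σ).toFinset.card ≤
        ∏ M ∈ (hfin σ).toFinset, M.relIndex (if h : IsMono M then h.choose else M) := by
      rw [← Finset.prod_const]
      exact Finset.prod_le_prod (fun _ _ => Nat.zero_le _) (fun M hM => (hA M hM).two_le)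
    have h4 : ∀ n, gam T σ.ker n ≤ σ.ker.index := by
      intro n
      haveI : σ.ker.FiniteIndex := ⟨hidx0 σ⟩
      unfold gam
      rw [Subgroup.index]
      exact Set.ncard_le_card _
    exact (Nat.lt_two_pow_self.le.trans (h3.trans (h2.trans (h4 _)))).trans
      ((Nat.le_of_dvd hGpos (hidx σ)).trans hGle)
  have hinj : Function.Injective
      (fun (σ : H →* Matrix.GeneralLinearGroup (Fin N) (GaloisField p j)) (t : T) => σ (t : H)) := by
    intro σ τ h
    refine MonoidHom.eq_of_eqOn_dense hT ?_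
    intro t ht
    exact congrFun h ⟨t, ht⟩
  haveI : Finite (H →* Matrix.GeneralLinearGroup (Fin N) (GaloisField p j)) := Finite.of_injective _ hinj
  haveI : Fintype (H →* Matrix.GeneralLinearGroup (Fin N) (GaloisField p j)) := Fintype.ofFinite _
  have hhom : (Finset.univ : Finset (H →* Matrix.GeneralLinearGroup (Fin N) (GaloisField p j))).card ≤
      (p ^ (j * N ^ 2)) ^ T.card := by
    have h1 := Nat.card_le_card_of_injective _ hinj
    rw [Nat.card_fun, hG, Nat.card_eq_fintype_card (α := T), Fintype.card_coe] at h1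
    rw [Finset.card_univ, Fintype.card_eq_nat_card]
    exact h1.trans (Nat.pow_le_pow_left hGle _)
  have hsub : {M : Subgroup H | IsMono M ∧
      ∃ σ : H →* Matrix.GeneralLinearGroup (Fin N) (GaloisField p j), R ≤ σ.ker ∧ σ.ker ≤ M} ⊆
      ((Finset.univ.biUnion fun σ : H →* Matrix.GeneralLinearGroup (Fin N) (GaloisField p j) =>
        (hfin σ).toFinset : Finset (Subgroup H)) : Set (Subgroup H)) := by
    rintro M ⟨hM, σ, -, hσ⟩
    rw [Finset.mem_coe]
    exact Finset.mem_biUnion.2 ⟨σ, Finset.mem_univ _, (hfin σ).mem_toFinset.2 ⟨hM, hσ⟩⟩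
  refine ⟨(Finset.finite_toSet _).subset hsub, ?_, ?_⟩
  · refine (Set.ncard_le_ncard hsub (Finset.finite_toSet _)).trans ?_
    rw [Set.ncard_coe_finset]
    refine (Finset.card_biUnion_le_card_mul _ _ _ (fun σ _ => hcard σ)).trans ?_
    refine (Nat.mul_le_mul_right _ hhom).trans (le_of_eq ?_)
    rw [← pow_mul, ← pow_add]
    congr 1
    ring
  · intro M σ hM
    exact (Subgroup.index_dvd_of_le hM).trans (hidx σ)

end ALP
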