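import Pool.Agent.ALP.Z5

/-!
# [ALP-Z6] the derived length of solvable linear groups over finite fields
-/

set_option autoImplicit false

namespace ALP

open AG ALG

/-- PROOF. `f` from `derived_length N`. Let `S = X.map σ` (a finite group: a subgroup of the finite group `GL_N(F)`), which is a group in `Type`. `(∃ k, dser (⊤ : Subgroup S) k = ⊥)` by `dser_map`. The representation of `S` on `Fin N → AlgebraicClosure F`: `Matrix.toLin'` (`Matrix.toLinAlgEquiv'`) of the matrices mapped by `algebraMap F (AlgebraicClosure F)`;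
`finrank = N`. It is injective, so `dser (⊤ : Subgroup S) f = ⊥`, so `(dser X f).map σ = dser S f = ⊥`. -/
theorem derived_length_finite (N : ℕ) : ∃ f : ℕ, ∀ (F : Type) [Field F] [Finite F] {H : Type*}
    [Group H] (σ : H →* Matrix.GeneralLinearGroup (Fin N) F) (X : Subgroup H),
    (∃ k, dser X k ≤ σ.ker) → dser X f ≤ σ.ker := by
  obtain ⟨f, hf⟩ := derived_length N
  refine ⟨f, ?_⟩
  intro F _ _ H _ σ X hX
  classical
  have hfin : Finite (Matrix.GeneralLinearGroup (Fin N) F) := by
    have : Fintype F := Fintype.ofFinite F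
    infer_instance
  -- the image
  set S : Subgroup (Matrix.GeneralLinearGroup (Fin N) F) := X.map σ with hS
  have hmapS : ∀ i, (dser (⊤ : Subgroup S) i).map S.subtype = dser S i := by
    intro i
    rw [dser_map, ← MonoidHom.range_eq_map, Subgroup.range_subtype]
  have hmapX : ∀ i, (dser X i).map σ = dser S i := fun i => dser_map σ X i
  have hS1 : ∃ k, dser (⊤ : Subgroup S) k = ⊥ := by
    obtain ⟨k, hk⟩ := hX
    refine ⟨k, ?_⟩
    have h1 : (dser X k).map σ = ⊥ := (Subgroup.map_eq_bot_iff _).2 hk
    rw [hmapX, ← hmapS] at h1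
    exact (Subgroup.map_eq_bot_iff_of_injective _ S.subtype_injective).1 h1
  -- the representation over the algebraic closure
  let E := AlgebraicClosure F
  let ψ : Matrix (Fin N) (Fin N) F →* Module.End E (Fin N → E) :=
    ((Matrix.toLinAlgEquiv' (R := E) (n := Fin N)).toAlgHom.toRingHom.toMonoidHom).comp
      ((algebraMap F E).mapMatrix (m := Fin N)).toMonoidHom
  let ρ : S →* Module.End E (Fin N → E) :=
    (ψ.comp (Units.coeHom (Matrix (Fin N) (Fin N) F))).comp S.subtype
  have hinj : ∀ s : S, ρ s = 1 → s = 1 := by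
    intro s hs
    have h1 : Matrix.toLinAlgEquiv' (R := E) (n := Fin N)
        (((algebraMap F E).mapMatrix (m := Fin N))
          ((s : Matrix.GeneralLinearGroup (Fin N) F) : Matrix (Fin N) (Fin N) F)) = 1 := hs
    have h2 : ((algebraMap F E).mapMatrix (m := Fin N))
        ((s : Matrix.GeneralLinearGroup (Fin N) F) : Matrix (Fin N) (Fin N) F) = 1 := by
      apply (Matrix.toLinAlgEquiv' (R := E) (n := Fin N)).injective
      rw [h1, map_one]
    have h3 : ((s : Matrix.GeneralLinearGroup (Fin N) F) : Matrix (Fin N) (Fin N) F) = 1 := by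
      ext i j
      have h4 := congrFun (congrFun h2 i) j
      rw [RingHom.mapMatrix_apply, Matrix.map_apply, Matrix.one_apply] at h4
      rw [Matrix.one_apply]
      apply (algebraMap F E).injective
      rw [h4]
      split_ifs <;> simp
    exact Subtype.ext (Units.ext h3)
  have h5 : dser (⊤ : Subgroup S) f = ⊥ := by
    rw [eq_bot_iff]
    intro x hx
    have h6 := hf E (Fin N → E) S ρ (by rw [Module.finrank_fin_fun]) hS1 x hx
    exact Subgroup.mem_bot.2 (hinj x h6)
  have h7 : (dser X f).map σ = ⊥ := by
    rw [hmapX, ← hmapS, h5, Subgroup.map_bot]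
  exact (Subgroup.map_eq_bot_iff _).1 h7

end ALP
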