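import Pool.Agent.ALP.L1
import Pool.Agent.ALP.L3
import Pool.Agent.ALP.L4
import Pool.Agent.ALP.L6a
import Pool.Agent.ALP.Z6

/-!
# [ALP-L6] linear groups over rational function fields have levels
-/

set_option autoImplicit false

namespace ALP

open AG ALG

/-- the quotients of level `j` -/
def lev {H : Type*} [Group H] (p : ℕ) [Fact p.Prime] (N : ℕ) (R : Subgroup H) (j : ℕ) :
    Set (Subgroup H) :=
  {M : Subgroup H | IsMono M ∧
    ∃ σ : H →* Matrix.GeneralLinearGroup (Fin N) (GaloisField p j), R ≤ σ.ker ∧ σ.ker ≤ M}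

theorem sigma_ker_index {H : Type*} [Group H] (p : ℕ) [Fact p.Prime] (N j : ℕ)
    (σ : H →* Matrix.GeneralLinearGroup (Fin N) (GaloisField p j)) : σ.ker.index ≠ 0 := by
  have h1 : Finite (GaloisField p j) := inferInstance
  have h2 : Finite (Matrix.GeneralLinearGroup (Fin N) (GaloisField p j)) := inferInstance
  have h3 : σ.ker.FiniteIndex := inferInstance
  exact h3.index_ne_zero

theorem map_derivedSeries {G : Type*} [Group G] (K : Subgroup G) (i : ℕ) :
    (derivedSeries K i).map K.subtype = dser K i := by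
  induction i with
  | zero =>
    rw [derivedSeries_zero, ← MonoidHom.range_eq_map, Subgroup.range_subtype]
    rfl
  | succ i ih =>
    rw [derivedSeries_succ, Subgroup.map_commutator, ih]
    rfl

theorem exists_levels {H : Type*} [Group H] (T : Finset H)
    (hT : Subgroup.closure (T : Set H) = ⊤) (p : ℕ) [Fact p.Prime] (d N : ℕ)
    (ρ : H →* Matrix.GeneralLinearGroup (Fin N) (RF p d)) (hρ : ¬ VirtSolvable ρ.range) :
    ∃ (D : Subgroup H) (C : ℕ) (K : ℕ → Finset (Subgroup H)), Levels T D p N C K := by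
  classical
  have hp : p.Prime := Fact.out
  obtain ⟨f, hf⟩ := derived_length_finite N
  obtain ⟨C₁, hC₁⟩ := spec_words p d N T hT ρ
  obtain ⟨r, hr⟩ := short_witness T hT N ρ f
  have hfin : ∀ j, 1 ≤ j → (lev p N ρ.ker j).Finite := fun j hj =>
    (level_finite T hT p N j hj ρ.ker).1
  let K : ℕ → Finset (Subgroup H) := fun j => if hj : 1 ≤ j then (hfin j hj).toFinset else ∅
  have hK : ∀ j M, M ∈ K j ↔ 1 ≤ j ∧ M ∈ lev p N ρ.ker j := by
    intro j M
    by_cases hj : 1 ≤ j
    · simp only [K, dif_pos hj, Set.Finite.mem_toFinset, hj, true_and]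
    · simp only [K, dif_neg hj, hj, false_and, Finset.notMem_empty]
  let D : Subgroup H := ⨅ (j : ℕ) (M ∈ K j), M
  have hD : ∀ x, x ∈ D ↔ ∀ j, ∀ M ∈ K j, x ∈ M := by
    intro x
    simp only [D, Subgroup.mem_iInf]
  have hDle : ∀ j, ∀ M ∈ K j, D ≤ M := fun j M hM x hx => (hD x).1 hx j M hM
  have hDn : D.Normal := by
    refine ⟨fun x hx g => ?_⟩
    rw [hD] at hx ⊢
    intro j M hM
    obtain ⟨A, hA⟩ := ((hK j M).1 hM).2.1
    exact hA.normal.conj_mem x (hx j M hM) g
  -- the mono subgroups above the kernel of a specialization are in the levels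
  have hmem : ∀ j, 1 ≤ j → ∀ σ : H →* Matrix.GeneralLinearGroup (Fin N) (GaloisField p j),
      ρ.ker ≤ σ.ker → ∀ M, IsMono M → σ.ker ≤ M → M ∈ K j := by
    intro j hj σ hσ M hM hle
    exact (hK j M).2 ⟨hj, hM, σ, hσ, hle⟩
  refine ⟨D, max (N ^ 2 * (T.card + 1)) (C₁ * (4 ^ f * (2 * r + 1) + 1)), K, hp, hT, ?_, ?_, ?_,
    hDle, ?_, ?_⟩
  · -- infinite index
    by_contra hne
    apply hρ
    have h1 : ∀ j, 1 ≤ j → ∀ σ : H →* Matrix.GeneralLinearGroup (Fin N) (GaloisField p j),
        ρ.ker ≤ σ.ker → dser D f ≤ σ.ker := by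
      intro j hj σ hσ
      apply hf (GaloisField p j) σ D
      by_contra hcon
      push Not at hcon
      obtain ⟨M, hM, hle, hnle⟩ := exists_mono σ.ker D inferInstance (sigma_ker_index p N j σ)
        hDn hcon
      exact hnle (hDle j M (hmem j hj σ hσ M hM hle))
    have h2 : dser D f ≤ ρ.ker := by
      intro z hz
      by_contra hcon
      rw [MonoidHom.mem_ker] at hcon
      have hz1 : z ∈ Subgroup.closure (T : Set H) := by rw [hT]; trivial
      obtain ⟨n, hn⟩ := exists_mem_ball hz1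
      have hlt : C₁ * (n + 1) < p ^ (C₁ * (n + 1) + 1) :=
        lt_of_lt_of_le (Nat.lt_pow_self hp.one_lt) (Nat.pow_le_pow_right hp.pos (Nat.le_succ _))
      obtain ⟨σ, hσ, hσz⟩ := hC₁ (C₁ * (n + 1) + 1) n (by omega) hlt z hn hcon
      exact hσz (h1 _ (by omega) σ hσ hz)
    -- `ρ(D)` is solvable of finite index
    refine ⟨D.map ρ.rangeRestrict, ?_, ?_⟩
    · have h3 := Subgroup.index_map_dvd D ρ.rangeRestrict_surjective
      refine ⟨fun h4 => hne ?_⟩
      rw [h4] at h3
      exact Nat.eq_zero_of_zero_dvd h3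
    · refine ⟨f, ?_⟩
      apply Subgroup.map_injective (D.map ρ.rangeRestrict).subtype_injective
      rw [map_derivedSeries, ← dser_map, Subgroup.map_bot, Subgroup.map_eq_bot_iff,
        MonoidHom.ker_rangeRestrict]
      exact h2
  · intro j M hM
    exact ((hK j M).1 hM).2.1
  · intro j hj M hM
    obtain ⟨_, σ, _, hσ⟩ := ((hK j M).1 hM).2
    exact (level_finite T hT p N j hj ρ.ker).2.2 M σ hσ
  · intro j hj
    have h1 := (level_finite T hT p N j hj ρ.ker).2.1
    have h2 : (K j).card = (lev p N ρ.ker j).ncard := by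
      simp only [K, dif_pos hj]
      rw [Set.ncard_eq_toFinset_card _ (hfin j hj)]
    rw [h2]
    exact h1.trans (Nat.pow_le_pow_right hp.pos (Nat.mul_le_mul_right _ (le_max_left _ _)))
  · intro j n hj hlt x hx hxM
    rw [hD]
    intro i M hM
    by_contra hxM'
    obtain ⟨hi, ⟨A, hA⟩, τ, hτ, hτM⟩ := (hK i M).1 hM
    have hAn := hA.normal
    have hX : ¬ Subgroup.normalClosure {x} ≤ M := fun hle =>
      hxM' (hle (Subgroup.subset_normalClosure (Set.mem_singleton x)))
    have h1 : ¬ dser (Subgroup.normalClosure {x}) f ≤ ρ.ker := fun hle =>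
      hA.dser_not_le inferInstance hX f ((hle.trans hτ).trans hτM)
    obtain ⟨z, hz, hzX, hρz⟩ := hr n x hx h1
    have h2 : C₁ * (4 ^ f * (n + 2 * r) + 1) < p ^ j := by
      refine lt_of_le_of_lt ?_ hlt
      have h3 : C₁ * (4 ^ f * (2 * r + 1) + 1) * (n + 1) ≤
          max (N ^ 2 * (T.card + 1)) (C₁ * (4 ^ f * (2 * r + 1) + 1)) * (n + 1) :=
        Nat.mul_le_mul_right _ (le_max_right _ _)
      refine le_trans ?_ h3
      rw [mul_assoc]
      refine Nat.mul_le_mul_left _ ?_
      nlinarith [Nat.zero_le (4 ^ f * r * n), Nat.zero_le (4 ^ f), Nat.zero_le (4 ^ f * n)]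
    obtain ⟨σ, hσ, hσz⟩ := hC₁ j _ hj h2 z hz hρz
    have h4 : ∀ k, ¬ dser (Subgroup.normalClosure {x}) k ≤ σ.ker := by
      intro k hk
      exact hσz (hf (GaloisField p j) σ (Subgroup.normalClosure {x}) ⟨k, hk⟩ hzX)
    obtain ⟨M', hM', hle', hnle'⟩ := exists_mono σ.ker (Subgroup.normalClosure {x}) inferInstance
      (sigma_ker_index p N j σ) inferInstance h4
    apply hnle'
    obtain ⟨A', hA'⟩ := hM'
    have hA'n := hA'.normal
    exact Subgroup.normalClosure_le_normal (Set.singleton_subset_iff.2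
      (hxM M' (hmem j hj σ hσ M' ⟨A', hA'⟩ hle')))

end ALP
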