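import Pool.Agent.ALG.Z
import Pool.Agent.ALP.K16
import Pool.Agent.ALP.L5
import Pool.Agent.ALP.L6

/-!
# [ALP-Main] linear groups over all fields (helper52)
-/

set_option autoImplicit false

universe u v

namespace ALP

open AG ALG

theorem virtSolvable_of_equiv {G G' : Type*} [Group G] [Group G'] (e : G ≃* G')
    (h : VirtSolvable G) : VirtSolvable G' := by
  obtain ⟨H, hH, n, hn⟩ := h
  refine ⟨H.map e.toMonoidHom, ?_, n, ?_⟩
  · have h1 := Subgroup.index_map_dvd H (f := e.toMonoidHom) e.surjective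
    refine ⟨fun h2 => hH.index_ne_zero ?_⟩
    rw [h2] at h1
    exact Nat.eq_zero_of_zero_dvd h1
  · apply Subgroup.map_injective (H.map e.toMonoidHom).subtype_injective
    rw [map_derivedSeries, ← dser_map, Subgroup.map_bot, ← map_derivedSeries, hn, Subgroup.map_bot,
      Subgroup.map_bot]

theorem not_polyBdd_charP (p : ℕ) (hp : p.Prime) {H : Type*} [Group H] (T : Finset H)
    (hT : Subgroup.closure (T : Set H) = ⊤) {K : Type*} [Field K] [CharP K p] (N : ℕ)
    (ρ : H →* Matrix.GeneralLinearGroup (Fin N) K) (h : ¬ VirtSolvable ρ.range) :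
    ¬ PolyBdd (autGrowth T) := by
  have : Fact p.Prime := ⟨hp⟩
  obtain ⟨d, N', ρ', hker⟩ := reduce_field p T hT N ρ
  have h' : ¬ VirtSolvable ρ'.range := by
    intro hs
    apply h
    exact virtSolvable_of_equiv ((QuotientGroup.quotientKerEquivRange ρ').symm.trans
      ((QuotientGroup.quotientMulEquivOfEq hker).trans (QuotientGroup.quotientKerEquivRange ρ))) hs
  obtain ⟨D, C, K', hL⟩ := exists_levels T hT p d N' ρ' h'
  exact main2 hL

theorem not_polyBdd_linear {H : Type u} [Group H] (T : Finset H)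
    (hT : Subgroup.closure (T : Set H) = ⊤) {K : Type v} [Field K] (N : ℕ)
    (ρ : H →* Matrix.GeneralLinearGroup (Fin N) K) (h : ¬ Group.IsVirtuallyNilpotent ρ.range) :
    ¬ PolyBdd (autGrowth T) := by
  have hfg : Group.FG H := ⟨⟨T, hT⟩⟩
  by_cases hs : VirtSolvable ρ.range
  · obtain ⟨M, hM, h1, h2⟩ := AM.exists_char_of_virtual_quotient (⊤ : Subgroup H)
      (ρ.rangeRestrict.comp (Subgroup.topEquiv (G := H)).toMonoidHom)
      (ρ.rangeRestrict_surjective.comp (Subgroup.topEquiv (G := H)).surjective) hs h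
    exact not_polyBdd_of_exponential (AM.main T hT M h1 h2)
  · obtain ⟨p, hp⟩ := CharP.exists K
    rcases CharP.char_is_prime_or_zero K p with hpp | rfl
    · exact not_polyBdd_charP p hpp T hT N ρ hs
    · have : CharZero K := CharP.charP_to_charZero K
      exact not_polyBdd_of_linear T hT N ρ hs

theorem final {G : Type u} [Group G] (S : Finset G)
    (hS : Subgroup.closure (S : Set G) = ⊤) (H : Subgroup G) [H.FiniteIndex] {K : Type v} [Field K]
    (N : ℕ) (ρ : H →* Matrix.GeneralLinearGroup (Fin N) K)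
    (h : ¬ Group.IsVirtuallyNilpotent ρ.range) : ¬ PolyBdd (autGrowth S) := by
  have : Group.FG G := ⟨⟨S, hS⟩⟩
  obtain ⟨T, hT⟩ : ∃ T : Finset H, Subgroup.closure (T : Set H) = ⊤ :=
    (Group.fg_def (G := H)).1 inferInstance
  intro hp
  exact not_polyBdd_linear T hT N ρ h (polyBdd_sub S hS H T hp)

end ALP
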