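import Pool.Agent.ALP.Defs

/-!
# [ALP-Z1] the derived series of finite solvable groups
-/

set_option autoImplicit false

namespace ALP

open AG ALG

variable {S : Type*} [Group S]

theorem z1_succ_le (K : Subgroup S) (i : ℕ) : dser K (i + 1) ≤ dser K i := by
  show ⁅dser K i, dser K i⁆ ≤ dser K i
  rw [Subgroup.commutator_le]
  intro a ha b hb
  rw [commutatorElement_def]
  exact mul_mem (mul_mem (mul_mem ha hb) (inv_mem ha)) (inv_mem hb)

theorem dser_anti (K : Subgroup S) (i j : ℕ) (h : i ≤ j) : dser K j ≤ dser K i := by
  induction j, h using Nat.le_induction with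
  | base => exact le_rfl
  | succ j _ ih => exact (z1_succ_le K j).trans ih

theorem dser_mono {K L : Subgroup S} (h : K ≤ L) (i : ℕ) : dser K i ≤ dser L i := by
  induction i with
  | zero => exact h
  | succ i ih => exact Subgroup.commutator_mono ih ih

/-- PROOF. `dser K (i + j) = dser (dser K i) j`. -/
theorem dser_add (K : Subgroup S) (i j : ℕ) : dser K (i + j) = dser (dser K i) j := by
  induction j with
  | zero => rfl
  | succ j ih =>
    show ⁅dser K (i + j), dser K (i + j)⁆ = ⁅dser (dser K i) j, dser (dser K i) j⁆
    rw [ih]

theorem dser_normal (K : Subgroup S) (hK : K.Normal) (i : ℕ) : (dser K i).Normal := by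
  induction i with
  | zero => exact hK
  | succ i ih =>
    show (⁅dser K i, dser K i⁆).Normal
    infer_instance

/-- PROOF. Induction, `Subgroup.map_commutator`. -/
theorem dser_map {R : Type*} [Group R] (φ : S →* R) (K : Subgroup S) (i : ℕ) :
    (dser K i).map φ = dser (K.map φ) i := by
  induction i with
  | zero => rfl
  | succ i ih =>
    show (⁅dser K i, dser K i⁆).map φ = ⁅dser (K.map φ) i, dser (K.map φ) i⁆
    rw [Subgroup.map_commutator, ih]

/-- PROOF. Let `L = K.map φ`, so `Nat.card L ≤ m`, and `dser L k = (dser K k).map φ = ⊥`. As long as `dser L i ≠ ⊥`, `dser L (i + 1) < dser L i` (if they are equal then all later ones are equal, also `dser L k`, so it would be `⊥`), so the order decreases at least by `1`: `Nat.card (dser L i) + i ≤ m` while it is not `⊥`.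
So `dser L m = ⊥`, which means `dser K m ≤ φ.ker` (`dser_map`, `Subgroup.map_eq_bot_iff`). -/
theorem dser_le_ker_of_card {R : Type*} [Group R] [Finite R] (φ : S →* R) (K : Subgroup S) (m : ℕ)
    (hm : Nat.card (K.map φ) ≤ m) (k : ℕ) (hk : dser K k ≤ φ.ker) : dser K m ≤ φ.ker := by
  have hLk : dser (K.map φ) k = ⊥ := by
    rw [← dser_map, Subgroup.map_eq_bot_iff]
    exact hk
  rw [← Subgroup.map_eq_bot_iff, dser_map]
  generalize K.map φ = L at hm hLk
  have key : ∀ i, dser L i = ⊥ ∨ Nat.card (dser L i) + i ≤ m := by
    intro i
    induction i with
    | zero => exact Or.inr hm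
    | succ i ih =>
      rcases ih with h | h
      · left
        exact le_bot_iff.1 ((z1_succ_le L i).trans h.le)
      · by_cases h0 : dser L (i + 1) = ⊥
        · exact Or.inl h0
        · right
          have hne : dser L (i + 1) ≠ dser L i := by
            intro heq
            have hst : ∀ j, dser L (i + j) = dser L i := by
              intro j
              induction j with
              | zero => rfl
              | succ j ihj =>
                show ⁅dser L (i + j), dser L (i + j)⁆ = dser L i
                rw [ihj]
                exact heq
            have h1 : dser L i = ⊥ := by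
              rcases le_total i k with hik | hik
              · rw [← hst (k - i), Nat.add_sub_cancel' hik]
                exact hLk
              · exact le_bot_iff.1 ((dser_anti L k i hik).trans hLk.le)
            exact h0 (heq.trans h1)
          have hlt : Nat.card (dser L (i + 1)) < Nat.card (dser L i) := by
            by_contra hcon
            push Not at hcon
            exact hne (Subgroup.eq_of_le_of_card_ge (z1_succ_le L i) hcon)
          omega
  rcases key m with h | h
  · exact h
  · have : 0 < Nat.card (dser L m) := Nat.card_pos
    omega

end ALP
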