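import Pool.Agent.ALP.Z1

/-!
# [ALP-Z2] eigenspaces of a normal subgroup with commuting image
-/

set_option autoImplicit false

namespace ALP

open AG ALG

/-- the simultaneous eigenspace -/
def z2W {F V S : Type} [Field F] [AddCommGroup V] [Module F V] [Group S]
    (ρ : S →* Module.End F V) (A : Subgroup S) (χ : A → F) : Submodule F V :=
  ⨅ a : A, (ρ a).eigenspace (χ a)

theorem z2_mem {F V S : Type} [Field F] [AddCommGroup V] [Module F V] [Group S]
    (ρ : S →* Module.End F V) (A : Subgroup S) (χ : A → F) (v : V) :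
    v ∈ z2W ρ A χ ↔ ∀ a : A, ρ a v = χ a • v := by
  unfold z2W
  rw [Submodule.mem_iInf]
  refine forall_congr' fun a => ?_
  exact Module.End.mem_eigenspace_iff

theorem z2_common {F V S : Type} [Field F] [IsAlgClosed F] [AddCommGroup V] [Module F V]
    [FiniteDimensional F V] [Nontrivial V] [Group S] (ρ : S →* Module.End F V)
    (A : Subgroup S) (hcomm : ∀ a ∈ A, ∀ b ∈ A, ρ a * ρ b = ρ b * ρ a) :
    ∃ χ : A → F, z2W ρ A χ ≠ ⊥ := by
  classical
  have hex : ∃ n : ℕ, ∃ U : Submodule F V, U ≠ ⊥ ∧ (∀ a ∈ A, ∀ u ∈ U, ρ a u ∈ U) ∧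
      Module.finrank F U = n :=
    ⟨_, ⊤, top_ne_bot, fun _ _ _ _ => Submodule.mem_top, rfl⟩
  obtain ⟨U, hU, hinv, hdim⟩ := Nat.find_spec hex
  have hmin : ∀ U' : Submodule F V, U' ≠ ⊥ → (∀ a ∈ A, ∀ u ∈ U', ρ a u ∈ U') →
      Module.finrank F U ≤ Module.finrank F U' := by
    intro U' h1 h2
    rw [hdim]
    exact Nat.find_min' hex ⟨U', h1, h2, rfl⟩
  have hscal : ∀ a : A, ∃ c : F, ∀ u ∈ U, ρ a u = c • u := by
    intro a
    have hntr : Nontrivial U := (Submodule.nontrivial_iff_ne_bot).mpr hU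
    obtain ⟨c, hc⟩ := Module.End.exists_eigenvalue
      ((ρ a).restrict (p := U) (q := U) (fun u hu => hinv a a.2 u hu))
    obtain ⟨u, hu⟩ := hc.exists_hasEigenvector
    have hu1 : ρ a (u : V) = c • (u : V) := by
      have h3 := congrArg (Subtype.val) hu.apply_eq_smul
      exact h3
    have hu2 : (u : V) ≠ 0 := by
      intro h0
      exact hu.2 (Subtype.ext h0)
    refine ⟨c, ?_⟩
    have hne : U ⊓ (ρ a).eigenspace c ≠ ⊥ := by
      intro hbot
      have h4 : (u : V) ∈ U ⊓ (ρ a).eigenspace c :=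
        ⟨u.2, Module.End.mem_eigenspace_iff.mpr hu1⟩
      rw [hbot, Submodule.mem_bot] at h4
      exact hu2 h4
    have hle := hmin (U ⊓ (ρ a).eigenspace c) hne (by
      rintro b hb v ⟨hv1, hv2⟩
      refine ⟨hinv b hb v hv1, ?_⟩
      refine Module.End.mem_eigenspace_iff.mpr ?_
      have h5 : ρ a v = c • v := Module.End.mem_eigenspace_iff.mp hv2
      have h6 := LinearMap.congr_fun (hcomm a a.2 b hb) v
      rw [Module.End.mul_apply, Module.End.mul_apply, h5, map_smul] at h6
      exact h6)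
    have heq : U ⊓ (ρ a).eigenspace c = U :=
      Submodule.eq_of_le_of_finrank_le inf_le_left hle
    intro v hv
    rw [← heq] at hv
    exact Module.End.mem_eigenspace_iff.mp hv.2
  choose χ hχ using hscal
  refine ⟨χ, ?_⟩
  intro hbot
  apply hU
  rw [Submodule.eq_bot_iff]
  intro u hu
  have h7 : u ∈ z2W ρ A χ := (z2_mem ρ A χ u).mpr fun a => hχ a u hu
  rw [hbot, Submodule.mem_bot] at h7
  exact h7

theorem z2_indep {F V S : Type} [Field F] [AddCommGroup V] [Module F V]
    [Group S] (ρ : S →* Module.End F V)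
    (A : Subgroup S) (hcomm : ∀ a ∈ A, ∀ b ∈ A, ρ a * ρ b = ρ b * ρ a) :
    iSupIndep (z2W ρ A) := by
  have h := Module.End.independent_iInf_maxGenEigenspace_of_forall_mapsTo
    (fun a : A => (ρ a : Module.End F V)) (fun a b φ =>
      Module.End.mapsTo_maxGenEigenspace_of_comm (show Commute (ρ b) (ρ a) from
        hcomm b b.2 a a.2) φ)
  refine h.mono ?_
  intro χ
  refine le_iInf fun a => ?_
  refine (iInf_le _ a).trans ?_
  exact ((ρ a).genEigenspace (χ a)).monotone le_top

theorem z2_map {F V S : Type} [Field F] [AddCommGroup V] [Module F V] [Group S]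
    (ρ : S →* Module.End F V) (A : Subgroup S) (hA : A.Normal) (χ : A → F) (s : S) (v : V)
    (hv : v ∈ z2W ρ A χ) :
    ρ s v ∈ z2W ρ A (fun a => χ ⟨s⁻¹ * a * s, by
      have := hA.conj_mem a a.2 s⁻¹
      rwa [inv_inv] at this⟩) := by
  rw [z2_mem] at hv ⊢
  intro a
  have h1 := hv ⟨s⁻¹ * a * s, by
      have := hA.conj_mem a a.2 s⁻¹
      rwa [inv_inv] at this⟩
  have h2 : ρ s (ρ (s⁻¹ * a * s) v) = ρ a (ρ s v) := by
    rw [← Module.End.mul_apply, ← map_mul, ← Module.End.mul_apply, ← map_mul]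
    congr 2
    group
  rw [← h2]
  rw [show ρ (s⁻¹ * a * s) v = _ from h1, map_smul]

/-- PROOF. The operators `ρ a`, `a ∈ A`, commute. A common eigenvector: there is `0 ≠ v` and `χ : A → F` with `ρ a v = χ a v` (induction on the dimension: if all `ρ a` are scalar on `V` any `v`; otherwise an eigenspace of some `ρ a` is a proper nonzero invariant subspace of all `ρ a'`; `V ≠ 0` because some `ρ a` is not scalar).
For functions `χ : A → F` let `V_χ = {v | ρ a v = χ a • v for all a ∈ A}`. `ρ s` maps `V_χ` to `V_χ'`, `χ' a = χ (s⁻¹ a s)`. The sum of all `V_χ` is invariant under `S` and not `0`, so it is `V` (`hirr`); the nonzero `V_χ` are independent (different simultaneous eigenspaces), so there are at most `finrank V` of them; let `ι` be the set of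
these `χ`, and `W i = V_χ`. No `V_χ` is `V`, because some `ρ a` is not scalar. `S` acts on `ι`: `τ : S →* Equiv.Perm ι`, `W (τ s i) = ρ s (W i)`; this gives the last statement. -/
theorem exists_blocks {F V S : Type} [Field F] [IsAlgClosed F] [AddCommGroup V] [Module F V]
    [FiniteDimensional F V] [Group S] [Finite S] (ρ : S →* Module.End F V) (hirr : Irr ρ)
    (A : Subgroup S) (hA : A.Normal) (hcomm : ∀ a ∈ A, ∀ b ∈ A, ρ a * ρ b = ρ b * ρ a)
    (hns : ∃ a ∈ A, ∀ c : F, ρ a ≠ c • (1 : Module.End F V)) :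
    ∃ (ι : Type) (_ : Fintype ι) (W : ι → Submodule F V) (τ : S →* Equiv.Perm ι),
      Fintype.card ι ≤ Module.finrank F V ∧ (⨆ i, W i) = ⊤ ∧ (∀ i, W i ≠ ⊤) ∧
      ∀ s i, ∀ w ∈ W i, ρ s w ∈ W (τ s i) := by
  classical
  obtain ⟨a0, ha0, ha0'⟩ := hns
  have hV : Nontrivial V := by
    by_contra hcon
    rw [not_nontrivial_iff_subsingleton] at hcon
    exact ha0' 0 (LinearMap.ext fun v => Subsingleton.elim _ _)
  obtain ⟨χ0, hχ0⟩ := z2_common ρ A hcomm
  have hind := z2_indep ρ A hcomm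
  have hinj : ∀ s v, ρ s v = 0 → v = 0 := by
    intro s v h
    have h1 : ρ s⁻¹ (ρ s v) = v := by
      rw [← Module.End.mul_apply, ← map_mul, inv_mul_cancel, map_one, Module.End.one_apply]
    rw [h, map_zero] at h1
    exact h1.symm
  have hsum : (⨆ χ, z2W ρ A χ) = ⊤ := by
    rcases hirr (⨆ χ, z2W ρ A χ) (by
      intro s w hw
      have h1 : (⨆ χ, z2W ρ A χ) ≤ (⨆ χ, z2W ρ A χ).comap (ρ s) := by
        refine iSup_le fun χ => ?_
        intro v hv
        exact Submodule.mem_iSup_of_mem _ (z2_map ρ A hA χ s v hv)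
      exact h1 hw) with h | h
    · exfalso
      apply hχ0
      rw [eq_bot_iff, ← h]
      exact le_iSup (z2W ρ A) χ0
    · exact h
  have hbot : ∀ (s : S) (χ : A → F), z2W ρ A χ ≠ ⊥ → z2W ρ A (fun a => χ ⟨s⁻¹ * a * s, by
      have := hA.conj_mem a a.2 s⁻¹
      rwa [inv_inv] at this⟩) ≠ ⊥ := by
    intro s χ hχ hb
    apply hχ
    rw [Submodule.eq_bot_iff]
    intro v hv
    have h1 := z2_map ρ A hA χ s v hv
    rw [hb, Submodule.mem_bot] at h1
    exact hinj s v h1
  let act : MulAction S {χ : A → F // z2W ρ A χ ≠ ⊥} :=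
    { smul := fun s χ => ⟨fun a => χ.1 ⟨s⁻¹ * a * s, by
        have := hA.conj_mem a a.2 s⁻¹
        rwa [inv_inv] at this⟩, hbot s χ.1 χ.2⟩
      one_smul := by
        intro χ
        apply Subtype.ext
        funext a
        refine congrArg χ.1 (Subtype.ext ?_)
        change (1 : S)⁻¹ * a * 1 = a
        rw [inv_one, one_mul, mul_one]
      mul_smul := by
        intro s t χ
        apply Subtype.ext
        funext a
        refine congrArg χ.1 (Subtype.ext ?_)
        change (s * t)⁻¹ * a * (s * t) = t⁻¹ * (s⁻¹ * a * s) * t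
        group }
  let ft : Fintype {χ : A → F // z2W ρ A χ ≠ ⊥} := hind.fintypeNeBotOfFiniteDimensional
  refine ⟨{χ : A → F // z2W ρ A χ ≠ ⊥}, ft, fun χ => z2W ρ A χ.1,
    MulAction.toPermHom S {χ : A → F // z2W ρ A χ ≠ ⊥}, ?_, ?_, ?_, ?_⟩
  · exact hind.subtype_ne_bot_le_finrank
  · rw [← hsum]
    exact iSup_ne_bot_subtype (z2W ρ A)
  · intro χ htop
    refine ha0' (χ.1 ⟨a0, ha0⟩) ?_
    refine LinearMap.ext fun v => ?_
    have hv : v ∈ z2W ρ A χ.1 := by
      change v ∈ (fun χ : {χ : A → F // z2W ρ A χ ≠ ⊥} => z2W ρ A χ.1) χ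
      rw [htop]
      exact Submodule.mem_top
    rw [z2_mem] at hv
    exact hv ⟨a0, ha0⟩
  · intro s χ w hw
    exact z2_map ρ A hA χ.1 s w hw

end ALP
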