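import Pool.Agent.ALP.Z2

/-!
# [ALP-Z2b] imprimitive representations of solvable groups
-/

set_option autoImplicit false

namespace ALP

open AG ALG

/-- PROOF. `ι, W, τ` from `exists_blocks`. `S₀ = τ.ker` acts on every `W i`, of dimension at most `n`. `Nat.card (τ.range) ≤ (Fintype.card ι)! ≤ (n + 1)!`, so `dser ⊤ (n+1)! ≤ τ.ker` by `dser_le_ker_of_card` (`dser ⊤ k = ⊥`). For the group `S₀` and its action on `W i` the hypothesis `ih` gives: `dser (⊤ : Subgroup S₀) f` acts trivially on all `W i`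
(`dser (⊤ : Subgroup S₀) k` maps into `dser ⊤ k = ⊥`), hence trivially on `V = ⨆ W i`. `dser (⊤ : Subgroup S) ((n+1)! + f) = dser (dser ⊤ (n+1)!) f ≤ dser S₀ f =` image of `dser (⊤ : Subgroup S₀) f` (`dser_add`, `dser_mono`, `dser_map` for `S₀.subtype`). -/
theorem imprimitive_step (n f : ℕ)
    (ih : ∀ (F V S : Type) [Field F] [IsAlgClosed F] [AddCommGroup V] [Module F V]
      [FiniteDimensional F V] [Group S] [Finite S] (ρ : S →* Module.End F V),
      Module.finrank F V ≤ n → (∃ k, dser (⊤ : Subgroup S) k = ⊥) →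
      ∀ x ∈ dser (⊤ : Subgroup S) f, ρ x = 1)
    {F V S : Type} [Field F] [IsAlgClosed F] [AddCommGroup V] [Module F V]
    [FiniteDimensional F V] [Group S] [Finite S] (ρ : S →* Module.End F V) (hirr : Irr ρ)
    (hn : Module.finrank F V ≤ n + 1) (hs : ∃ k, dser (⊤ : Subgroup S) k = ⊥)
    (A : Subgroup S) (hA : A.Normal) (hcomm : ∀ a ∈ A, ∀ b ∈ A, ρ a * ρ b = ρ b * ρ a)
    (hns : ∃ a ∈ A, ∀ c : F, ρ a ≠ c • (1 : Module.End F V)) :
    ∀ x ∈ dser (⊤ : Subgroup S) ((n + 1).factorial + f), ρ x = 1 := by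
  obtain ⟨ι, hι, W, τ, hcard, hsup, hne, hact⟩ := exists_blocks ρ hirr A hA hcomm hns
  obtain ⟨k, hk⟩ := hs
  classical
  have hτ : Nat.card ((⊤ : Subgroup S).map τ) ≤ (n + 1).factorial := by
    calc Nat.card ((⊤ : Subgroup S).map τ) ≤ Nat.card (Equiv.Perm ι) :=
          Subgroup.card_le_card_group _
      _ = (Nat.card ι).factorial := Nat.card_perm
      _ ≤ (n + 1).factorial := by
          rw [Nat.card_eq_fintype_card]
          exact Nat.factorial_le (hcard.trans hn)
  have hker : dser (⊤ : Subgroup S) (n + 1).factorial ≤ τ.ker :=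
    dser_le_ker_of_card τ ⊤ _ hτ k (by rw [hk]; exact bot_le)
  -- the kernel acts on the blocks
  have hW : ∀ i, ∀ s : τ.ker, ∀ w ∈ W i, ρ (s : S) w ∈ W i := by
    intro i s w hw
    have h1 := hact (s : S) i w hw
    have h2 : τ (s : S) = 1 := s.2
    rw [h2] at h1
    exact h1
  let ρi : ∀ i, τ.ker →* Module.End F (W i) := fun i =>
    { toFun := fun s => (ρ (s : S)).restrict (hW i s)
      map_one' := by
        ext w
        simp
      map_mul' := by
        intro g h
        ext w
        simp [LinearMap.restrict_apply] }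
  have hsub : ∀ j, (dser (⊤ : Subgroup τ.ker) j).map τ.ker.subtype = dser τ.ker j := by
    intro j
    rw [dser_map]
    congr 1
    rw [← MonoidHom.range_eq_map, Subgroup.range_subtype]
  have hk0 : ∃ k, dser (⊤ : Subgroup τ.ker) k = ⊥ := by
    refine ⟨k, ?_⟩
    rw [← Subgroup.map_eq_bot_iff_of_injective _ τ.ker.subtype_injective, hsub, eq_bot_iff, ← hk]
    exact dser_mono le_top k
  have htriv : ∀ i, ∀ y ∈ dser (⊤ : Subgroup τ.ker) f, ρi i y = 1 := by
    intro i
    have hlt : Module.finrank F (W i) < Module.finrank F V := Submodule.finrank_lt (hne i)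
    exact ih F (W i) τ.ker (ρi i) (by omega) hk0
  intro x hx
  rw [dser_add] at hx
  have hx2 : x ∈ dser τ.ker f := dser_mono hker f hx
  rw [← hsub] at hx2
  obtain ⟨y, hy, rfl⟩ := hx2
  have hle : ∀ i, W i ≤ LinearMap.eqLocus (ρ (y : S)) (1 : Module.End F V) := by
    intro i w hw
    have h1 := htriv i y hy
    have h2 := congrArg (fun u : Module.End F (W i) => ((u ⟨w, hw⟩ : W i) : V)) h1
    exact h2
  have htop : (⊤ : Submodule F V) ≤ LinearMap.eqLocus (ρ (y : S)) (1 : Module.End F V) := by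
    rw [← hsup]
    exact iSup_le hle
  ext v
  exact htop (Submodule.mem_top (x := v))

end ALP
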