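import Pool.Agent.ALP.Z1

/-!
# [ALP-Z3a] primitive representations: a self-centralizing subgroup
-/

set_option autoImplicit false

namespace ALP

open AG ALG

open scoped Pointwise

/-- the elements acting as scalars -/
def scal {F V S : Type} [Field F] [AddCommGroup V] [Module F V] [Group S]
    (ρ : S →* Module.End F V) : Subgroup S where
  carrier := {s | ∃ c : F, ρ s = c • (1 : Module.End F V)}
  one_mem' := ⟨1, by rw [map_one, one_smul]⟩
  mul_mem' := by
    rintro a b ⟨c, hc⟩ ⟨d, hd⟩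
    refine ⟨c * d, ?_⟩
    rw [map_mul, hc, hd, smul_mul_assoc, one_mul, smul_smul]
  inv_mem' := by
    rintro a ⟨c, hc⟩
    by_cases hV : Subsingleton V
    · refine ⟨0, ?_⟩
      ext v
      exact Subsingleton.elim _ _
    · have hnt : Nontrivial V := not_subsingleton_iff_nontrivial.1 hV
      have h1 : ρ a * ρ a⁻¹ = 1 := by rw [← map_mul, mul_inv_cancel, map_one]
      rw [hc, smul_mul_assoc, one_mul] at h1
      have hc0 : c ≠ 0 := by
        rintro rfl
        rw [zero_smul] at h1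
        exact zero_ne_one h1
      refine ⟨c⁻¹, ?_⟩
      rw [← h1, smul_smul, inv_mul_cancel₀ hc0, one_smul]

theorem mem_scal {F V S : Type} [Field F] [AddCommGroup V] [Module F V] [Group S]
    (ρ : S →* Module.End F V) (s : S) :
    s ∈ scal ρ ↔ ∃ c : F, ρ s = c • (1 : Module.End F V) := Iff.rfl

theorem scal_normal {F V S : Type} [Field F] [AddCommGroup V] [Module F V] [Group S]
    (ρ : S →* Module.End F V) : (scal ρ).Normal := by
  constructor
  rintro n ⟨c, hc⟩ g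
  refine ⟨c, ?_⟩
  rw [map_mul, map_mul, hc, mul_smul_comm, mul_one, smul_mul_assoc, ← map_mul, mul_inv_cancel,
    map_one]

/-- the elements whose images commute with the images of the elements of `B` -/
def cent {F V S : Type} [Field F] [AddCommGroup V] [Module F V] [Group S]
    (ρ : S →* Module.End F V) (B : Subgroup S) : Subgroup S where
  carrier := {s | ∀ b ∈ B, ρ s * ρ b = ρ b * ρ s}
  one_mem' := by
    intro b _
    rw [map_one, one_mul, mul_one]
  mul_mem' := by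
    intro x y hx hy b hb
    rw [map_mul, mul_assoc, hy b hb, ← mul_assoc, hx b hb, mul_assoc]
  inv_mem' := by
    intro x hx b hb
    have h1 : ρ x⁻¹ * ρ x = 1 := by rw [← map_mul, inv_mul_cancel, map_one]
    have h2 : ρ x * ρ x⁻¹ = 1 := by rw [← map_mul, mul_inv_cancel, map_one]
    calc ρ x⁻¹ * ρ b = ρ x⁻¹ * (ρ b * (ρ x * ρ x⁻¹)) := by rw [h2, mul_one]
      _ = ρ x⁻¹ * (ρ b * ρ x) * ρ x⁻¹ := by simp only [mul_assoc]
      _ = ρ x⁻¹ * (ρ x * ρ b) * ρ x⁻¹ := by rw [hx b hb]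
      _ = (ρ x⁻¹ * ρ x) * ρ b * ρ x⁻¹ := by simp only [mul_assoc]
      _ = ρ b * ρ x⁻¹ := by rw [h1, one_mul]

theorem cent_normal {F V S : Type} [Field F] [AddCommGroup V] [Module F V] [Group S]
    (ρ : S →* Module.End F V) (B : Subgroup S) (hB : B.Normal) : (cent ρ B).Normal := by
  constructor
  intro n hn g b hb
  have h1 : g⁻¹ * b * g ∈ B := by
    have := hB.conj_mem b hb g⁻¹
    rwa [inv_inv] at this
  have h2 : ρ n * ρ (g⁻¹ * b * g) = ρ (g⁻¹ * b * g) * ρ n := hn _ h1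
  rw [← map_mul, ← map_mul] at h2 ⊢
  have h3 : g * n * g⁻¹ * b = g * (n * (g⁻¹ * b * g)) * g⁻¹ := by group
  have h4 : b * (g * n * g⁻¹) = g * (g⁻¹ * b * g * n) * g⁻¹ := by group
  rw [h3, h4, map_mul, map_mul, h2, ← map_mul, ← map_mul]

/-- PROOF. `Z = {s | ρ s scalar}` is a normal subgroup (it contains `1`, closed under products and inverses because `ρ s` is invertible; if `V = 0` it is everything). Choose `B` maximal among the normal subgroups with `Z ≤ B` and `⁅B, B⁆ ≤ Z` (`Z` is one of them, since `⁅Z, Z⁆ ≤ Z`; there are finitely many subgroups). Let `C` be the set of the `s` with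
`ρ s` commuting with all `ρ b`, `b ∈ B`; it is a normal subgroup. Suppose `¬ C ≤ Z`. Since `dser C k ≤ dser ⊤ k = ⊥` there is `i` with `¬ dser C i ≤ Z`, `dser C (i + 1) ≤ Z`. `C₁ = dser C i` is normal, `⁅C₁, C₁⁆ ≤ Z`. `B ⊔ C₁` is normal and `⁅B ⊔ C₁, B ⊔ C₁⁆ ≤ Z`: for `b, b' ∈ B`, `c, c' ∈ C₁` the element `ρ` of the commutator of `b c` and `b' c'` is
`ρ ⁅b, b'⁆ ρ ⁅c, c'⁆`, a scalar. By maximality `C₁ ≤ B`, so `C₁ ≤ B ∩ C` and the `ρ c`, `c ∈ C₁`, commute; so `C₁ ≤ Z` by `hprim`, a contradiction. -/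
theorem exists_selfcentralizing {F V S : Type} [Field F] [AddCommGroup V] [Module F V]
    [Group S] [Finite S] (ρ : S →* Module.End F V) (k : ℕ) (hk : dser (⊤ : Subgroup S) k = ⊥)
    (hprim : ∀ A : Subgroup S, A.Normal → (∀ a ∈ A, ∀ b ∈ A, ρ a * ρ b = ρ b * ρ a) →
      ∀ a ∈ A, ∃ c : F, ρ a = c • (1 : Module.End F V)) :
    ∃ B : Subgroup S, B.Normal ∧ (∀ s, (∃ c : F, ρ s = c • (1 : Module.End F V)) → s ∈ B) ∧
      (∀ x ∈ B, ∀ y ∈ B, ∃ c : F, ρ (x * y * x⁻¹ * y⁻¹) = c • (1 : Module.End F V)) ∧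
      (∀ s, (∀ b ∈ B, ρ s * ρ b = ρ b * ρ s) → ∃ c : F, ρ s = c • (1 : Module.End F V)) := by
  have hZn : (scal ρ).Normal := scal_normal ρ
  have hfin : Finite (Subgroup S) := inferInstance
  let T : Set (Subgroup S) := {B | B.Normal ∧ scal ρ ≤ B ∧
    ∀ x ∈ B, ∀ y ∈ B, x * y * x⁻¹ * y⁻¹ ∈ scal ρ}
  have hT : T.Nonempty := by
    refine ⟨scal ρ, hZn, le_rfl, ?_⟩
    intro x hx y hy
    exact mul_mem (mul_mem (mul_mem hx hy) (inv_mem hx)) (inv_mem hy)
  obtain ⟨B, hBmax⟩ := T.toFinite.exists_maximal hT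
  obtain ⟨hBn, hZB, hBB⟩ := hBmax.prop
  refine ⟨B, hBn, fun s hs => hZB hs, hBB, ?_⟩
  by_contra hcon
  have hC : ¬ cent ρ B ≤ scal ρ := fun h => hcon (fun s hs => h hs)
  have hCn : (cent ρ B).Normal := cent_normal ρ B hBn
  classical
  have hex : ∃ i, dser (cent ρ B) i ≤ scal ρ :=
    ⟨k, (dser_mono (le_top : cent ρ B ≤ ⊤) k).trans (by rw [hk]; exact bot_le)⟩
  have hi0 : Nat.find hex ≠ 0 := by
    intro h
    have := Nat.find_spec hex
    rw [h] at this
    exact hC this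
  obtain ⟨i, hi⟩ := Nat.exists_eq_succ_of_ne_zero hi0
  have h1 : ¬ dser (cent ρ B) i ≤ scal ρ := Nat.find_min hex (by omega)
  have h2 : dser (cent ρ B) (i + 1) ≤ scal ρ := by
    have := Nat.find_spec hex
    rwa [hi] at this
  have hC1n : (dser (cent ρ B) i).Normal := dser_normal _ hCn i
  have hC1C : dser (cent ρ B) i ≤ cent ρ B := dser_anti (cent ρ B) 0 i (Nat.zero_le _)
  -- commutators modulo the scalars
  have hq : ∀ x y : S, x * y * x⁻¹ * y⁻¹ ∈ scal ρ ↔
      Commute (QuotientGroup.mk' (scal ρ) x) (QuotientGroup.mk' (scal ρ) y) := by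
    intro x y
    have h0 : ∀ z : S, z ∈ scal ρ ↔ QuotientGroup.mk' (scal ρ) z = 1 := fun z =>
      (QuotientGroup.eq_one_iff z).symm
    rw [h0, map_mul, map_mul, map_mul, map_inv, map_inv, mul_inv_eq_one, mul_inv_eq_iff_eq_mul]
    exact Iff.rfl
  have hsup : ∀ x ∈ B ⊔ dser (cent ρ B) i, ∀ y ∈ B ⊔ dser (cent ρ B) i,
      x * y * x⁻¹ * y⁻¹ ∈ scal ρ := by
    intro x hx y hy
    have hset : ((B ⊔ dser (cent ρ B) i : Subgroup S) : Set S) =
        (B : Set S) * (dser (cent ρ B) i : Set S) := Subgroup.mul_normal _ _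
    have hx' : x ∈ (B : Set S) * (dser (cent ρ B) i : Set S) := by rw [← hset]; exact hx
    have hy' : y ∈ (B : Set S) * (dser (cent ρ B) i : Set S) := by rw [← hset]; exact hy
    obtain ⟨b, hb, c, hc, rfl⟩ := Set.mem_mul.1 hx'
    obtain ⟨b', hb', c', hc', rfl⟩ := Set.mem_mul.1 hy'
    rw [hq, map_mul, map_mul]
    have hbc : ∀ u ∈ B, ∀ v ∈ dser (cent ρ B) i,
        Commute (QuotientGroup.mk' (scal ρ) u) (QuotientGroup.mk' (scal ρ) v) := by
      intro u hu v hv
      rw [← hq]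
      refine ⟨1, ?_⟩
      have h3 : ρ v * ρ u = ρ u * ρ v := hC1C hv u hu
      rw [map_mul, map_mul, map_mul, ← h3, mul_assoc (ρ v), ← map_mul ρ u, mul_inv_cancel, map_one,
        mul_one, ← map_mul, mul_inv_cancel, map_one, one_smul]
    have hbb : Commute (QuotientGroup.mk' (scal ρ) b) (QuotientGroup.mk' (scal ρ) b') :=
      (hq _ _).1 (hBB b hb b' hb')
    have hcc : Commute (QuotientGroup.mk' (scal ρ) c) (QuotientGroup.mk' (scal ρ) c') := by
      rw [← hq]
      refine h2 ?_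
      show c * c' * c⁻¹ * c'⁻¹ ∈ ⁅dser (cent ρ B) i, dser (cent ρ B) i⁆
      exact Subgroup.commutator_mem_commutator hc hc'
    exact (hbb.mul_right (hbc b hb c' hc')).mul_left
      ((hbc b' hb' c hc).symm.mul_right hcc)
  have hmem : B ⊔ dser (cent ρ B) i ∈ T :=
    ⟨Subgroup.sup_normal _ _, hZB.trans le_sup_left, hsup⟩
  have hle : B ⊔ dser (cent ρ B) i ≤ B := hBmax.le_of_ge hmem le_sup_left
  have hC1B : dser (cent ρ B) i ≤ B := le_sup_right.trans hle
  exact h1 (fun a ha => hprim _ hC1n (fun a ha b hb => hC1C ha b (hC1B hb)) a ha)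

end ALP
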