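import Pool.Agent.ALP.Z1

/-!
# [ALP-Z3b] primitive representations: linear independence
-/

set_option autoImplicit false

namespace ALP

open AG ALG

/-- PROOF. Let `Z = {s | ρ s scalar}`, a normal subgroup, `Z ≤ B` (it is a subgroup of `S`; `ρ s` is invertible). Choose representatives `b_1, ..., b_r` of the cosets of `Z` in `B`. The `ρ b_i` are linearly independent in `Module.End F V` (dimension `(finrank V)²`), so `r = Z.relIndex B ≤ (finrank V)²`. Proof of the independence (`V ≠ 0`; otherwise `Z = B` and
`r = 1`, `finrank = 0`: this case is excluded by `hV`): take a nontrivial relation `∑ c_i ρ b_i = 0` with the least number of nonzero `c_i`; there are at least two. Conjugation with `ρ b`, `b ∈ B`, gives `∑ c_i χ_i(b) ρ b_i = 0` with scalars `χ_i(b)` (`ρ(b b_i b⁻¹ b_i⁻¹)` is scalar); subtract `χ_1(b)` times the first relation: by minimality `χ_i(b) = χ_1(b)` for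
all `i` with `c_i ≠ 0`, so `b_i b_1⁻¹` commutes with all `ρ b` under `ρ`, so it is in `Z`: contradiction. -/
theorem relIndex_le_sq {F V S : Type} [Field F] [AddCommGroup V] [Module F V]
    [FiniteDimensional F V] [Group S] [Finite S] (ρ : S →* Module.End F V)
    (hV : 1 ≤ Module.finrank F V) (Z B : Subgroup S)
    (hZ : ∀ s, s ∈ Z ↔ ∃ c : F, ρ s = c • (1 : Module.End F V)) (hZB : Z ≤ B)
    (hBB : ∀ x ∈ B, ∀ y ∈ B, x * y * x⁻¹ * y⁻¹ ∈ Z)
    (hcen : ∀ s ∈ B, (∀ b ∈ B, ρ s * ρ b = ρ b * ρ s) → s ∈ Z) :
    Z.relIndex B ≤ (Module.finrank F V) ^ 2 := by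
  classical
  have hnt : Nontrivial V := Module.nontrivial_of_finrank_pos (R := F) (by omega)
  have hinv : ∀ s : S, ρ s * ρ s⁻¹ = 1 := fun s => by rw [← map_mul, mul_inv_cancel, map_one]
  have hinv' : ∀ s : S, ρ s⁻¹ * ρ s = 1 := fun s => by rw [← map_mul, inv_mul_cancel, map_one]
  -- the characters
  have hχ : ∀ x ∈ B, ∀ b ∈ B, ∃ c : F, ρ b * ρ x = c • (ρ x * ρ b) := by
    intro x hx b hb
    obtain ⟨c, hc⟩ := (hZ _).1 (hBB b hb x hx)
    refine ⟨c, ?_⟩
    have h1 : b * x = (b * x * b⁻¹ * x⁻¹) * (x * b) := by group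
    rw [← map_mul, h1, map_mul, hc, smul_mul_assoc, one_mul, map_mul]
  choose! χ hχ using hχ
  have hne : ∀ s : S, ρ s ≠ 0 := by
    intro s hs
    have := hinv s
    rw [hs, zero_mul] at this
    exact zero_ne_one this
  have hχ0 : ∀ x ∈ B, ∀ b ∈ B, χ x b ≠ 0 := by
    intro x hx b hb h0
    have h1 := hχ x hx b hb
    rw [h0, zero_smul, ← map_mul] at h1
    exact hne _ h1
  -- distinct cosets have distinct characters
  have hdist : ∀ x ∈ B, ∀ y ∈ B, (∀ b ∈ B, χ x b = χ y b) → x⁻¹ * y ∈ Z := by
    intro x hx y hy hxy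
    refine hcen _ (mul_mem (inv_mem hx) hy) ?_
    intro b hb
    have h1 := hχ x hx b hb
    have h2 := hχ y hy b hb
    rw [← hxy b hb] at h2
    have h3 : χ x b • (ρ x * (ρ (x⁻¹ * y) * ρ b)) = χ x b • (ρ x * (ρ b * ρ (x⁻¹ * y))) := by
      have e1 : ρ x * (ρ (x⁻¹ * y) * ρ b) = ρ y * ρ b := by
        rw [map_mul, ← mul_assoc, ← mul_assoc, hinv, one_mul]
      have e2 : χ x b • (ρ x * (ρ b * ρ (x⁻¹ * y))) = ρ b * ρ y := by
        rw [← mul_assoc, ← smul_mul_assoc, ← h1, map_mul, mul_assoc, ← mul_assoc (ρ x), hinv,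
          one_mul]
      rw [e1, e2, h2]
    have h4 := smul_right_injective _ (hχ0 x hx b hb) h3
    have h5 := congrArg (fun z => ρ x⁻¹ * z) h4
    rw [← mul_assoc, ← mul_assoc (ρ x⁻¹), hinv', one_mul, one_mul] at h5
    exact h5
  -- linear independence
  let r : B ⧸ Z.subgroupOf B → S := fun q => ((Quotient.out q : B) : S)
  have hrB : ∀ q, r q ∈ B := fun q => (Quotient.out q : B).2
  have hr : ∀ q q', q ≠ q' → (r q)⁻¹ * r q' ∉ Z := by
    intro q q' hqq hmem
    apply hqq
    have h1 : (QuotientGroup.mk (Quotient.out q) : B ⧸ Z.subgroupOf B) =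
        QuotientGroup.mk (Quotient.out q') := by
      rw [QuotientGroup.eq]
      exact hmem
    rw [QuotientGroup.out_eq', QuotientGroup.out_eq'] at h1
    exact h1
  have hli : LinearIndependent F (fun q => ρ (r q)) := by
    rw [linearIndependent_iff']
    intro s
    induction s using Finset.induction_on with
    | empty =>
      intro g _ i hi
      exact absurd hi (Finset.notMem_empty i)
    | insert a s ha ih =>
      intro g hg
      have hkey : ∀ b ∈ B, ∀ i ∈ s, g i * (χ (r i) b - χ (r a) b) = 0 := by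
        intro b hb
        apply ih (fun i => g i * (χ (r i) b - χ (r a) b))
        have h1 : ∑ i ∈ insert a s, (g i * (χ (r i) b - χ (r a) b)) • ρ (r i) = 0 := by
          have h2 : (∑ i ∈ insert a s, (g i * (χ (r i) b - χ (r a) b)) • ρ (r i)) * ρ b =
              ρ b * (∑ i ∈ insert a s, g i • ρ (r i)) -
                χ (r a) b • ((∑ i ∈ insert a s, g i • ρ (r i)) * ρ b) := by
            rw [Finset.sum_mul, Finset.mul_sum, Finset.sum_mul, Finset.smul_sum,
              ← Finset.sum_sub_distrib]
            refine Finset.sum_congr rfl ?_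
            intro i _
            rw [mul_smul_comm, hχ (r i) (hrB i) b hb, smul_mul_assoc, smul_mul_assoc, smul_smul,
              smul_smul, ← sub_smul]
            congr 1
            ring
          rw [hg, mul_zero, zero_mul, smul_zero, sub_zero] at h2
          have h3 := congrArg (fun z => z * ρ b⁻¹) h2
          rw [mul_assoc, hinv, mul_one, zero_mul] at h3
          exact h3
        rw [Finset.sum_insert ha, sub_self, mul_zero, zero_smul, zero_add] at h1
        exact h1
      have hs0 : ∀ i ∈ s, g i = 0 := by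
        intro i hi
        have hia : i ≠ a := fun h => ha (h ▸ hi)
        by_contra hgi
        apply hr i a hia
        apply hdist _ (hrB i) _ (hrB a)
        intro b hb
        have := hkey b hb i hi
        rcases mul_eq_zero.1 this with h | h
        · exact absurd h hgi
        · exact sub_eq_zero.1 h
      intro i hi
      rcases Finset.mem_insert.1 hi with rfl | hi
      · rw [Finset.sum_insert ha, Finset.sum_eq_zero (fun j hj => by rw [hs0 j hj, zero_smul]),
          add_zero] at hg
        rcases smul_eq_zero.1 hg with h | h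
        · exact h
        · exact absurd h (hne _)
      · exact hs0 i hi
  have hfin : Finite (B ⧸ Z.subgroupOf B) := inferInstance
  have hft : Fintype (B ⧸ Z.subgroupOf B) := Fintype.ofFinite _
  have h1 := hli.fintype_card_le_finrank
  rw [Module.finrank_linearMap, ← Nat.card_eq_fintype_card] at h1
  rw [sq]
  exact h1

end ALP
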