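import Pool.Agent.ALP.Z3a
import Pool.Agent.ALP.Z3b

/-!
# [ALP-Z3c] primitive representations of solvable groups
-/

set_option autoImplicit false

namespace ALP

open AG ALG

/-- commuting images kill the commutator subgroup -/
theorem z3c_comm {G E : Type*} [Group G] [Monoid E] (ρ : G →* E) (K : Subgroup G)
    (h : ∀ x ∈ K, ∀ y ∈ K, ρ x * ρ y = ρ y * ρ x) : ∀ z ∈ ⁅K, K⁆, ρ z = 1 := by
  have h1 : ⁅K, K⁆ ≤ ρ.toHomUnits.ker := by
    rw [Subgroup.commutator_le]
    intro x hx y hy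
    rw [MonoidHom.mem_ker, commutatorElement_def, map_mul, map_mul, map_mul, map_inv, map_inv]
    have h2 : ρ.toHomUnits x * ρ.toHomUnits y = ρ.toHomUnits y * ρ.toHomUnits x := by
      apply Units.ext
      exact h x hx y hy
    rw [h2]
    group
  intro z hz
  have h3 := h1 hz
  rw [MonoidHom.mem_ker] at h3
  have h4 := congrArg (fun u : Eˣ => (u : E)) h3
  exact h4

/-- PROOF. If `V = 0` everything is trivial. `B` from `exists_selfcentralizing`, `Z = {s | ρ s scalar}` (normal), `Z ≤ B`. `S` acts on `B ⧸ Z` (a set with `r ≤ (finrank V)² ≤ n²` elements by `relIndex_le_sq`) by conjugation: a homomorphism `τ : S →* Equiv.Perm (B ⧸ Z.subgroupOf B)`, `Nat.card τ.range ≤ (n²)!`. So `dser ⊤ (n²)! ≤ S₁ := τ.ker` (`dser_le_ker_of_card`).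
For `s ∈ S₁`, `b ∈ B`: `ρ (s b s⁻¹) = c_s(b) ρ b` with a scalar `c_s(b)`; so for `s, t ∈ S₁` the element `s t s⁻¹ t⁻¹` commutes with all `ρ b` under `ρ` (the scalars cancel), so it is in `Z` by the last property of `B`. So `dser ⊤ ((n²)! + 1) ≤ Z`, and the commutators of elements of `Z` act trivially (scalars commute and are invertible), so `dser ⊤ ((n²)! + 2)`
acts trivially. -/
theorem primitive_step (n : ℕ) {F V S : Type} [Field F] [AddCommGroup V] [Module F V]
    [FiniteDimensional F V] [Group S] [Finite S] (ρ : S →* Module.End F V)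
    (hn : Module.finrank F V ≤ n) (k : ℕ) (hk : dser (⊤ : Subgroup S) k = ⊥)
    (hprim : ∀ A : Subgroup S, A.Normal → (∀ a ∈ A, ∀ b ∈ A, ρ a * ρ b = ρ b * ρ a) →
      ∀ a ∈ A, ∃ c : F, ρ a = c • (1 : Module.End F V)) :
    ∀ x ∈ dser (⊤ : Subgroup S) ((n ^ 2).factorial + 2), ρ x = 1 := by
  by_cases hV : Subsingleton V
  · intro x _
    ext v
    exact Subsingleton.elim _ _
  have hnt : Nontrivial V := not_subsingleton_iff_nontrivial.1 hV
  have hpos : 1 ≤ Module.finrank F V := Module.finrank_pos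
  obtain ⟨B, hBn, hZB, hBB, hcen⟩ := exists_selfcentralizing ρ k hk hprim
  have hZn : (scal ρ).Normal := scal_normal ρ
  have hrel : (scal ρ).relIndex B ≤ n ^ 2 :=
    (relIndex_le_sq ρ hpos (scal ρ) B (fun s => Iff.rfl) (fun s hs => hZB s hs) hBB
      (fun s _ h => hcen s h)).trans (Nat.pow_le_pow_left hn 2)
  -- the conjugation action on the image of `B` in the quotient
  let q : S →* S ⧸ scal ρ := QuotientGroup.mk' (scal ρ)
  let B' : Subgroup (S ⧸ scal ρ) := B.map q
  have hB'n : B'.Normal := hBn.map q (QuotientGroup.mk'_surjective _)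
  have hcard : Nat.card B' ≤ n ^ 2 := by
    have h1 : Nat.card B' = (scal ρ).relIndex B := by
      have h2 : ((⊥ : Subgroup (S ⧸ scal ρ)).comap q).relIndex B =
          (⊥ : Subgroup (S ⧸ scal ρ)).relIndex (B.map q) := Subgroup.relIndex_comap _ _ _
      rw [Subgroup.relIndex_bot_left] at h2
      have h3 : (⊥ : Subgroup (S ⧸ scal ρ)).comap q = scal ρ := by
        rw [MonoidHom.comap_bot]
        exact QuotientGroup.ker_mk' _
      rw [h3] at h2
      exact h2.symm
    rw [h1]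
    exact hrel
  let τ : S →* MulAut B' := (MulAut.conjNormal (H := B')).comp q
  have hfB : Finite B' := inferInstance
  have hfin : Finite (MulAut B') :=
    Finite.of_injective (fun e : MulAut B' => (e.toEquiv : Equiv.Perm B'))
      (fun e f h => MulEquiv.toEquiv_injective h)
  have hτ : Nat.card ((⊤ : Subgroup S).map τ) ≤ (n ^ 2).factorial := by
    calc Nat.card ((⊤ : Subgroup S).map τ) ≤ Nat.card (MulAut B') :=
          Subgroup.card_le_card_group _
      _ ≤ Nat.card (Equiv.Perm B') :=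
          Nat.card_le_card_of_injective (fun e : MulAut B' => (e.toEquiv : Equiv.Perm B'))
            (fun e f h => MulEquiv.toEquiv_injective h)
      _ = (Nat.card B').factorial := Nat.card_perm
      _ ≤ (n ^ 2).factorial := Nat.factorial_le hcard
  have hker : dser (⊤ : Subgroup S) (n ^ 2).factorial ≤ τ.ker :=
    dser_le_ker_of_card τ ⊤ _ hτ k (by rw [hk]; exact bot_le)
  -- elements of the kernel
  have hc : ∀ s ∈ τ.ker, ∀ b ∈ B, ∃ c : F, ρ s * ρ b = c • (ρ b * ρ s) := by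
    intro s hs b hb
    have h1 : τ s = 1 := hs
    have h2 : (τ s ⟨q b, Subgroup.mem_map_of_mem q hb⟩ : S ⧸ scal ρ) = q b := by
      rw [h1]
      rfl
    have h3 : q s * q b * (q s)⁻¹ = q b := by
      refine Eq.trans ?_ h2
      exact (MulAut.conjNormal_apply (H := B') (q s) ⟨q b, Subgroup.mem_map_of_mem q hb⟩).symm
    have h4 : s * b * s⁻¹ * b⁻¹ ∈ scal ρ := by
      have h0 : ∀ z : S, z ∈ scal ρ ↔ q z = 1 := fun z =>
        (QuotientGroup.eq_one_iff z).symm
      rw [h0, map_mul, map_mul, map_mul, map_inv, map_inv, mul_inv_eq_one]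
      exact h3
    obtain ⟨c, hc⟩ := h4
    refine ⟨c, ?_⟩
    have h5 : s * b = (s * b * s⁻¹ * b⁻¹) * (b * s) := by group
    rw [← map_mul, h5, map_mul, hc, smul_mul_assoc, one_mul, map_mul]
  have hne : ∀ s : S, ρ s ≠ 0 := by
    intro s hs
    have : ρ s * ρ s⁻¹ = 1 := by rw [← map_mul, mul_inv_cancel, map_one]
    rw [hs, zero_mul] at this
    exact zero_ne_one this
  have hder : dser (⊤ : Subgroup S) ((n ^ 2).factorial + 1) ≤ scal ρ := by
    show ⁅dser (⊤ : Subgroup S) (n ^ 2).factorial, dser (⊤ : Subgroup S) (n ^ 2).factorial⁆ ≤ _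
    rw [Subgroup.commutator_le]
    intro s hs t ht
    apply hcen
    intro b hb
    obtain ⟨c, hcs⟩ := hc s (hker hs) b hb
    obtain ⟨d, hdt⟩ := hc t (hker ht) b hb
    have hst : ρ (s * t) * ρ b = (c * d) • (ρ b * ρ (s * t)) := by
      rw [map_mul, mul_assoc, hdt, mul_smul_comm, ← mul_assoc, hcs, smul_mul_assoc, smul_smul,
        mul_assoc, mul_comm d c]
    have hts : ρ (t * s) * ρ b = (c * d) • (ρ b * ρ (t * s)) := by
      rw [map_mul, mul_assoc, hcs, mul_smul_comm, ← mul_assoc, hdt, smul_mul_assoc, smul_smul,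
        mul_assoc]
    have hcd : c * d ≠ 0 := by
      intro h0
      rw [h0, zero_smul, ← map_mul] at hst
      exact hne _ hst
    have hinv : ρ (t * s)⁻¹ * ρ (t * s) = 1 := by rw [← map_mul, inv_mul_cancel, map_one]
    have hinv' : ρ (t * s) * ρ (t * s)⁻¹ = 1 := by rw [← map_mul, mul_inv_cancel, map_one]
    -- `ρ (ts)⁻¹ ρ b = (c d)⁻¹ ρ b ρ (ts)⁻¹`
    have h6 : ρ b * ρ (t * s)⁻¹ = (c * d) • (ρ (t * s)⁻¹ * ρ b) := by
      calc ρ b * ρ (t * s)⁻¹ = ρ (t * s)⁻¹ * (ρ (t * s) * ρ b) * ρ (t * s)⁻¹ := by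
            rw [← mul_assoc, hinv, one_mul]
        _ = (c * d) • (ρ (t * s)⁻¹ * ρ b) := by
            rw [hts, mul_smul_comm, smul_mul_assoc, mul_assoc, mul_assoc (ρ b), hinv', mul_one]
    have h7 : s * t * s⁻¹ * t⁻¹ = (s * t) * (t * s)⁻¹ := by group
    rw [commutatorElement_def, h7, map_mul]
    have h8 : (c * d) • (ρ (s * t) * ρ (t * s)⁻¹ * ρ b) =
        (c * d) • (ρ b * (ρ (s * t) * ρ (t * s)⁻¹)) := by
      rw [mul_assoc, ← mul_smul_comm, ← h6, ← mul_assoc, hst, smul_mul_assoc, mul_assoc]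
    exact smul_right_injective _ hcd h8
  intro x hx
  refine z3c_comm ρ (dser (⊤ : Subgroup S) ((n ^ 2).factorial + 1)) ?_ x hx
  intro a ha b hb
  obtain ⟨c, hc⟩ := hder ha
  obtain ⟨d, hd⟩ := hder hb
  rw [hc, hd, smul_mul_assoc, one_mul, smul_mul_assoc, one_mul, smul_smul, smul_smul, mul_comm]

end ALP
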