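import Pool.Agent.ALP.Z2b
import Pool.Agent.ALP.Z3c
import Pool.Agent.ALG.D1b

/-!
# [ALP-Z5] the derived length of solvable linear groups
-/

set_option autoImplicit false

namespace ALP

open AG ALG

/-- PROOF. Induction on `N`. `N = 0`: `V = 0`, `f = 0`. Step: `f' = ((N+1).factorial + f) + ((N+1)^2).factorial + 2 + (f + 1)` works, since `dser` decreases (`dser_anti`). Let `finrank V ≤ N + 1`. If `ρ` is not `Irr`, let `W` be invariant, `0 < W < V`: for `x ∈ dser ⊤ f` the induction hypothesis for `W` and `V ⧸ W` (restriction and quotient representation, see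
`ALG.d1b_res`, `ALG.d1b_quo`) gives `ρ x w = w` for `w ∈ W` and `ρ x v - v ∈ W`; two such operators commute (see the end of the proof of `ALG.d1b_main`), so `ρ x = 1` for `x ∈ dser ⊤ (f + 1)` (`ALG.d1b_comm`). If `ρ` is `Irr`: either some normal `A` with commuting image contains a non-scalar element: `imprimitive_step`, or not: `primitive_step`. -/
theorem derived_length (N : ℕ) : ∃ f : ℕ, ∀ (F V S : Type) [Field F] [IsAlgClosed F]
    [AddCommGroup V] [Module F V] [FiniteDimensional F V] [Group S] [Finite S]
    (ρ : S →* Module.End F V), Module.finrank F V ≤ N → (∃ k, dser (⊤ : Subgroup S) k = ⊥) →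
    ∀ x ∈ dser (⊤ : Subgroup S) f, ρ x = 1 := by
  induction N with
  | zero =>
    refine ⟨0, ?_⟩
    intro F V S _ _ _ _ _ _ _ ρ hN _ x _
    have : Subsingleton V := Module.finrank_zero_iff.1 (Nat.le_zero.1 hN)
    ext v
    exact Subsingleton.elim _ _
  | succ N ih =>
    obtain ⟨f, ih⟩ := ih
    refine ⟨((N + 1).factorial + f) + (((N + 1) ^ 2).factorial + 2) + (f + 1), ?_⟩
    intro F V S _ _ _ _ _ _ _ ρ hN hs x hx
    by_cases hirr : Irr ρ
    · by_cases hA : ∃ A : Subgroup S, A.Normal ∧ (∀ a ∈ A, ∀ b ∈ A, ρ a * ρ b = ρ b * ρ a) ∧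
        ∃ a ∈ A, ∀ c : F, ρ a ≠ c • (1 : Module.End F V)
      · obtain ⟨A, hAn, hAc, hAs⟩ := hA
        exact imprimitive_step N f ih ρ hirr hN hs A hAn hAc hAs x
          (dser_anti ⊤ _ _ (by omega) hx)
      · push Not at hA
        obtain ⟨k, hk⟩ := hs
        exact primitive_step (N + 1) ρ hN k hk hA x (dser_anti ⊤ _ _ (by omega) hx)
    · unfold Irr at hirr
      push Not at hirr
      obtain ⟨W, hW, hW1, hW2⟩ := hirr
      have h1 : Module.finrank F W < Module.finrank F V := Submodule.finrank_lt hW2
      have h2 : Module.finrank F (V ⧸ W) < Module.finrank F V := by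
        have h3 := Submodule.finrank_quotient_add_finrank W
        have h4 : 0 < Module.finrank F W := by
          rw [Module.finrank_pos_iff, Submodule.nontrivial_iff_ne_bot]
          exact hW1
        omega
      have h3 := ih F W S (d1b_res ρ W hW) (by omega) hs
      have h4 := ih F (V ⧸ W) S (d1b_quo ρ W hW) (by omega) hs
      have hx' : x ∈ ⁅dser (⊤ : Subgroup S) f, dser (⊤ : Subgroup S) f⁆ :=
        dser_anti ⊤ (f + 1) _ (by omega) hx
      refine d1b_comm ρ (dser (⊤ : Subgroup S) f) ?_ x hx'
      have h5 : ∀ y ∈ dser (⊤ : Subgroup S) f, ∀ w ∈ W, ρ y w = w := by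
        intro y hy w hw
        have h6 := congrArg (fun u : Module.End F W => ((u ⟨w, hw⟩ : W) : V)) (h3 y hy)
        exact h6
      have h6 : ∀ y ∈ dser (⊤ : Subgroup S) f, ∀ v, ρ y v - v ∈ W := by
        intro y hy v
        have h7 := congrArg (fun u : Module.End F (V ⧸ W) => u (Submodule.Quotient.mk v)) (h4 y hy)
        have h8 : (Submodule.Quotient.mk (ρ y v) : V ⧸ W) = Submodule.Quotient.mk v := h7
        exact (Submodule.Quotient.eq W).1 h8
      intro a ha b hb
      ext v
      show ρ a (ρ b v) = ρ b (ρ a v)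
      have h7 : ρ a (ρ b v) = ρ b v - v + ρ a v := by
        have := h5 a ha _ (h6 b hb v)
        rw [map_sub] at this
        rw [← this]
        abel
      have h8 : ρ b (ρ a v) = ρ a v - v + ρ b v := by
        have := h5 b hb _ (h6 a ha v)
        rw [map_sub] at this
        rw [← this]
        abel
      rw [h7, h8]
      abel

end ALP
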